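import Pool.Agent.W263.BSD.Curve
import Pool.Agent.N739.LW.Geo

/-!
# The incomplete `L`-series of an elliptic curve as an instance of `LG`
-/

set_option autoImplicit false

open MeasureTheory Filter Topology Set
open Pool.Agent.W263.BSD

namespace Pool.Agent.N739.EL

noncomputable section

open Classical

variable {S : Set ℕ} {A : ℕ → ℝ}

/-- the numbers `log ((N_p + 1)/p)` -/
def fc (S : Set ℕ) (A : ℕ → ℝ) (n : ℕ) : ℂ := if n ∈ S then (cc A n : ℂ) else 0

theorem cc_le (E : EData S A) {p : ℕ} (hp : p ∈ S) : |cc A p| ≤ 4 * dl p := by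
  have h25 := E.big p hp
  have h2 := E.log_fac hp (X := 1) (by simp)
  rw [← E.cc_eq hp] at h2
  have h3 : ((cc A p : ℂ) - (-(tt A p) * 1 + mm A p * 1 ^ 2)) =
      ((cc A p - (-(tt A p) + mm A p) : ℝ) : ℂ) := by push_cast; ring
  rw [h3, Complex.norm_real, Real.norm_eq_abs] at h2
  have h4 := abs_le.mp h2
  have h5 := abs_le.mp (E.tt_le hp)
  have h6 := E.mm_le hp
  rw [← dl_sq (by omega)] at h6
  have h6' := abs_le.mp h6
  have h7 := dl_nonneg p
  have h8 := dl_le h25
  have h9 : dl p ^ 2 ≤ (1 / 5) * dl p := by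
    rw [sq]
    exact mul_le_mul_of_nonneg_right h8 h7
  have h10 : dl p ^ 3 ≤ (1 / 25) * dl p := by
    have : dl p ^ 3 = dl p ^ 2 * dl p := by ring
    rw [this]
    have h11 : dl p ^ 2 ≤ 1 / 25 := by
      have := pow_le_pow_left₀ h7 h8 2
      norm_num at this
      exact this
    exact mul_le_mul_of_nonneg_right h11 h7
  rw [abs_le]
  constructor <;> linarith [h4.1, h4.2, h5.1, h5.2, h6'.1, h6'.2]

theorem dl_rpow (n : ℕ) (hn : n ≠ 0) : dl n = (n : ℝ) ^ (-(1 / 2) : ℝ) := by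
  have hp' : (0 : ℝ) < n := by exact_mod_cast Nat.pos_of_ne_zero hn
  unfold dl
  rw [Real.sqrt_eq_rpow, one_div, ← Real.rpow_neg hp'.le]

theorem fc_norm (E : EData S A) {n : ℕ} (hn : n ≠ 0) : ‖fc S A n‖ ≤ 4 * (n : ℝ) ^ (-(1 / 2) : ℝ) := by
  unfold fc
  split_ifs with h
  · rw [Complex.norm_real, Real.norm_eq_abs, ← dl_rpow n hn]
    exact cc_le E h
  · rw [norm_zero]; positivity

theorem fc_zero (E : EData S A) : fc S A 0 = 0 := by
  unfold fc
  rw [if_neg]
  intro h
  have := E.big 0 h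
  omega

theorem fc_abs (E : EData S A) : LSeries.abscissaOfAbsConv (fc S A) ≤ ((1 / 2 : ℝ) : EReal) := by
  have h := LSeries.abscissaOfAbsConv_le_of_le_const_mul_rpow (f := fc S A) (x := -(1 / 2))
    ⟨4, fun n hn => fc_norm E hn⟩
  refine h.trans (le_of_eq ?_)
  have : ((1 / 2 : ℝ) : EReal) = ((-(1 / 2) + 1 : ℝ) : EReal) := by norm_num
  rw [this, EReal.coe_add, EReal.coe_one]

theorem fc_abs_lt (E : EData S A) {w : ℂ} (hw : 1 / 2 < w.re) :
    LSeries.abscissaOfAbsConv (fc S A) < w.re :=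
  (fc_abs E).trans_lt (by exact_mod_cast hw)

theorem fc_term (E : EData S A) (w : ℂ) (n : ℕ) :
    LSeries.term (fc S A) w n = if n ∈ S then (cc A n : ℂ) * xp n w else 0 := by
  by_cases hn : n = 0
  · subst hn
    rw [LSeries.term_zero, if_neg]
    intro h
    have := E.big 0 h
    omega
  · rw [LSeries.term_of_ne_zero hn]
    unfold fc xp
    split_ifs with h
    · rw [Complex.cpow_neg, div_eq_mul_inv]
    · rw [zero_div]

theorem fc_lser (E : EData S A) (k : ℕ) {w : ℂ} (hw : 1 < w.re) :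
    LSeries (fc S A) w = w ^ (k + 1) * lapC (aak S A k) w := by
  unfold LSeries
  rw [← (lap_hasSum E k hw).tsum_eq]
  exact tsum_congr fun n => fc_term E w n

variable {a b : ℤ} {F : ℂ → ℂ}

theorem phi_exp1 (hF : IsLSeries a b F) {w : ℂ} (hw : 1 < w.re) :
    PhiF a b F w = Complex.exp (GG (SS a b) (Ap a b) w - LSeries (fc (SS a b) (Ap a b)) w) := by
  have E := eData a b
  rw [fc_lser E 0 hw]
  exact (PhiF_hasProd hF hw).unique (E.hasProd 0 hw)

theorem phi_exp (hF : IsLSeries a b F) {w : ℂ} (hw : 1 / 2 < w.re) :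
    PhiF a b F w = Complex.exp (GG (SS a b) (Ap a b) w - LSeries (fc (SS a b) (Ap a b)) w) := by
  have E := eData a b
  have ho : IsOpen {z : ℂ | 1 / 2 < z.re} := isOpen_half _
  have h1 : AnalyticOnNhd ℂ (PhiF a b F) {z : ℂ | 1 / 2 < z.re} := fun z _ =>
    (PhiF_differentiable hF).analyticAt z
  have h2 : AnalyticOnNhd ℂ (fun w => Complex.exp (GG (SS a b) (Ap a b) w -
      LSeries (fc (SS a b) (Ap a b)) w)) {z : ℂ | 1 / 2 < z.re} := by
    refine DifferentiableOn.analyticOnNhd (fun z hz => ?_) ho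
    have hz' : 1 / 2 < z.re := hz
    refine DifferentiableAt.differentiableWithinAt ?_
    refine ((E.GG_differentiable (by linarith)).sub ?_).cexp
    exact (LSeries_hasDerivAt (fc_abs_lt E hz')).differentiableAt
  have h3 : PhiF a b F =ᶠ[𝓝 (2 : ℂ)] (fun w => Complex.exp (GG (SS a b) (Ap a b) w -
      LSeries (fc (SS a b) (Ap a b)) w)) := by
    have h4 : {z : ℂ | 1 < z.re} ∈ 𝓝 (2 : ℂ) := (isOpen_half 1).mem_nhds (by simp)
    filter_upwards [h4] with z hz
    exact phi_exp1 hF hz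
  exact h1.eqOn_of_preconnected_of_eventuallyEq h2 (preconn_half _) (by simp; norm_num) h3 hw

theorem GG_bd (E : EData S A) {η : ℝ} (hη : 0 < η) : ∃ B : ℝ, ∀ z : ℂ, η ≤ z.re → ‖GG S A z‖ ≤ B := by
  refine ⟨∑' p : ℕ, (2 * (p : ℝ) ^ (-1 - η / 2) + 60 * (p : ℝ) ^ (-(3 / 2) : ℝ)), fun z hz => ?_⟩
  · unfold GG
    exact tsum_of_norm_bounded (summable_bound (half_pos hη)).hasSum
      fun p => E.gterm_norm (half_pos hη) p (by linarith)

theorem lser_bd (E : EData S A) : ∃ B : ℝ, ∀ z : ℂ, 1 ≤ z.re → ‖LSeries (fc S A) z‖ ≤ B := by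
  have hs : Summable fun n : ℕ => 4 * (n : ℝ) ^ (-(3 / 2) : ℝ) :=
    (Real.summable_nat_rpow.mpr (by norm_num)).mul_left _
  refine ⟨∑' n : ℕ, 4 * (n : ℝ) ^ (-(3 / 2) : ℝ), fun z hz => ?_⟩
  · unfold LSeries
    refine tsum_of_norm_bounded hs.hasSum fun n => ?_
    by_cases hn : n = 0
    · subst hn
      rw [LSeries.term_zero, norm_zero]; positivity
    · have hn1 : (1 : ℝ) ≤ n := by exact_mod_cast Nat.one_le_iff_ne_zero.2 hn
      have hn0 : (0 : ℝ) < n := by linarith
      rw [LSeries.term_of_ne_zero hn, norm_div,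
        Complex.norm_natCast_cpow_of_pos (Nat.pos_of_ne_zero hn)]
      have h1 := fc_norm E hn
      rw [div_le_iff₀ (Real.rpow_pos_of_pos hn0 _)]
      refine h1.trans ?_
      rw [mul_assoc, ← Real.rpow_add hn0]
      refine mul_le_mul_of_nonneg_left ?_ (by norm_num)
      exact Real.rpow_le_rpow_of_exponent_le hn1 (by linarith)

theorem GG_deriv_bd (E : EData S A) {η : ℝ} (hη : 0 < η) :
    ∃ B : ℝ, ∀ z : ℂ, η ≤ z.re → ‖deriv (GG S A) z‖ ≤ B := by
  obtain ⟨B, hB⟩ := GG_bd E (half_pos hη)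
  refine ⟨B / (η / 4), fun z hz => ?_⟩
  have hR : 0 < η / 4 := by linarith
  have hre : ∀ w ∈ Metric.closedBall z (η / 4), η / 2 ≤ w.re := by
    intro w hw
    rw [mem_closedBall_iff_norm] at hw
    have h1 := Complex.abs_re_le_norm (w - z)
    have h2 := abs_le.mp (h1.trans hw)
    rw [Complex.sub_re] at h2
    linarith [h2.1]
  refine Complex.norm_deriv_le_of_forall_mem_sphere_norm_le hR ?_ fun w hw =>
    hB w (hre w (Metric.sphere_subset_closedBall hw))
  refine DifferentiableOn.diffContOnCl ?_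
  intro w hw
  have hw' := hre w (Metric.closure_ball_subset_closedBall hw)
  exact (E.GG_differentiable (by linarith)).differentiableWithinAt

theorem log_mul_sum (E : EData S A) :
    Summable fun n : ℕ => ‖LSeries.logMul (fc S A) n‖ * (n : ℝ) ^ (-(3 / 2) : ℝ) := by
  refine Summable.of_nonneg_of_le (fun n => by positivity) (fun n => ?_)
    ((Real.summable_nat_rpow.mpr (by norm_num : (-(3 / 2) : ℝ) < -1)).mul_left 8)
  by_cases hn : n = 0
  · subst hn
    rw [LSeries.logMul, Nat.cast_zero, Complex.log_zero, zero_mul, norm_zero, zero_mul]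
    positivity
  · have hn1 : (1 : ℝ) ≤ n := by exact_mod_cast Nat.one_le_iff_ne_zero.2 hn
    have hn0 : (0 : ℝ) < n := by linarith
    have h1 := fc_norm E hn
    have h2 : Real.log n ≤ 2 * (n : ℝ) ^ (1 / 2 : ℝ) := by
      have := Real.log_le_rpow_div hn0.le (by norm_num : (0 : ℝ) < 1 / 2)
      linarith
    have h3 : ‖LSeries.logMul (fc S A) n‖ = Real.log n * ‖fc S A n‖ := by
      rw [LSeries.logMul, norm_mul, ← Complex.natCast_log, Complex.norm_real,
        Real.norm_of_nonneg (Real.log_nonneg hn1)]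
    rw [h3]
    have h4 : Real.log n * ‖fc S A n‖ ≤ (2 * (n : ℝ) ^ (1 / 2 : ℝ)) * (4 * (n : ℝ) ^ (-(1 / 2) : ℝ)) :=
      mul_le_mul h2 h1 (norm_nonneg _) (by positivity)
    have h5 : (2 * (n : ℝ) ^ (1 / 2 : ℝ)) * (4 * (n : ℝ) ^ (-(1 / 2) : ℝ)) = 8 := by
      rw [Real.rpow_neg hn0.le]
      have : (n : ℝ) ^ (1 / 2 : ℝ) ≠ 0 := (Real.rpow_pos_of_pos hn0 _).ne'
      field_simp
      norm_num
    rw [h5] at h4
    exact mul_le_mul_of_nonneg_right h4 (by positivity)

/-- The incomplete `L`-series of an elliptic curve to the right of its centre. -/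
theorem inst (hF : IsLSeries a b F)
    (hgr : ∃ C : ℝ, ∀ s : ℂ, 0 < s.re → ‖PhiF a b F s‖ ≤ C * (1 + ‖s‖) * (1 + 1 / s.re) ^ 2) :
    LW.LG (PhiF a b F) (fun w => -deriv (GG (SS a b) (Ap a b)) w)
      (LSeries.logMul (fc (SS a b) (Ap a b))) where
  diff := PhiF_differentiable hF
  gro := by
    intro η hη
    obtain ⟨C, hC⟩ := hgr
    refine ⟨max C 1 * (1 + 1 / η) ^ 2, 1, by positivity, fun z hz => ?_⟩
    have hz0 : 0 < z.re := by linarith
    refine (hC z hz0).trans ?_
    rw [pow_one, mul_right_comm]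
    have h1 : 1 / z.re ≤ 1 / η := one_div_le_one_div_of_le hη hz
    have h2 : 0 ≤ 1 / z.re := by positivity
    refine mul_le_mul_of_nonneg_right ?_ (by positivity)
    refine mul_le_mul (le_max_left _ _) ?_ (by positivity) (by positivity)
    exact pow_le_pow_left₀ (by positivity) (by linarith) 2
  low := by
    have E := eData a b
    obtain ⟨B1, h1⟩ := GG_bd E (show (0 : ℝ) < 2 by norm_num)
    obtain ⟨B2, h2⟩ := lser_bd E
    refine ⟨Real.exp (-(B1 + B2)), Real.exp_pos _, fun z hz => ?_⟩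
    rw [phi_exp hF (by linarith), Complex.norm_exp]
    apply Real.exp_le_exp.2
    have h3 := h1 z hz
    have h4 := h2 z (by linarith)
    have h5 := (abs_le.mp (Complex.abs_re_le_norm (GG (SS a b) (Ap a b) z - LSeries (fc (SS a b) (Ap a b)) z))).1
    have h6 := norm_sub_le (GG (SS a b) (Ap a b) z) (LSeries (fc (SS a b) (Ap a b)) z)
    linarith
  ne := by
    intro z hz
    rw [phi_exp hF (by linarith)]
    exact Complex.exp_ne_zero _
  gd := by
    intro z hz
    have E := eData a b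
    have h1 : DifferentiableOn ℂ (GG (SS a b) (Ap a b)) {z : ℂ | 0 < z.re} := fun w hw =>
      (E.GG_differentiable hw).differentiableWithinAt
    have h2 := h1.deriv (isOpen_half 0)
    exact (h2.differentiableAt ((isOpen_half 0).mem_nhds hz)).neg
  gb := by
    intro η hη
    obtain ⟨B, hB⟩ := GG_deriv_bd (eData a b) hη
    exact ⟨B, fun z hz => by rw [norm_neg]; exact hB z hz⟩
  sum := log_mul_sum (eData a b)
  a0 := by rw [LSeries.logMul, Nat.cast_zero, Complex.log_zero, zero_mul]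
  ser := by
    intro s hs
    have E := eData a b
    have hs' : 1 / 2 < s.re := by linarith
    have h1 : HasDerivAt (LSeries (fc (SS a b) (Ap a b)))
        (-LSeries (LSeries.logMul (fc (SS a b) (Ap a b))) s) s :=
      LSeries_hasDerivAt (fc_abs_lt E hs')
    have h2 : HasDerivAt (GG (SS a b) (Ap a b)) (deriv (GG (SS a b) (Ap a b)) s) s :=
      (E.GG_differentiable (by linarith)).hasDerivAt
    have h3 := (h2.sub h1).cexp
    have h4 : PhiF a b F =ᶠ[𝓝 s] (fun w => Complex.exp (GG (SS a b) (Ap a b) w -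
        LSeries (fc (SS a b) (Ap a b)) w)) := by
      have h4 : {z : ℂ | 1 / 2 < z.re} ∈ 𝓝 s := (isOpen_half _).mem_nhds hs'
      filter_upwards [h4] with z hz
      exact phi_exp hF hz
    rw [h4.deriv_eq]
    have h5 : deriv (fun w => Complex.exp (GG (SS a b) (Ap a b) w -
        LSeries (fc (SS a b) (Ap a b)) w)) s = _ := h3.deriv
    rw [h5, phi_exp hF hs']
    have h6 := Complex.exp_ne_zero (GG (SS a b) (Ap a b) s - LSeries (fc (SS a b) (Ap a b)) s)
    simp only [Pi.sub_apply]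
    field_simp
    ring

end

end Pool.Agent.N739.EL
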