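import Pool.Agent.TH270.MS.GrowthF
import Pool.Agent.N739.LW.Asym
import Pool.Agent.N739.EL.Inst

/-!
# The zeros of the incomplete `L`-series to the right of the centre are zeros of the completed one
-/

set_option autoImplicit false

open MeasureTheory Filter Topology Set
open CongruenceSubgroup Pool.Agent.TH941
open scoped MatrixGroups
open Pool.Agent.W165.RS (ac ac_zero)
open Pool.Agent.W263.BSD
open Pool.Agent.TH942.RZ Pool.Agent.TH942.RZ.Growth

namespace Pool.Agent.N739.EL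

open Pool.Agent.N739.LW (LG NZ Dens)

noncomputable section

/-- nonvanishing of a local factor with reciprocal roots of modulus `√p` -/
theorem quad_ne {x : ℝ} {p : ℕ} (hp : p.Prime) (hx : |x| ≤ 2 * Real.sqrt p) {z : ℂ}
    (hz : 1 / 2 < z.re) : 1 - (x : ℂ) * (p : ℂ) ^ (-z) + (p : ℂ) ^ (1 - 2 * z) ≠ 0 := by
  have hp0 : (0 : ℝ) < p := by exact_mod_cast hp.pos
  have hp1 : (1 : ℝ) < p := by exact_mod_cast hp.one_lt
  obtain ⟨α, β, hα, hβ, hs, hm⟩ := exists_roots' hp0 hx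
  rw [cpow_sq hp]
  set X : ℂ := (p : ℂ) ^ (-z) with hX
  have hXn : Real.sqrt p * ‖X‖ < 1 := by
    rw [hX, Complex.norm_natCast_cpow_of_pos hp.pos, Complex.neg_re, Real.sqrt_eq_rpow,
      ← Real.rpow_add hp0]
    exact Real.rpow_lt_one_of_one_lt_of_neg hp1 (by linarith)
  have hfac : 1 - (x : ℂ) * X + (p : ℂ) * X ^ 2 = (1 - α * X) * (1 - β * X) := by
    have hs' : (x : ℂ) = α + β := hs.symm
    have hm' : (p : ℂ) = α * β := by
      rw [hm]; norm_cast
    rw [hs', hm']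
    ring
  rw [hfac]
  refine mul_ne_zero ?_ ?_
  · intro h0
    have h1 : α * X = 1 := by linear_combination -h0
    have h2 : ‖α * X‖ < 1 := by rw [norm_mul, hα]; exact hXn
    rw [h1, norm_one] at h2
    exact lt_irrefl _ h2
  · intro h0
    have h1 : β * X = 1 := by linear_combination -h0
    have h2 : ‖β * X‖ < 1 := by rw [norm_mul, hβ]; exact hXn
    rw [h1, norm_one] at h2
    exact lt_irrefl _ h2

variable {a b : ℤ} {F : ℂ → ℂ}

theorem three_le (a b : ZMod 3) : (Finset.univ.filter fun q : ZMod 3 × ZMod 3 =>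
    q.2 ^ 2 = q.1 ^ 3 + a * q.1 + b).card ≤ 6 := by
  revert a b
  decide

theorem hasse' {p : ℕ} (h : GoodPrime a b p) : |(p : ℝ) - pointCount a b p| ≤ 2 * √p := by
  rcases Nat.lt_or_ge p 5 with h5 | h5
  · have hp := h.1
    have h3 : p = 3 := by
      have h2 := hp.two_le
      have e2 : p ≠ 2 := by
        rintro rfl
        exact h.2 (Dvd.intro _ rfl)
      have e4 : p ≠ 4 := by
        rintro rfl
        norm_num at hp
      omega
    subst h3
    have h1 : pointCount a b 3 ≤ 6 := by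
      unfold pointCount
      rw [Nat.card_eq_fintype_card, Fintype.card_subtype]
      exact three_le a b
    have h2 : (pointCount a b 3 : ℝ) ≤ 6 := by exact_mod_cast h1
    have h3 : (0 : ℝ) ≤ pointCount a b 3 := Nat.cast_nonneg _
    have h4 : (3 : ℝ) ≤ 2 * √3 := by
      have : (3 / 2 : ℝ) ≤ √3 := Real.le_sqrt_of_sq_le (by norm_num)
      linarith
    rw [abs_le]
    push_cast
    constructor <;> linarith
  · exact Pool.Agent.W263.BSD.hasse h h5

theorem small_ne {w : ℂ} (hw : 0 < w.re) : small a b w ≠ 0 := by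
  unfold small
  rw [Finset.prod_ne_zero_iff]
  intro p _
  split_ifs with h
  · unfold ef
    have h1 := quad_ne (x := (p : ℝ) - pointCount a b p) h.1 (hasse' h) (z := 1 + w)
      (by simp; linarith)
    push_cast at h1
    exact h1
  · exact one_ne_zero

theorem Ef_ne {N : ℕ} [NeZero N] {f : CuspForm (Gamma0 N : Subgroup (GL (Fin 2) ℝ)) 2}
    (hf : Hecke f) {p : ℕ} (hp : p.Prime) {z : ℂ} (hz : 1 / 2 < z.re) : Ef (ac f) N p z ≠ 0 := by
  have hre : ac f p = (((ac f p).re : ℝ) : ℂ) := by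
    apply Complex.ext
    · simp
    · rw [hf.real]; simp
  unfold Ef
  split_ifs with hd
  · have h1 := hf.bad p hp hd
    have hp1 : (1 : ℝ) < p := by exact_mod_cast hp.one_lt
    intro h0
    have h2 : ac f p * (p : ℂ) ^ (-z) = 1 := by linear_combination -h0
    have h3 : ‖ac f p * (p : ℂ) ^ (-z)‖ < 1 := by
      rw [norm_mul, Complex.norm_natCast_cpow_of_pos hp.pos, Complex.neg_re]
      have h4 : (p : ℝ) ^ (-z.re) < 1 := Real.rpow_lt_one_of_one_lt_of_neg hp1 (by linarith)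
      have h5 : 0 ≤ (p : ℝ) ^ (-z.re) := by positivity
      calc ‖ac f p‖ * (p : ℝ) ^ (-z.re) ≤ 1 * (p : ℝ) ^ (-z.re) := by gcongr
        _ < 1 := by linarith
    rw [h2, norm_one] at h3
    exact lt_irrefl _ h3
  · have h1 := hf.good p hp hd
    rw [hre] at h1 ⊢
    rw [Complex.norm_real, Real.norm_eq_abs] at h1
    exact quad_ne hp h1 hz

theorem Df_ne {p : ℕ} (h : GoodPrime a b p) {z : ℂ} (hz : 1 / 2 < z.re) : Df a b p z ≠ 0 := by
  unfold Df
  have h1 := quad_ne (x := (p : ℝ) - pointCount a b p) h.1 (hasse' h) hz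
  push_cast at h1
  exact h1

/-- The zeros of the incomplete `L`-series with `Re s > 1/2` are the zeros of the `L`-series of the newform. -/
theorem zero_iff_of (hΔ : 4 * a ^ 3 + 27 * b ^ 2 ≠ 0) (hF : IsLSeries a b F)
    {N : ℕ} [NeZero N] {f : CuspForm (Gamma0 N : Subgroup (GL (Fin 2) ℝ)) 2} (hf : Hecke f)
    (hb : Belongs a b f) :
    ∃ G0 : ℂ → ℂ, Differentiable ℂ G0 ∧ (∀ s : ℂ, 3 < s.re → G0 s = LSeries (ac f) s) ∧
      ∀ z : ℂ, 1 / 2 < z.re → (F z = 0 ↔ G0 z = 0) := by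
  classical
  obtain ⟨C, hC, hS⟩ := partial_sum_bound f
  obtain ⟨G, hGd, hGL, C₁, κ, hG⟩ := Pool.Agent.TH270.MS.growth_left f
  have hS' : ∀ M : ℕ, ‖∑ k ∈ Finset.Icc 1 M, ac f k‖ ≤
      C * ((M : ℝ) + 1) * (1 + Real.log ((M : ℝ) + 1)) := by
    intro M
    have e : ∑ n ∈ Finset.range (M + 1), ac f n = ∑ k ∈ Finset.Icc 1 M, ac f k := by
      have : Finset.range (M + 1) = insert 0 (Finset.Icc 1 M) := by
        ext x
        simp only [Finset.mem_range, Finset.mem_insert, Finset.mem_Icc]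
        omega
      rw [this, Finset.sum_insert (by simp), ac_zero, zero_add]
    rw [← e]
    exact hS M
  obtain ⟨D, hD⟩ := good_of_large hΔ
  have hN0 : N ≠ 0 := NeZero.ne N
  obtain ⟨S, hSe⟩ : ∃ S : Finset ℕ, S = (Finset.range (D + N + 1)).filter
      (fun p => p.Prime ∧ (¬ GoodPrime a b p ∨ p ∣ N)) := ⟨_, rfl⟩
  have hSp : ∀ p ∈ S, p.Prime := by
    intro p hp
    rw [hSe, Finset.mem_filter] at hp
    exact hp.2.1
  have hSn : ∀ p : ℕ, p.Prime → p ∉ S → GoodPrime a b p ∧ ¬ p ∣ N := by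
    intro p hp hpS
    rw [hSe, Finset.mem_filter, Finset.mem_range] at hpS
    by_cases hlt : p < D + N + 1
    · by_contra hcon
      apply hpS
      refine ⟨hlt, hp, ?_⟩
      tauto
    · refine ⟨hD p hp (by omega), fun hd => ?_⟩
      have := Nat.le_of_dvd (Nat.pos_of_ne_zero hN0) hd
      omega
  obtain ⟨P1, hP1⟩ : ∃ P1 : ℂ → ℂ, P1 = fun z => ∏ p ∈ S, Ef (ac f) N p z := ⟨_, rfl⟩
  obtain ⟨P2, hP2⟩ : ∃ P2 : ℂ → ℂ, P2 = fun z => ∏ p ∈ S,
    (if GoodPrime a b p then Df a b p z else 1) := ⟨_, rfl⟩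
  have hP1d : Differentiable ℂ P1 := by
    rw [hP1]
    intro w
    refine DifferentiableAt.fun_finsetProd fun p hp => ?_
    exact Ef_differentiable _ _ (hSp p hp) w
  have hP2d : Differentiable ℂ P2 := by
    rw [hP2]
    intro w
    refine DifferentiableAt.fun_finsetProd fun p hp => ?_
    split_ifs
    · exact Df_differentiable _ _ (hSp p hp) w
    · exact differentiableAt_const _
  have hA1 : AnalyticOnNhd ℂ (fun z => F z * P2 z) Set.univ :=
    (hF.1.mul hP2d).differentiableOn.analyticOnNhd isOpen_univ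
  have hA2 : AnalyticOnNhd ℂ (fun z => G z * P1 z) Set.univ :=
    (hGd.mul hP1d).differentiableOn.analyticOnNhd isOpen_univ
  have hEq : Set.EqOn (fun z => F z * P2 z) (fun z => G z * P1 z) Set.univ := by
    refine hA1.eqOn_of_preconnected_of_eventuallyEq hA2 isPreconnected_univ (z₀ := 4)
      (Set.mem_univ _) ?_
    have hV : IsOpen {z : ℂ | 3 < z.re} := isOpen_lt continuous_const Complex.continuous_re
    have h4 : (4 : ℂ) ∈ {z : ℂ | 3 < z.re} := by
      show (3 : ℝ) < (4 : ℂ).re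
      norm_num
    filter_upwards [hV.mem_nhds h4] with z hz
    have hz' : 3 < z.re := hz
    have hk := key_identity hF hf hb hz' (lsummable hC hS' hz') S hSp hSn
    have h5 : G z = LSeries (ac f) z := hGL z hz'
    rw [← h5] at hk
    rw [hP1, hP2]
    exact hk
  refine ⟨G, hGd, fun s hs => hGL s hs, fun z hz => ?_⟩
  have h1 : F z * P2 z = G z * P1 z := hEq (Set.mem_univ z)
  have hP1z : P1 z ≠ 0 := by
    rw [hP1]
    exact Finset.prod_ne_zero_iff.2 fun p hp => Ef_ne hf (hSp p hp) hz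
  have hP2z : P2 z ≠ 0 := by
    rw [hP2]
    refine Finset.prod_ne_zero_iff.2 fun p hp => ?_
    split_ifs with hg
    · exact Df_ne hg hz
    · exact one_ne_zero
  constructor
  · intro hz0
    rw [hz0, zero_mul] at h1
    exact (mul_eq_zero.1 h1.symm).resolve_right hP1z
  · intro hz0
    rw [hz0, zero_mul] at h1
    exact (mul_eq_zero.1 h1).resolve_right hP2z

/-- The zeros of the incomplete `L`-series with `Re s > 1` are zeros of the `L`-series of the newform. -/
theorem zero_of (hΔ : 4 * a ^ 3 + 27 * b ^ 2 ≠ 0) (hF : IsLSeries a b F)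
    {N : ℕ} [NeZero N] {f : CuspForm (Gamma0 N : Subgroup (GL (Fin 2) ℝ)) 2} (hf : Hecke f)
    (hb : Belongs a b f) :
    ∃ G0 : ℂ → ℂ, Differentiable ℂ G0 ∧ (∀ s : ℂ, 3 < s.re → G0 s = LSeries (ac f) s) ∧
      ∀ z : ℂ, 1 < z.re → F z = 0 → G0 z = 0 := by
  obtain ⟨G0, h1, h2, h3⟩ := zero_iff_of hΔ hF hf hb
  exact ⟨G0, h1, h2, fun z hz h => (h3 z (by linarith)).1 h⟩

/-- The zero density hypothesis, from the one for the completed function. -/
theorem dens_of {G g Λ : ℂ → ℂ} {a' : ℕ → ℂ} (h : LG G g a')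
    (h1 : ∀ w : ℂ, 0 < w.re → G w = 0 → Λ (1 + w) = 0)
    (h2 : ∀ s : ℂ, Λ s = 0 → Λ (2 - s) = 0)
    (h3 : ∀ c : ℝ, c < 1 → ∃ C : ℝ, 0 < C ∧ ∀ δ T : ℝ, 0 ≤ δ → 2 ≤ T →
      ({s : ℂ | Λ s = 0 ∧ δ ≤ |s.re - 1| ∧ 0 < s.im ∧ s.im ≤ T}).Finite ∧
      (({s : ℂ | Λ s = 0 ∧ δ ≤ |s.re - 1| ∧ 0 < s.im ∧ s.im ≤ T}).ncard : ℝ) ≤
        C * T ^ (1 - c * δ) * Real.log T) : Dens G := by
  intro c θ hc hθ hθ2
  obtain ⟨C, hC, hoff⟩ := h3 c hc
  set K : ℝ := ((NZ G θ 1).ncard : ℝ) with hK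
  have hK0 : 0 ≤ K := Nat.cast_nonneg _
  refine ⟨max 1 (2 * C + 2 * K), le_max_left _ _, fun T hT => ?_⟩
  obtain ⟨hfin, hcard⟩ := hoff θ T hθ.le hT
  set Off : Set ℂ := {s : ℂ | Λ s = 0 ∧ θ ≤ |s.re - 1| ∧ 0 < s.im ∧ s.im ≤ T} with hOff
  have hsub : NZ G θ T ⊆ NZ G θ 1 ∪ (((fun s : ℂ => s - 1) '' Off) ∪ ((fun s : ℂ => 1 - s) '' Off)) := by
    rintro w ⟨hw0, hwθ, hwT⟩
    have hwT' := abs_lt.mp hwT
    have hpos : 0 < w.re := by linarith
    have hΛ := h1 w hpos hw0
    rcases lt_trichotomy w.im 0 with hi | hi | hi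
    · right; right
      refine ⟨1 - w, ⟨?_, ?_, ?_, ?_⟩, by simp⟩
      · have := h2 _ hΛ
        rw [show (2 : ℂ) - (1 + w) = 1 - w by ring] at this
        exact this
      · rw [Complex.sub_re, Complex.one_re, show (1 - w.re - 1 : ℝ) = -w.re by ring, abs_neg,
          abs_of_pos hpos]
        exact hwθ.le
      · rw [Complex.sub_im, Complex.one_im]; linarith
      · rw [Complex.sub_im, Complex.one_im]; linarith [hwT'.1]
    · left
      refine ⟨hw0, hwθ, ?_⟩
      rw [hi, abs_zero]; exact one_pos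
    · right; left
      refine ⟨1 + w, ⟨hΛ, ?_, ?_, ?_⟩, by simp⟩
      · rw [Complex.add_re, Complex.one_re, show (1 + w.re - 1 : ℝ) = w.re by ring,
          abs_of_pos hpos]
        exact hwθ.le
      · rw [Complex.add_im, Complex.one_im]; linarith
      · rw [Complex.add_im, Complex.one_im]; linarith [hwT'.2]
  have hfinU : (NZ G θ 1 ∪ (((fun s : ℂ => s - 1) '' Off) ∪ ((fun s : ℂ => 1 - s) '' Off))).Finite :=
    (h.NZ_fin hθ 1).union ((hfin.image _).union (hfin.image _))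
  have hc1 : (NZ G θ T).ncard ≤ (NZ G θ 1).ncard + (Off.ncard + Off.ncard) := by
    refine (Set.ncard_le_ncard hsub hfinU).trans ?_
    refine (Set.ncard_union_le _ _).trans (Nat.add_le_add_left ?_ _)
    refine (Set.ncard_union_le _ _).trans (Nat.add_le_add ?_ ?_)
    · exact Set.ncard_image_le hfin
    · exact Set.ncard_image_le hfin
  have hc2 : ((NZ G θ T).ncard : ℝ) ≤ K + 2 * Off.ncard := by
    have : ((NZ G θ T).ncard : ℝ) ≤ ((NZ G θ 1).ncard + (Off.ncard + Off.ncard) : ℕ) := by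
      exact_mod_cast hc1
    push_cast at this
    linarith
  have hlog : 1 / 2 ≤ Real.log T := by
    have h5 := Real.log_two_gt_d9
    have h6 : Real.log 2 ≤ Real.log T := Real.log_le_log (by norm_num) hT
    linarith
  have hexp : 0 ≤ 1 - c * θ := by
    have h7 : c * θ ≤ 1 * θ := mul_le_mul_of_nonneg_right hc.le hθ.le
    linarith
  have hpow : 1 ≤ T ^ (1 - c * θ) := Real.one_le_rpow (by linarith) hexp
  have hM : 1 ≤ 2 * (T ^ (1 - c * θ) * Real.log T) := by
    have : 1 * (1 / 2) ≤ T ^ (1 - c * θ) * Real.log T := mul_le_mul hpow hlog (by norm_num) (by linarith)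
    linarith
  calc ((NZ G θ T).ncard : ℝ) ≤ K + 2 * Off.ncard := hc2
    _ ≤ K * (2 * (T ^ (1 - c * θ) * Real.log T)) + 2 * (C * T ^ (1 - c * θ) * Real.log T) := by
        refine add_le_add ?_ (mul_le_mul_of_nonneg_left hcard (by norm_num))
        exact le_mul_of_one_le_right hK0 hM
    _ = (2 * C + 2 * K) * (T ^ (1 - c * θ) * Real.log T) := by ring
    _ ≤ max 1 (2 * C + 2 * K) * (T ^ (1 - c * θ) * Real.log T) := by
        refine mul_le_mul_of_nonneg_right (le_max_right _ _) ?_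
        have : 0 ≤ Real.log T := by linarith
        positivity
    _ = _ := by ring

end

end Pool.Agent.N739.EL
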