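import Pool.Agent.W189.ML.Curve
import Pool.Agent.TH270.MS.EQ2
import Pool.Agent.N739.EL.Zeros

/-!
# The leading coefficient is positive if there are no zeros to the right of the centre
-/

set_option autoImplicit false

open MeasureTheory Filter Topology Set
open Pool.Agent.W263.BSD

namespace Pool.Agent.N739.EL

noncomputable section

variable {a b : ℤ} {F : ℂ → ℂ}

theorem small_real_pos {w : ℝ} (hw : 0 ≤ w) : ∃ y : ℝ, 0 < y ∧ small a b w = (y : ℂ) := by
  classical
  have key : ∀ s : Finset ℕ, ∃ y : ℝ, 0 < y ∧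
      (∏ p ∈ s, if GoodPrime a b p then ef a b p w else 1) = (y : ℂ) := by
    intro s
    induction s using Finset.induction_on with
    | empty => exact ⟨1, one_pos, by simp⟩
    | insert p s hp ih =>
      obtain ⟨y, hy, he⟩ := ih
      rw [Finset.prod_insert hp, he]
      split_ifs with h
      · obtain ⟨z, hz, hz'⟩ := ef_real_pos (a := a) (b := b) h.1 hw
        exact ⟨z * y, by positivity, by rw [hz']; push_cast; ring⟩
      · exact ⟨y, hy, by rw [one_mul]⟩
  unfold small
  exact key _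

theorem phi_pos (hF : IsLSeries a b F) (hnz : ∀ s : ℂ, 1 < s.re → F s ≠ 0) {w : ℝ} (hw : 0 < w) :
    0 < (PhiF a b F w).re := by
  have hne : ∀ x : ℝ, 0 < x → (PhiF a b F x).re ≠ 0 := by
    intro x hx h0
    have h1 : PhiF a b F x = 0 := Complex.ext h0 (Pool.Agent.W189.ML.PhiF_real hF x)
    unfold PhiF at h1
    rcases mul_eq_zero.1 h1 with h | h
    · exact hnz _ (by simpa using hx) h
    · exact small_ne_zero_real hx.le h
  have hcont : Continuous fun x : ℝ => (PhiF a b F x).re :=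
    Complex.continuous_re.comp ((PhiF_differentiable hF).continuous.comp Complex.continuous_ofReal)
  by_contra hcon
  push Not at hcon
  have h2 := Pool.Agent.W189.ML.PhiF_two_pos hF
  have h3 : (0 : ℝ) ∈ uIcc ((PhiF a b F (w : ℝ)).re) ((PhiF a b F ((2 : ℝ) : ℂ)).re) := by
    rw [uIcc_of_le]
    · exact ⟨hcon, by exact_mod_cast h2.le⟩
    · refine hcon.trans ?_
      exact_mod_cast h2.le
  obtain ⟨x, hx, hx0⟩ := intermediate_value_uIcc (f := fun x : ℝ => (PhiF a b F x).re)
    hcont.continuousOn h3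
  have hx' : 0 < x := by
    rw [mem_uIcc] at hx
    rcases hx with h | h <;> linarith [h.1]
  exact hne x hx' hx0

theorem lead_pos (hF : IsLSeries a b F) (hnz : ∀ s : ℂ, 1 < s.re → F s ≠ 0) {m : ℕ}
    (hm : analyticOrderAt F 1 = m) :
    ∃ A : ℝ, 0 < A ∧ iteratedDeriv m F 1 / (m.factorial : ℂ) = (A : ℂ) := by
  obtain ⟨h1, h2⟩ := Pool.Agent.TH270.MS.EQ.coeff_lim hF.1 hm
  set c : ℂ := iteratedDeriv m F 1 / (m.factorial : ℂ) with hc
  have h3 : Tendsto (fun x : ℝ => (x : ℂ)) (𝓝[>] 0) (𝓝[≠] 0) := by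
    rw [tendsto_nhdsWithin_iff]
    constructor
    · have := Complex.continuous_ofReal.tendsto 0
      rw [Complex.ofReal_zero] at this
      exact tendsto_nhdsWithin_of_tendsto_nhds this
    · filter_upwards [self_mem_nhdsWithin] with x hx
      have : (0 : ℝ) < x := hx
      show (x : ℂ) ≠ 0
      exact_mod_cast this.ne'
  have h4 := h2.comp h3
  have h5 : ∀ x : ℝ, 0 < x → ∃ y : ℝ, 0 < y ∧ F (1 + (x : ℂ)) / (x : ℂ) ^ m = (y : ℂ) := by
    intro x hx
    obtain ⟨y, hy, hy'⟩ := small_real_pos (a := a) (b := b) hx.le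
    have h6 : PhiF a b F x = (((PhiF a b F x).re : ℝ) : ℂ) := by
      apply Complex.ext
      · simp
      · rw [Pool.Agent.W189.ML.PhiF_real hF x]; simp
    have h7 := phi_pos hF hnz hx
    refine ⟨(PhiF a b F x).re / y / x ^ m, by positivity, ?_⟩
    have h8 : F (1 + (x : ℂ)) = PhiF a b F x / small a b x := by
      unfold PhiF
      have := small_ne_zero_real (a := a) (b := b) hx.le
      field_simp
    rw [h8, hy']
    push_cast
    rw [← h6]
  have h6 : Tendsto (fun x : ℝ => (F (1 + (x : ℂ)) / (x : ℂ) ^ m).re) (𝓝[>] 0) (𝓝 c.re) :=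
    (Complex.continuous_re.tendsto _).comp h4
  have h7 : Tendsto (fun x : ℝ => (F (1 + (x : ℂ)) / (x : ℂ) ^ m).im) (𝓝[>] 0) (𝓝 c.im) :=
    (Complex.continuous_im.tendsto _).comp h4
  have h8 : 0 ≤ c.re := by
    refine ge_of_tendsto h6 ?_
    filter_upwards [self_mem_nhdsWithin] with x hx
    obtain ⟨y, hy, he⟩ := h5 x hx
    rw [he, Complex.ofReal_re]
    exact hy.le
  have h9 : c.im = 0 := by
    refine tendsto_nhds_unique h7 (tendsto_const_nhds.congr' ?_)
    filter_upwards [self_mem_nhdsWithin] with x hx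
    obtain ⟨y, hy, he⟩ := h5 x hx
    rw [he, Complex.ofReal_im]
  have h10 : c = ((c.re : ℝ) : ℂ) := by
    apply Complex.ext
    · simp
    · rw [h9]; simp
  refine ⟨c.re, lt_of_le_of_ne h8 ?_, h10⟩
  intro h0
  rw [← h0] at h10
  exact h1 (by rw [h10]; simp)

end

end Pool.Agent.N739.EL
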