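import Pool.Agent.N739.EL.Win
import Pool.Agent.N739.EL.Pos
import Pool.Agent.TH270.MS.EQ2

/-!
# Dyadic means of the deviation
-/

set_option autoImplicit false

open MeasureTheory Filter Topology Set
open Pool.Agent.W263.BSD

namespace Pool.Agent.N739.EL

noncomputable section

theorem wm_zero (φ : ℝ → ℝ) (X : ℝ) : wm φ 0 X = 1 / X * ∫ x in X..(X + X), |φ x| := by
  unfold wm
  simp only [Real.rpow_zero, div_one]

/-- local integrability -/
def LInt1 (φ : ℝ → ℝ) : Prop :=
  ∀ A B : ℝ, Real.exp 1 ≤ A → Real.exp 1 ≤ B → IntervalIntegrable φ volume A B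

theorem e_pos {X : ℝ} (h : Real.exp 1 ≤ X) : 0 < X := (Real.exp_pos 1).trans_le h

theorem wm_nonneg {φ : ℝ → ℝ} {X : ℝ} (h : Real.exp 1 ≤ X) : 0 ≤ wm φ 0 X := by
  have hX := e_pos h
  rw [wm_zero]
  refine mul_nonneg (by positivity) (intervalIntegral.integral_nonneg (by linarith) fun x _ => abs_nonneg _)

theorem wm_le {φ ψ χ : ℝ → ℝ} (hφ : LInt1 φ) (hψ : LInt1 ψ) (hχ : LInt1 χ) {X : ℝ}
    (hX : Real.exp 1 ≤ X) (h : ∀ x : ℝ, X ≤ x → |φ x| ≤ |ψ x| + |χ x|) :
    wm φ 0 X ≤ wm ψ 0 X + wm χ 0 X := by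
  have hX0 := e_pos hX
  have h2 : Real.exp 1 ≤ X + X := by linarith
  rw [wm_zero, wm_zero, wm_zero, ← mul_add]
  refine mul_le_mul_of_nonneg_left ?_ (by positivity)
  rw [← intervalIntegral.integral_add (hψ _ _ hX h2).abs (hχ _ _ hX h2).abs]
  apply intervalIntegral.integral_mono_on (by linarith) (hφ _ _ hX h2).abs
    ((hψ _ _ hX h2).abs.add (hχ _ _ hX h2).abs)
  intro x hx
  exact h x hx.1

theorem wm_ge_const {φ : ℝ → ℝ} (hφ : LInt1 φ) {X M : ℝ} (hX : Real.exp 1 ≤ X)
    (h : ∀ x : ℝ, X ≤ x → M ≤ |φ x|) : M ≤ wm φ 0 X := by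
  have hX0 := e_pos hX
  have h2 : Real.exp 1 ≤ X + X := by linarith
  rw [wm_zero]
  have h3 : ∫ _x in X..(X + X), M ≤ ∫ x in X..(X + X), |φ x| := by
    apply intervalIntegral.integral_mono_on (by linarith) intervalIntegrable_const (hφ _ _ hX h2).abs
    intro x hx
    exact h x hx.1
  rw [intervalIntegral.integral_const, smul_eq_mul, add_sub_cancel_left] at h3
  calc M = 1 / X * (X * M) := by field_simp
    _ ≤ _ := mul_le_mul_of_nonneg_left h3 (by positivity)

theorem wm_le_const {φ : ℝ → ℝ} (hφ : LInt1 φ) {X M : ℝ} (hX : Real.exp 1 ≤ X)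
    (h : ∀ x : ℝ, X ≤ x → |φ x| ≤ M) : wm φ 0 X ≤ M := by
  have hX0 := e_pos hX
  have h2 : Real.exp 1 ≤ X + X := by linarith
  rw [wm_zero]
  have h3 : ∫ x in X..(X + X), |φ x| ≤ ∫ _x in X..(X + X), M := by
    apply intervalIntegral.integral_mono_on (by linarith) (hφ _ _ hX h2).abs intervalIntegrable_const
    intro x hx
    exact h x hx.1
  rw [intervalIntegral.integral_const, smul_eq_mul, add_sub_cancel_left] at h3
  calc 1 / X * ∫ x in X..(X + X), |φ x| ≤ 1 / X * (X * M) := mul_le_mul_of_nonneg_left h3 (by positivity)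
    _ = M := by field_simp

/-- a square integrable deviation has small dyadic means -/
theorem mean_tend {g : ℝ → ℝ} (hg : LInt1 g) (hg2 : LInt1 fun x => g x ^ 2 / x)
    (hI : IntegrableOn (fun x : ℝ => g x ^ 2 / x) (Ioi (Real.exp 1))) :
    Tendsto (fun X => wm g 0 X) atTop (𝓝 0) := by
  have ht : Tendsto (fun X : ℝ => X + X) atTop atTop := by
    refine tendsto_atTop_mono' atTop ?_ tendsto_id
    filter_upwards [eventually_ge_atTop (0 : ℝ)] with X hX
    simp only [id]
    linarith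
  have h1 : Tendsto (fun X : ℝ => ∫ x in (Real.exp 1)..X, g x ^ 2 / x) atTop
      (𝓝 (∫ x in Ioi (Real.exp 1), g x ^ 2 / x)) :=
    intervalIntegral_tendsto_integral_Ioi _ hI tendsto_id
  have h2 := (h1.comp ht).sub h1
  rw [sub_self] at h2
  have h3 : Tendsto (fun X : ℝ => ∫ x in X..(X + X), g x ^ 2 / x) atTop (𝓝 0) := by
    refine h2.congr' ?_
    filter_upwards [eventually_ge_atTop (Real.exp 1)] with X hX
    have hX0 := e_pos hX
    have h4 : Real.exp 1 ≤ X + X := by linarith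
    simp only [Function.comp_apply]
    rw [← intervalIntegral.integral_add_adjacent_intervals (hg2 _ _ le_rfl hX) (hg2 _ _ hX h4)]
    ring
  rw [Metric.tendsto_atTop]
  intro ε hε
  have h5 : ∀ᶠ X : ℝ in atTop, ∫ x in X..(X + X), g x ^ 2 / x < ε ^ 2 / 2 :=
    h3.eventually_lt_const (by positivity)
  obtain ⟨X₀, hX₀⟩ := (h5.and (eventually_ge_atTop (Real.exp 1))).exists_forall_of_atTop
  refine ⟨X₀, fun X hX => ?_⟩
  obtain ⟨h6, h7⟩ := hX₀ X hX
  have hX0 := e_pos h7
  have h8 : Real.exp 1 ≤ X + X := by linarith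
  rw [Real.dist_eq, sub_zero, abs_of_nonneg (wm_nonneg h7), wm_zero]
  have h9 : ∫ x in X..(X + X), |g x| ≤ ∫ x in X..(X + X), (ε / 2 + X / ε * (g x ^ 2 / x)) := by
    apply intervalIntegral.integral_mono_on (by linarith) (hg _ _ h7 h8).abs
      (intervalIntegrable_const.add ((hg2 _ _ h7 h8).const_mul _))
    intro x hx
    have hx0 : 0 < x := by linarith [hx.1]
    have h10 : |g x| ≤ ε / 2 + g x ^ 2 / (2 * ε) := by
      have h11 : 0 ≤ (ε - |g x|) ^ 2 / (2 * ε) := by positivity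
      have h12 : (ε - |g x|) ^ 2 / (2 * ε) = ε / 2 + g x ^ 2 / (2 * ε) - |g x| := by
        rw [sub_sq, sq_abs]
        field_simp
        ring
      linarith
    have h13 : g x ^ 2 / (2 * ε) ≤ X / ε * (g x ^ 2 / x) := by
      have h14 : X / ε * (g x ^ 2 / x) = g x ^ 2 / (2 * ε) * (2 * X / x) := by
        field_simp
      rw [h14]
      refine le_mul_of_one_le_right (by positivity) ?_
      rw [one_le_div hx0]
      linarith [hx.2]
    linarith
  rw [intervalIntegral.integral_add intervalIntegrable_const ((hg2 _ _ h7 h8).const_mul _),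
    intervalIntegral.integral_const, intervalIntegral.integral_const_mul, smul_eq_mul,
    add_sub_cancel_left] at h9
  calc 1 / X * ∫ x in X..(X + X), |g x|
      ≤ 1 / X * (X * (ε / 2) + X / ε * ∫ x in X..(X + X), g x ^ 2 / x) :=
        mul_le_mul_of_nonneg_left h9 (by positivity)
    _ = ε / 2 + 1 / ε * ∫ x in X..(X + X), g x ^ 2 / x := by field_simp
    _ < ε / 2 + 1 / ε * (ε ^ 2 / 2) := by
        have : 0 < 1 / ε := by positivity
        have := mul_lt_mul_of_pos_left h6 this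
        linarith
    _ = ε := by field_simp; ring

variable {a b : ℤ} {F : ℂ → ℂ}

theorem dev_LInt {C ρ : ℝ} (hC : 0 < C) : LInt1 (dev a b C ρ) := fun _ _ hA hB => dev_int hC hA hB

/-- the comparison of two deviations -/
def kk (ρ C m C₁ x : ℝ) : ℝ := (m - ρ) * Real.log (Real.log x) + (Real.log C₁ - Real.log C)

theorem kk_LInt (ρ C m C₁ : ℝ) : LInt1 (kk ρ C m C₁) := by
  intro A B hA hB
  have hle : ∀ x ∈ uIcc A B, Real.exp 1 ≤ x := fun x hx => (le_min hA hB).trans hx.1
  apply ContinuousOn.intervalIntegrable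
  intro x hx
  have hx1 := hle x hx
  have hx0 : 0 < x := e_pos hx1
  have hl : 1 ≤ Real.log x := by rwa [Real.le_log_iff_exp_le hx0]
  refine ContinuousAt.continuousWithinAt ?_
  unfold kk
  refine ContinuousAt.add (ContinuousAt.const_mul ?_ _) continuousAt_const
  exact (Real.continuousAt_log (by linarith)).comp (Real.continuousAt_log hx0.ne')

theorem dev_kk {ρ C m C₁ : ℝ} (hC : 0 < C) (hC₁ : 0 < C₁) {x : ℝ} (hx : Real.exp 1 ≤ x) :
    dev a b C ρ x = dev a b C₁ m x + kk ρ C m C₁ x := by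
  rw [dev_eq hC hx, dev_eq hC₁ hx]
  unfold kk
  ring

theorem wm_dev_le {ρ C m C₁ : ℝ} (hC : 0 < C) (hC₁ : 0 < C₁) {X : ℝ} (hX : Real.exp 1 ≤ X) :
    wm (dev a b C ρ) 0 X ≤ wm (dev a b C₁ m) 0 X + wm (kk ρ C m C₁) 0 X := by
  refine wm_le (dev_LInt hC) (dev_LInt hC₁) (kk_LInt _ _ _ _) hX fun x hx => ?_
  rw [dev_kk hC hC₁ (hX.trans hx)]
  exact abs_add_le _ _

theorem wm_kk_le {ρ C m C₁ : ℝ} (hC : 0 < C) (hC₁ : 0 < C₁) {X : ℝ} (hX : Real.exp 1 ≤ X) :
    wm (kk ρ C m C₁) 0 X ≤ wm (dev a b C ρ) 0 X + wm (dev a b C₁ m) 0 X := by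
  refine wm_le (kk_LInt _ _ _ _) (dev_LInt hC) (dev_LInt hC₁) hX fun x hx => ?_
  have h := dev_kk (a := a) (b := b) (ρ := ρ) (m := m) hC hC₁ (hX.trans hx)
  have e : kk ρ C m C₁ x = dev a b C ρ x - dev a b C₁ m x := by rw [h]; ring
  rw [e]
  exact abs_sub _ _

theorem kk_big {ρ C m C₁ : ℝ} (h : m ≠ ρ) (M : ℝ) : ∀ᶠ X : ℝ in atTop, M ≤ wm (kk ρ C m C₁) 0 X := by
  have hpos : 0 < |m - ρ| := abs_pos.2 (sub_ne_zero.2 h)
  have ht : Tendsto (fun X : ℝ => |m - ρ| * Real.log (Real.log X)) atTop atTop :=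
    (Real.tendsto_log_atTop.comp Real.tendsto_log_atTop).const_mul_atTop hpos
  filter_upwards [ht.eventually_ge_atTop (M + |Real.log C₁ - Real.log C|),
    eventually_ge_atTop (Real.exp 1)] with X h1 h2
  refine wm_ge_const (kk_LInt _ _ _ _) h2 fun x hx => ?_
  have hX0 := e_pos h2
  have hl : 1 ≤ Real.log X := by rwa [Real.le_log_iff_exp_le hX0]
  have h3 : Real.log X ≤ Real.log x := Real.log_le_log hX0 hx
  have h4 : Real.log (Real.log X) ≤ Real.log (Real.log x) := Real.log_le_log (by linarith) h3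
  have h5 : 0 ≤ Real.log (Real.log x) := Real.log_nonneg (by linarith)
  unfold kk
  have h6 : |(m - ρ) * Real.log (Real.log x)| = |m - ρ| * Real.log (Real.log x) := by
    rw [abs_mul, abs_of_nonneg h5]
  have h7 := abs_sub_abs_le_abs_sub ((m - ρ) * Real.log (Real.log x)) (-(Real.log C₁ - Real.log C))
  rw [abs_neg, sub_neg_eq_add, h6] at h7
  have h8 := mul_le_mul_of_nonneg_left h4 hpos.le
  linarith

theorem kk_eq (ρ C C₁ : ℝ) {X : ℝ} (hX : Real.exp 1 ≤ X) :
    wm (kk ρ C ρ C₁) 0 X = |Real.log C₁ - Real.log C| := by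
  have e : ∀ x : ℝ, |kk ρ C ρ C₁ x| = |Real.log C₁ - Real.log C| := by
    intro x
    unfold kk
    rw [sub_self, zero_mul, zero_add]
  exact le_antisymm (wm_le_const (kk_LInt _ _ _ _) hX fun x _ => (e x).le)
    (wm_ge_const (kk_LInt _ _ _ _) hX fun x _ => (e x).ge)

/-- the conclusions from the behaviour of one deviation and the lower bound -/
theorem one_seq {NZ : Prop} {m : ℕ} {ρ C : ℝ} (hC : 0 < C)
    (hlow : ¬ NZ → ∀ (C ρ : ℝ), 0 < C → ∀ M : ℝ, ∀ᶠ X : ℝ in atTop, M ≤ wm (dev a b C ρ) 0 X)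
    (hup : NZ → ∃ C₁ : ℝ, 0 < C₁ ∧ Tendsto (fun X => wm (dev a b C₁ m) 0 X) atTop (𝓝 0)) :
    (((NZ ∧ ρ = m) ↔ ∃ B : ℝ, ∃ᶠ X : ℝ in atTop, wm (dev a b C ρ) 0 X ≤ B)) ∧
    ((NZ ∧ ρ = m ∧ Tendsto (fun X => wm (dev a b C ρ) 0 X) atTop (𝓝 0)) ↔
      ∀ ε : ℝ, 0 < ε → ∃ᶠ X : ℝ in atTop, wm (dev a b C ρ) 0 X < ε) := by
  have hord : (∃ B : ℝ, ∃ᶠ X : ℝ in atTop, wm (dev a b C ρ) 0 X ≤ B) → NZ ∧ ρ = m := by
    rintro ⟨B, hB⟩
    have hNZ : NZ := by
      by_contra hcon
      have h1 := hlow hcon C ρ hC (B + 1)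
      obtain ⟨X, h2, h3⟩ := (hB.and_eventually h1).exists
      linarith
    refine ⟨hNZ, ?_⟩
    by_contra hne
    obtain ⟨C₁, hC₁, ht⟩ := hup hNZ
    have h1 := kk_big (ρ := ρ) (C := C) (m := m) (C₁ := C₁) (fun h => hne h.symm) (B + 2)
    have h2 := ht.eventually_lt_const one_pos
    obtain ⟨X, h3, h4, h5, h6⟩ := (hB.and_eventually (h1.and (h2.and (eventually_ge_atTop
      (Real.exp 1))))).exists
    have h7 := wm_kk_le (a := a) (b := b) (ρ := ρ) (m := m) hC hC₁ h6
    linarith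
  refine ⟨⟨?_, hord⟩, ⟨?_, ?_⟩⟩
  · rintro ⟨hNZ, hm⟩
    obtain ⟨C₁, hC₁, ht⟩ := hup hNZ
    refine ⟨1 + |Real.log C₁ - Real.log C|, Eventually.frequently ?_⟩
    filter_upwards [ht.eventually_lt_const one_pos, eventually_ge_atTop (Real.exp 1)] with X h1 h2
    have h3 := wm_dev_le (a := a) (b := b) (ρ := ρ) (m := ρ) hC hC₁ h2
    rw [kk_eq ρ C C₁ h2] at h3
    rw [← hm] at h1
    linarith
  · rintro ⟨-, -, ht⟩ ε hε
    exact (ht.eventually_lt_const hε).frequently
  · intro h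
    obtain ⟨hNZ, hm⟩ := hord ⟨1, (h 1 one_pos).mono fun X hX => hX.le⟩
    obtain ⟨C₁, hC₁, ht⟩ := hup hNZ
    rw [← hm] at ht
    have hCC : C₁ = C := by
      have h1 : |Real.log C₁ - Real.log C| ≤ 0 := by
        refine le_of_forall_pos_le_add fun ε hε => ?_
        obtain ⟨X, h2, h3, h4⟩ := ((h (ε / 2) (half_pos hε)).and_eventually
          ((ht.eventually_lt_const (half_pos hε)).and (eventually_ge_atTop (Real.exp 1)))).exists
        have h5 := wm_kk_le (a := a) (b := b) (ρ := ρ) (m := ρ) hC hC₁ h4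
        rw [kk_eq ρ C C₁ h4] at h5
        linarith
      have h2 : Real.log C₁ - Real.log C = 0 := abs_nonpos_iff.1 h1
      exact Real.log_injOn_pos (Set.mem_Ioi.2 hC₁) (Set.mem_Ioi.2 hC) (by linarith)
    rw [hCC] at ht
    exact ⟨hNZ, hm, ht⟩

/-- the oscillation is bounded by the deviation -/
theorem osc_le {C m : ℝ} (hC : 0 < C) {X : ℝ} (hX : Real.exp 1 ≤ X) :
    wm (fun x => Real.log (bsdProduct a b x) - (Real.log C + m * Real.log (Real.log X))) 0 X ≤
      wm (dev a b C m) 0 X + |m| := by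
  have hX0 := e_pos hX
  have h2 : Real.exp 1 ≤ X + X := by linarith
  have hl : 1 ≤ Real.log X := by rwa [Real.le_log_iff_exp_le hX0]
  have hφ : IntervalIntegrable (fun x => Real.log (bsdProduct a b x) -
      (Real.log C + m * Real.log (Real.log X))) volume X (X + X) :=
    (logP_int a b _ _).sub intervalIntegrable_const
  have hψ := dev_LInt (a := a) (b := b) (ρ := m) hC _ _ hX h2
  rw [wm_zero, wm_zero]
  have h3 : ∫ x in X..(X + X), |Real.log (bsdProduct a b x) - (Real.log C + m * Real.log (Real.log X))| ≤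
      ∫ x in X..(X + X), (|dev a b C m x| + |m|) := by
    apply intervalIntegral.integral_mono_on (by linarith) hφ.abs (hψ.abs.add intervalIntegrable_const)
    intro x hx
    have hx1 : Real.exp 1 ≤ x := hX.trans hx.1
    have hx0 := e_pos hx1
    have hlx : Real.log X ≤ Real.log x := Real.log_le_log hX0 hx.1
    have e : Real.log (bsdProduct a b x) - (Real.log C + m * Real.log (Real.log X)) =
        dev a b C m x + m * (Real.log (Real.log x) - Real.log (Real.log X)) := by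
      rw [dev_eq hC hx1]; ring
    rw [e]
    refine (abs_add_le _ _).trans (add_le_add le_rfl ?_)
    rw [abs_mul]
    have h4 : |Real.log (Real.log x) - Real.log (Real.log X)| ≤ 1 := by
      rw [← Real.log_div (by linarith) (by linarith), abs_of_nonneg (Real.log_nonneg (by
        rw [le_div_iff₀ (by linarith)]; linarith))]
      have h5 : Real.log x ≤ Real.log X + 1 := by
        have h6 : Real.log x ≤ Real.log (X * 2) := Real.log_le_log hx0 (by linarith [hx.2])
        rw [Real.log_mul hX0.ne' two_ne_zero] at h6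
        have := Real.log_two_lt_d9
        linarith
      have h7 : Real.log x / Real.log X ≤ 2 := by
        rw [div_le_iff₀ (by linarith)]; linarith
      have h8 := Real.log_le_sub_one_of_pos (div_pos (by linarith : 0 < Real.log x) (by linarith : 0 < Real.log X))
      linarith
    calc |m| * |Real.log (Real.log x) - Real.log (Real.log X)| ≤ |m| * 1 :=
          mul_le_mul_of_nonneg_left h4 (abs_nonneg _)
      _ = |m| := mul_one _
  rw [intervalIntegral.integral_add hψ.abs intervalIntegrable_const, intervalIntegral.integral_const,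
    smul_eq_mul, add_sub_cancel_left] at h3
  calc 1 / X * ∫ x in X..(X + X), |Real.log (bsdProduct a b x) - (Real.log C + m * Real.log (Real.log X))|
      ≤ 1 / X * ((∫ x in X..(X + X), |dev a b C m x|) + X * |m|) :=
        mul_le_mul_of_nonneg_left h3 (by positivity)
    _ = _ := by field_simp

end

end Pool.Agent.N739.EL
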