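import Pool.Agent.W169.HF.DefsNF
import Pool.Agent.N739.EL.Zeros

/-!
# The zeros of the incomplete `L`-series with `Re s > 1` are zeros of the completed function
-/

set_option autoImplicit false

open MeasureTheory Filter Topology Set
open CongruenceSubgroup Pool.Agent.TH941
open scoped MatrixGroups
open Pool.Agent.W165.RS (ac ac_zero)
open Pool.Agent.W263.BSD

namespace Pool.Agent.N739.EL

noncomputable section

variable {a b : ℤ} {F : ℂ → ℂ}

theorem lam_eq {N : ℕ} [NeZero N] {f : CuspForm (Gamma0 N : Subgroup (GL (Fin 2) ℝ)) 2}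
    {Λ G0 : ℂ → ℂ} (hΛ : Pool.Agent.W169.HF.IsCompleted f Λ) (hG : Differentiable ℂ G0)
    (hL : ∀ s : ℂ, 3 < s.re → G0 s = LSeries (ac f) s) {s : ℂ} (hs : 0 < s.re) :
    Λ s = ((Real.sqrt N / (2 * Real.pi) : ℝ) : ℂ) ^ s * Complex.Gamma s * G0 s := by
  have hN : 0 < (N : ℝ) := by exact_mod_cast Nat.pos_of_ne_zero (NeZero.ne N)
  have hc : ((Real.sqrt N / (2 * Real.pi) : ℝ) : ℂ) ≠ 0 := by
    have : 0 < Real.sqrt N / (2 * Real.pi) := by positivity
    exact_mod_cast this.ne'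
  have ho : IsOpen {z : ℂ | 0 < z.re} := isOpen_half 0
  have h1 : AnalyticOnNhd ℂ Λ {z : ℂ | 0 < z.re} := fun z _ => hΛ.1.analyticAt z
  have h2 : AnalyticOnNhd ℂ (fun s => ((Real.sqrt N / (2 * Real.pi) : ℝ) : ℂ) ^ s *
      Complex.Gamma s * G0 s) {z : ℂ | 0 < z.re} := by
    refine DifferentiableOn.analyticOnNhd (fun z hz => ?_) ho
    have hz' : 0 < z.re := hz
    refine DifferentiableAt.differentiableWithinAt ?_
    refine ((differentiableAt_id.const_cpow (Or.inl hc)).mul ?_).mul (hG z)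
    refine Complex.differentiableAt_Gamma z fun m h => ?_
    rw [h] at hz'
    simp at hz'
    have : (0 : ℝ) ≤ m := Nat.cast_nonneg m
    linarith
  have h3 : Λ =ᶠ[𝓝 (4 : ℂ)] (fun s => ((Real.sqrt N / (2 * Real.pi) : ℝ) : ℂ) ^ s *
      Complex.Gamma s * G0 s) := by
    have h4 : {z : ℂ | 3 < z.re} ∈ 𝓝 (4 : ℂ) := (isOpen_half 3).mem_nhds (by
      show (3 : ℝ) < (4 : ℂ).re
      norm_num)
    filter_upwards [h4] with z hz
    have hz' : 3 < z.re := hz
    rw [hΛ.2 z (by linarith), hL z hz']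
    congr 1
    unfold LSeries
    have hinj : Function.Injective fun n : ℕ => n + 1 := fun m n h => Nat.succ_injective h
    have hsup : Function.support (LSeries.term (ac f) z) ⊆ Set.range fun n : ℕ => n + 1 := by
      intro n hn
      rcases Nat.eq_zero_or_pos n with h | h
      · exfalso
        apply hn
        rw [h, LSeries.term_zero]
      · exact ⟨n - 1, Nat.succ_pred_eq_of_pos h⟩
    rw [← hinj.tsum_eq hsup]
    refine tsum_congr fun n => ?_
    rw [LSeries.term_of_ne_zero (Nat.succ_ne_zero n), Complex.cpow_neg, div_eq_mul_inv]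
    rfl
  exact h1.eqOn_of_preconnected_of_eventuallyEq h2 (preconn_half 0) (by
    show (0 : ℝ) < (4 : ℂ).re
    norm_num) h3 hs

theorem lam_zero (hΔ : 4 * a ^ 3 + 27 * b ^ 2 ≠ 0) (hF : IsLSeries a b F)
    {N : ℕ} [NeZero N] {f : CuspForm (Gamma0 N : Subgroup (GL (Fin 2) ℝ)) 2} (hf : Hecke f)
    (hb : Belongs a b f) {Λ : ℂ → ℂ} (hΛ : Pool.Agent.W169.HF.IsCompleted f Λ) {w : ℂ}
    (hw : 0 < w.re) (h0 : PhiF a b F w = 0) : Λ (1 + w) = 0 := by
  obtain ⟨G0, hG, hL, hz⟩ := zero_of hΔ hF hf hb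
  have h1 : 1 < (1 + w).re := by simp; linarith
  rw [lam_eq hΛ hG hL (by linarith), hz _ h1, mul_zero]
  unfold PhiF at h0
  exact (mul_eq_zero.1 h0).resolve_right (small_ne hw)

/-- the functional equation for the zeros of the incomplete `L`-series -/
theorem strip_iff (hΔ : 4 * a ^ 3 + 27 * b ^ 2 ≠ 0) (hF : IsLSeries a b F)
    {N : ℕ} [NeZero N] {f : CuspForm (Gamma0 N : Subgroup (GL (Fin 2) ℝ)) 2} (hf : Hecke f)
    (hb : Belongs a b f) {Λ : ℂ → ℂ} (hΛ : Pool.Agent.W169.HF.IsCompleted f Λ)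
    (hfe : ∀ s : ℂ, Λ s = 0 → Λ (2 - s) = 0) {θ : ℝ} (hθ : 0 ≤ θ) :
    (∀ s : ℂ, F s = 0 → 1 / 2 < s.re → |s.re - 1| ≤ θ) ↔ ∀ s : ℂ, 1 + θ < s.re → F s ≠ 0 := by
  obtain ⟨G0, hG, hL, hz⟩ := zero_iff_of hΔ hF hf hb
  have hN : 0 < (N : ℝ) := by exact_mod_cast Nat.pos_of_ne_zero (NeZero.ne N)
  have hc : ((Real.sqrt N / (2 * Real.pi) : ℝ) : ℂ) ≠ 0 := by
    have : 0 < Real.sqrt N / (2 * Real.pi) := by positivity
    exact_mod_cast this.ne'
  constructor
  · intro h s hs h0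
    have h1 := (abs_le.1 (h s h0 (by linarith))).2
    linarith
  · intro h s h0 hs
    rw [abs_le]
    have hup : s.re ≤ 1 + θ := by
      by_contra hcon
      exact h s (not_le.1 hcon) h0
    refine ⟨?_, by linarith⟩
    by_contra hcon
    push Not at hcon
    have h1 : Λ s = 0 := by
      rw [lam_eq hΛ hG hL (by linarith), (hz s hs).1 h0, mul_zero]
    have h2 := hfe s h1
    have hre : (2 - s).re = 2 - s.re := by simp
    rw [lam_eq hΛ hG hL (by rw [hre]; linarith)] at h2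
    have h3 : G0 (2 - s) = 0 := by
      refine (mul_eq_zero.1 h2).resolve_left (mul_ne_zero ?_ ?_)
      · rw [Complex.cpow_def_of_ne_zero hc]
        exact Complex.exp_ne_zero _
      · exact Complex.Gamma_ne_zero_of_re_pos (by rw [hre]; linarith)
    have h4 : F (2 - s) = 0 := (hz _ (by rw [hre]; linarith)).2 h3
    exact h _ (by rw [hre]; linarith) h4

end

end Pool.Agent.N739.EL
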