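import Pool.Agent.Results.MP_553913_nt.OffLineZeros
import Pool.Agent.N739.EL.Lam
import Pool.Agent.TH942.RZ.PSum

/-!
# The zero density hypothesis for the incomplete `L`-series of an elliptic curve
-/

set_option autoImplicit false

open MeasureTheory Filter Topology Set
open CongruenceSubgroup Pool.Agent.TH941
open scoped MatrixGroups
open Pool.Agent.W263.BSD
open Pool.Agent.N739.LW (Dens)

namespace Pool.Agent.N739.EL

noncomputable section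

variable {a b : ℤ} {F : ℂ → ℂ}

theorem growth_nf (hΔ : 4 * a ^ 3 + 27 * b ^ 2 ≠ 0) (hF : IsLSeries a b F)
    {N : ℕ} [NeZero N] {f : CuspForm (Gamma0 N : Subgroup (GL (Fin 2) ℝ)) 2}
    (hf : Hecke f) (hb : Belongs a b f) :
    ∃ C : ℝ, ∀ s : ℂ, 0 < s.re → ‖PhiF a b F s‖ ≤ C * (1 + ‖s‖) * (1 + 1 / s.re) ^ 2 :=
  Pool.Agent.TH942.RZ.growth hΔ hF hf hb (Pool.Agent.TH942.RZ.partial_sum_bound f)

theorem dens_form (hΔ : 4 * a ^ 3 + 27 * b ^ 2 ≠ 0) (hF : IsLSeries a b F)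
    {N : ℕ} [NeZero N] {f : CuspForm (Gamma0 N : Subgroup (GL (Fin 2) ℝ)) 2} {w : ℝ}
    (hf : Hecke f) (hb : Belongs a b f) (hf' : Pool.Agent.W169.HF.IsForm N f w) :
    Dens (PhiF a b F) := by
  obtain ⟨Λ, hΛ, hfe, -, -⟩ := Pool.Agent.W174.HF.nf1 N f w hf'
  obtain ⟨v, hv, hP⟩ := Pool.Agent.Results.MP_553913_nt.OffLineZeros.key hf' hΛ
  refine dens_of (inst hF (growth_nf hΔ hF hf hb)) (Λ := Λ)
    (fun w hw h0 => lam_zero hΔ hF hf hb hΛ hw h0) (fun s hs => by rw [hfe, hs, mul_zero]) ?_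
  intro c hc
  obtain ⟨C, hC, h1⟩ := Pool.Agent.R838.TW.PL.ncard_S hP hc
  refine ⟨C, hC, fun δ T hδ hT => ?_⟩
  obtain ⟨h2, h3⟩ := h1 δ T hδ hT
  have h4 := Pool.Agent.R838.TW.off_image (Λ := Λ) (a := 1) hv δ T
  have h5 : {s : ℂ | Λ s = 0 ∧ δ ≤ |s.re - 1| ∧ 0 < s.im ∧ s.im ≤ T} =
      Pool.Agent.R838.TW.OffL Λ 1 δ T := rfl
  rw [h5, ← h4]
  refine ⟨h2.image _, le_trans ?_ h3⟩
  exact_mod_cast Set.ncard_image_le h2

end

end Pool.Agent.N739.EL
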