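import Pool.Agent.N739.EL.Crit
import Pool.Agent.Results.MP_3283e1_nt.MeanSquareLaw

/-!
# The product of Birch and Swinnerton-Dyer on dyadic intervals
-/

set_option autoImplicit false

open MeasureTheory Filter Topology Set
open Pool.Agent.W263.BSD
open CongruenceSubgroup
open scoped MatrixGroups

namespace Pool.Agent.N739.EL

open Pool.Agent.N739.LW (Dens)

noncomputable section

variable {a b : ℤ} {F : ℂ → ℂ}

/-- no zeros to the right of the centre -/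
def NoZ (F : ℂ → ℂ) : Prop := ∀ s : ℂ, 1 < s.re → F s ≠ 0

theorem star_tend (hΔ : 4 * a ^ 3 + 27 * b ^ 2 ≠ 0) (hrs : Tendsto (rsSum a b) atTop (𝓝 0))
    {ρ C : ℝ} (hC : 0 < C) :
    Tendsto (fun x => dev a b C ρ x - Pool.Agent.TH270.MS.EQ.devStar a b ρ C x) atTop (𝓝 0) := by
  have h1 := (Pool.Agent.TH270.MS.EQ.corr_lim hΔ hrs).const_sub (-(Real.log 2 / 2))
  rw [sub_self] at h1
  refine h1.congr' ?_
  filter_upwards [eventually_ge_atTop (Real.exp 1)] with x hx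
  rw [dev_eq hC hx, Pool.Agent.TH270.MS.EQ.devStar_eq hC hx]
  ring

theorem bm_LInt {φ : ℝ → ℝ} (h : Pool.Agent.TH270.MS.BM φ) : LInt1 φ := by
  intro A B hA hB
  obtain ⟨M, hM⟩ := h.2 (max A B)
  have h1 : AEStronglyMeasurable φ (volume.restrict (uIoc A B)) := by
    refine h.1.mono_set ?_
    intro x hx
    exact lt_of_le_of_lt (le_min hA hB) hx.1
  rw [intervalIntegrable_iff]
  refine Integrable.mono' (g := fun _ => M) ?_ h1 ?_
  · exact integrableOn_const (by simp)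
  · refine (ae_restrict_iff' measurableSet_uIoc).2 (Eventually.of_forall fun x hx => ?_)
    rw [Real.norm_eq_abs]
    exact hM x ((le_min hA hB).trans hx.1.le) hx.2

theorem dev_star_mean (hΔ : 4 * a ^ 3 + 27 * b ^ 2 ≠ 0) (hrs : Tendsto (rsSum a b) atTop (𝓝 0))
    {ρ C : ℝ} (hC : 0 < C)
    (hI : IntegrableOn (fun x : ℝ => Pool.Agent.TH270.MS.EQ.devStar a b ρ C x ^ 2 / x)
      (Ioi (Real.exp 1))) :
    Tendsto (fun X => wm (dev a b C ρ) 0 X) atTop (𝓝 0) := by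
  have bm := Pool.Agent.TH270.MS.EQ.bm_devStar a b (ρ := ρ) hC
  have h1 : LInt1 (Pool.Agent.TH270.MS.EQ.devStar a b ρ C) := bm_LInt bm
  have h2 : LInt1 (fun x => Pool.Agent.TH270.MS.EQ.devStar a b ρ C x ^ 2 / x) := by
    intro A B hA hB
    have h3 := bm_LInt bm.sq A B hA hB
    have h4 : ContinuousOn (fun x : ℝ => x⁻¹) (uIcc A B) := by
      refine ContinuousOn.inv₀ continuousOn_id fun x hx => ?_
      have : Real.exp 1 ≤ x := (le_min hA hB).trans hx.1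
      exact (e_pos this).ne'
    have h5 := h3.mul_continuousOn h4
    simpa only [div_eq_mul_inv] using h5
  have ht := mean_tend h1 h2 hI
  have hd := star_tend hΔ hrs (ρ := ρ) hC
  have h0 : ∀ᶠ X : ℝ in atTop, 0 ≤ wm (dev a b C ρ) 0 X := by
    filter_upwards [eventually_ge_atTop (Real.exp 1)] with X hX
    exact wm_nonneg hX
  rw [Metric.tendsto_atTop]
  intro ε hε
  have h6 := ht.eventually_lt_const (half_pos hε)
  have h7 : ∃ X₀ : ℝ, ∀ x ≥ X₀,
      |dev a b C ρ x - Pool.Agent.TH270.MS.EQ.devStar a b ρ C x| < ε / 2 := by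
    obtain ⟨X₀, hX₀⟩ := (Metric.tendsto_atTop.1 hd) (ε / 2) (half_pos hε)
    refine ⟨X₀, fun x hx => ?_⟩
    have := hX₀ x hx
    rwa [Real.dist_eq, sub_zero] at this
  obtain ⟨X₁, hX₁⟩ := h7
  have h8 : ∀ᶠ X : ℝ in atTop, wm (dev a b C ρ) 0 X < ε := by
    filter_upwards [h6, eventually_ge_atTop (Real.exp 1), eventually_ge_atTop X₁] with X h9 h10 h11
    have hcst : LInt1 (fun _ : ℝ => ε / 2) := fun _ _ _ _ => intervalIntegrable_const
    have h12 := wm_le (dev_LInt (a := a) (b := b) (ρ := ρ) hC) h1 hcst h10 fun x hx => by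
      have h13 := (hX₁ x (h11.trans hx)).le
      have h14 : dev a b C ρ x = Pool.Agent.TH270.MS.EQ.devStar a b ρ C x +
          (dev a b C ρ x - Pool.Agent.TH270.MS.EQ.devStar a b ρ C x) := by ring
      calc |dev a b C ρ x| = |Pool.Agent.TH270.MS.EQ.devStar a b ρ C x +
          (dev a b C ρ x - Pool.Agent.TH270.MS.EQ.devStar a b ρ C x)| := by rw [← h14]
        _ ≤ |Pool.Agent.TH270.MS.EQ.devStar a b ρ C x| +
          |dev a b C ρ x - Pool.Agent.TH270.MS.EQ.devStar a b ρ C x| := abs_add_le _ _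
        _ ≤ |Pool.Agent.TH270.MS.EQ.devStar a b ρ C x| + |ε / 2| := by
          rw [abs_of_pos (half_pos hε)]
          linarith
    have h15 : wm (fun _ : ℝ => ε / 2) 0 X ≤ ε / 2 :=
      wm_le_const hcst h10 fun x _ => by rw [abs_of_pos (half_pos hε)]
    linarith
  obtain ⟨X₂, hX₂⟩ := (h8.and h0).exists_forall_of_atTop
  refine ⟨X₂, fun X hX => ?_⟩
  obtain ⟨h9, h10⟩ := hX₂ X hX
  rw [Real.dist_eq, sub_zero, abs_of_nonneg h10]
  exact h9

/-- the law under the absence of zeros -/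
theorem law (hΔ : 4 * a ^ 3 + 27 * b ^ 2 ≠ 0) (hF : IsLSeries a b F)
    (hrs : Tendsto (rsSum a b) atTop (𝓝 0)) {η C₀ : ℝ} {κ : ℕ} (hη : 0 < η)
    (hg : ∀ s : ℂ, 1 - η < s.re → ‖F s‖ ≤ C₀ * (1 + ‖s‖) ^ κ) {m : ℕ} (hm : analyticOrderAt F 1 = m)
    (hnz : NoZ F) :
    ∃ C₁ : ℝ, 0 < C₁ ∧ iteratedDeriv m F 1 / (m.factorial : ℂ) =
        ((√2 * Real.exp (m * Real.eulerMascheroniConstant) / C₁ : ℝ) : ℂ) ∧
      Tendsto (fun X => wm (dev a b C₁ m) 0 X) atTop (𝓝 0) := by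
  obtain ⟨A, hA, hAe⟩ := lead_pos hF hnz hm
  set E : ℝ := √2 * Real.exp (m * Real.eulerMascheroniConstant) with hE
  have hE0 : 0 < E := by positivity
  have hC₁ : 0 < E / A := by positivity
  have hlead : iteratedDeriv m F 1 / (m.factorial : ℂ) = ((E / (E / A) : ℝ) : ℂ) := by
    rw [hAe]
    congr 1
    field_simp
  refine ⟨E / A, hC₁, hlead, ?_⟩
  have t := Pool.Agent.TH270.MS.EQ.curve_law hΔ hF hrs hη hg (m : ℝ) hC₁
  have h3 := t.out 0 3
  have h4 := h3.1 ⟨hnz, m, rfl, hm, hlead⟩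
  exact dev_star_mean hΔ hrs hC₁ h4

/-- everything but the zero density theorem -/
theorem core (hΔ : 4 * a ^ 3 + 27 * b ^ 2 ≠ 0) (hF : IsLSeries a b F)
    (hgr : ∃ C : ℝ, ∀ s : ℂ, 0 < s.re → ‖PhiF a b F s‖ ≤ C * (1 + ‖s‖) * (1 + 1 / s.re) ^ 2)
    (hdens : Dens (PhiF a b F))
    (hrs : Tendsto (rsSum a b) atTop (𝓝 0)) {η C₀ : ℝ} {κ₀ : ℕ} (hη : 0 < η)
    (hg : ∀ s : ℂ, 1 - η < s.re → ‖F s‖ ≤ C₀ * (1 + ‖s‖) ^ κ₀) :
    (NoZ F ↔ ∃ B : ℝ, ∃ᶠ X : ℝ in atTop, ∃ c : ℝ,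
      wm (fun x => Real.log (bsdProduct a b x) - c) 0 X ≤ B) ∧
    (∀ ρ : ℝ, (NoZ F ∧ ∃ m : ℕ, ρ = m ∧ analyticOrderAt F 1 = m) ↔
      ∃ B : ℝ, ∃ᶠ X : ℝ in atTop, wm (dev a b 1 ρ) 0 X ≤ B) ∧
    ∀ ρ C : ℝ, 0 < C → List.TFAE [
      NoZ F ∧ ∃ m : ℕ, ρ = m ∧ analyticOrderAt F 1 = m ∧
        iteratedDeriv m F 1 / (m.factorial : ℂ) =
          ((√2 * Real.exp (m * Real.eulerMascheroniConstant) / C : ℝ) : ℂ),
      Tendsto (fun X : ℝ => wm (dev a b C ρ) 0 X) atTop (𝓝 0),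
      ∀ ε : ℝ, 0 < ε → ∃ᶠ X : ℝ in atTop, wm (dev a b C ρ) 0 X < ε] := by
  obtain ⟨m, hm⟩ := order_finite hF
  have hmm : ∀ {n : ℕ}, analyticOrderAt F 1 = n → n = m := by
    intro n hn
    rw [hm] at hn
    exact_mod_cast hn.symm
  have hlow : ¬ NoZ F → ∀ (C ρ : ℝ), 0 < C → ∀ M : ℝ, ∀ᶠ X : ℝ in atTop, M ≤ wm (dev a b C ρ) 0 X := by
    intro hcon C ρ hC M
    unfold NoZ at hcon
    push Not at hcon
    obtain ⟨s, hs, hz⟩ := hcon
    have h1 := win_lower hF hgr hdens hz hs le_rfl (by rw [zero_mul]; linarith) hC ρ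
      (ε := (s.re - 1) / 2) (by linarith)
    have h2 : ∀ᶠ X : ℝ in atTop, M ≤ X ^ (s.re - 1 - (s.re - 1) / 2) :=
      (tendsto_rpow_atTop (by linarith)).eventually_ge_atTop _
    filter_upwards [h1, h2] with X h3 h4
    exact h4.trans h3
  have hup : NoZ F → ∃ C₁ : ℝ, 0 < C₁ ∧ Tendsto (fun X => wm (dev a b C₁ m) 0 X) atTop (𝓝 0) := by
    intro h
    obtain ⟨C₁, h1, -, h2⟩ := law hΔ hF hrs hη hg hm h
    exact ⟨C₁, h1, h2⟩
  refine ⟨⟨?_, ?_⟩, fun ρ => ⟨?_, ?_⟩, fun ρ C hC => ?_⟩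
  · intro h
    obtain ⟨C₁, hC₁, ht⟩ := hup h
    refine ⟨1 + |(m : ℝ)|, Eventually.frequently ?_⟩
    filter_upwards [ht.eventually_lt_const one_pos, eventually_ge_atTop (Real.exp 1)] with X h1 h2
    have h3 := osc_le (a := a) (b := b) (m := m) hC₁ h2
    exact ⟨_, h3.trans (by linarith)⟩
  · rintro ⟨B, hB⟩
    by_contra hcon
    unfold NoZ at hcon
    push Not at hcon
    obtain ⟨s, hs, hz⟩ := hcon
    have h1 := osc_lower hF hgr hdens hz hs le_rfl (by rw [zero_mul]; linarith)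
      (ε := (s.re - 1) / 2) (by linarith)
    have h2 : ∀ᶠ X : ℝ in atTop, B + 1 ≤ X ^ (s.re - 1 - (s.re - 1) / 2) :=
      (tendsto_rpow_atTop (by linarith)).eventually_ge_atTop _
    obtain ⟨X, ⟨c, h3⟩, h4, h5⟩ := (hB.and_eventually (h1.and h2)).exists
    have h6 := h4 c
    linarith
  · rintro ⟨h1, n, h2, h3⟩
    have h4 := hmm h3
    subst h4
    exact ((one_seq (C := 1) one_pos hlow hup).1).1 ⟨h1, h2⟩
  · intro h
    obtain ⟨h1, h2⟩ := ((one_seq (C := 1) one_pos hlow hup).1).2 h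
    exact ⟨h1, m, h2, hm⟩
  · have hseq := (one_seq (ρ := ρ) hC hlow hup).2
    tfae_have 1 → 2 := by
      rintro ⟨h1, n, h2, h3, h4⟩
      have h5 := hmm h3
      subst h5
      have t := Pool.Agent.TH270.MS.EQ.curve_law hΔ hF hrs hη hg ρ hC
      have h5 := t.out 0 3
      have h6 := h5.1 ⟨h1, n, h2, h3, h4⟩
      exact dev_star_mean hΔ hrs hC h6
    tfae_have 2 → 3 := fun h ε hε => (h.eventually_lt_const hε).frequently
    tfae_have 3 → 1 := by
      intro h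
      obtain ⟨h1, h2, h3⟩ := hseq.2 h
      obtain ⟨C₁, hC₁, h4, h5⟩ := law hΔ hF hrs hη hg hm h1
      have hCC : C₁ = C := by
        rw [← h2] at h5
        have h6 : |Real.log C₁ - Real.log C| ≤ 0 := by
          refine le_of_forall_pos_le_add fun ε hε => ?_
          obtain ⟨X, h7, h8, h9⟩ := ((h3.eventually_lt_const (half_pos hε)).and
            ((h5.eventually_lt_const (half_pos hε)).and (eventually_ge_atTop (Real.exp 1)))).exists
          have h10 := wm_kk_le (a := a) (b := b) (ρ := ρ) (m := ρ) hC hC₁ h9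
          rw [kk_eq ρ C C₁ h9] at h10
          linarith
        have h7 : Real.log C₁ - Real.log C = 0 := abs_nonpos_iff.1 h6
        exact Real.log_injOn_pos (Set.mem_Ioi.2 hC₁) (Set.mem_Ioi.2 hC) (by linarith)
      rw [hCC] at h4
      exact ⟨h1, m, h2, hm, h4⟩
    tfae_finish

end

end Pool.Agent.N739.EL
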