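import Pool.Agent.N739.EL.Inst

/-!
# The Mestre-Nagao sums as summatory functions of an instance of `LG`
-/

set_option autoImplicit false

open MeasureTheory Filter Topology Set
open Pool.Agent.W263.BSD

namespace Pool.Agent.N739.EL

noncomputable section

open Classical

variable {S : Set ℕ} {A : ℕ → ℝ}

/-- the numbers `- a_p / p` -/
def tc (S : Set ℕ) (A : ℕ → ℝ) (n : ℕ) : ℂ := if n ∈ S then ((-(tt A n) : ℝ) : ℂ) else 0

/-- the difference -/
def dc (S : Set ℕ) (A : ℕ → ℝ) (n : ℕ) : ℂ := fc S A n - tc S A n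

theorem tc_norm (E : EData S A) {n : ℕ} (hn : n ≠ 0) : ‖tc S A n‖ ≤ 4 * (n : ℝ) ^ (-(1 / 2) : ℝ) := by
  unfold tc
  split_ifs with h
  · rw [Complex.norm_real, Real.norm_eq_abs, ← dl_rpow n hn, abs_neg]
    have h1 := E.tt_le h
    have h2 := dl_nonneg n
    linarith
  · rw [norm_zero]; positivity

theorem dc_norm (E : EData S A) {n : ℕ} (hn : n ≠ 0) : ‖dc S A n‖ ≤ 7 * (n : ℝ) ^ (-1 : ℝ) := by
  unfold dc fc tc
  split_ifs with h
  · have h25 := E.big n h
    have h2 := E.log_fac h (X := 1) (by simp)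
    rw [← E.cc_eq h] at h2
    have h3 : ((cc A n : ℂ) - (-(tt A n) * 1 + mm A n * 1 ^ 2)) =
        ((cc A n - (-(tt A n) + mm A n) : ℝ) : ℂ) := by push_cast; ring
    rw [h3, Complex.norm_real, Real.norm_eq_abs] at h2
    have h6 := E.mm_le h
    rw [← dl_sq (by omega)] at h6
    have h7 := dl_nonneg n
    have h8 := dl_le h25
    have h9 : dl n ^ 3 ≤ (1 / 5) * dl n ^ 2 := by
      have : dl n ^ 3 = dl n * dl n ^ 2 := by ring
      rw [this]
      exact mul_le_mul_of_nonneg_right h8 (by positivity)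
    rw [← Complex.ofReal_sub, Complex.norm_real, Real.norm_eq_abs, Real.rpow_neg_one, ← one_div,
      ← dl_sq (by omega)]
    have h10 : cc A n - -(tt A n) = (cc A n - (-(tt A n) + mm A n)) + mm A n := by ring
    rw [h10]
    refine (abs_add_le _ _).trans ?_
    linarith
  · rw [sub_zero, norm_zero]; positivity

theorem tc_abs (E : EData S A) : LSeries.abscissaOfAbsConv (tc S A) ≤ ((1 / 2 : ℝ) : EReal) := by
  have h := LSeries.abscissaOfAbsConv_le_of_le_const_mul_rpow (f := tc S A) (x := -(1 / 2))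
    ⟨4, fun n hn => tc_norm E hn⟩
  refine h.trans (le_of_eq ?_)
  have : ((1 / 2 : ℝ) : EReal) = ((-(1 / 2) + 1 : ℝ) : EReal) := by norm_num
  rw [this, EReal.coe_add, EReal.coe_one]

theorem dc_abs (E : EData S A) : LSeries.abscissaOfAbsConv (dc S A) ≤ ((0 : ℝ) : EReal) := by
  have h := LSeries.abscissaOfAbsConv_le_of_le_const_mul_rpow (f := dc S A) (x := -1)
    ⟨7, fun n hn => dc_norm E hn⟩
  refine h.trans (le_of_eq ?_)
  have : ((0 : ℝ) : EReal) = ((-1 + 1 : ℝ) : EReal) := by norm_num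
  rw [this, EReal.coe_add, EReal.coe_one]

theorem dc_abs_lt (E : EData S A) {w : ℂ} (hw : 0 < w.re) :
    LSeries.abscissaOfAbsConv (dc S A) < w.re :=
  (dc_abs E).trans_lt (by exact_mod_cast hw)

theorem tc_abs_lt (E : EData S A) {w : ℂ} (hw : 1 / 2 < w.re) :
    LSeries.abscissaOfAbsConv (tc S A) < w.re :=
  (tc_abs E).trans_lt (by exact_mod_cast hw)

theorem logMul_norm {f : ℕ → ℂ} {n : ℕ} (hn : n ≠ 0) :
    ‖LSeries.logMul f n‖ = Real.log n * ‖f n‖ := by
  have hn1 : (1 : ℝ) ≤ n := by exact_mod_cast Nat.one_le_iff_ne_zero.2 hn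
  rw [LSeries.logMul, norm_mul, ← Complex.natCast_log, Complex.norm_real,
    Real.norm_of_nonneg (Real.log_nonneg hn1)]

theorem tc_sum (E : EData S A) :
    Summable fun n : ℕ => ‖LSeries.logMul (tc S A) n‖ * (n : ℝ) ^ (-(3 / 2) : ℝ) := by
  refine Summable.of_nonneg_of_le (fun n => by positivity) (fun n => ?_)
    ((Real.summable_nat_rpow.mpr (by norm_num : (-(3 / 2) : ℝ) < -1)).mul_left 8)
  by_cases hn : n = 0
  · subst hn
    rw [LSeries.logMul, Nat.cast_zero, Complex.log_zero, zero_mul, norm_zero, zero_mul]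
    positivity
  · have hn1 : (1 : ℝ) ≤ n := by exact_mod_cast Nat.one_le_iff_ne_zero.2 hn
    have hn0 : (0 : ℝ) < n := by linarith
    have h1 := tc_norm E hn
    have h2 : Real.log n ≤ 2 * (n : ℝ) ^ (1 / 2 : ℝ) := by
      have := Real.log_le_rpow_div hn0.le (by norm_num : (0 : ℝ) < 1 / 2)
      linarith
    rw [logMul_norm hn]
    have h4 : Real.log n * ‖tc S A n‖ ≤ (2 * (n : ℝ) ^ (1 / 2 : ℝ)) * (4 * (n : ℝ) ^ (-(1 / 2) : ℝ)) :=
      mul_le_mul h2 h1 (norm_nonneg _) (by positivity)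
    have h5 : (2 * (n : ℝ) ^ (1 / 2 : ℝ)) * (4 * (n : ℝ) ^ (-(1 / 2) : ℝ)) = 8 := by
      rw [Real.rpow_neg hn0.le]
      have : (n : ℝ) ^ (1 / 2 : ℝ) ≠ 0 := (Real.rpow_pos_of_pos hn0 _).ne'
      field_simp
      norm_num
    rw [h5] at h4
    exact mul_le_mul_of_nonneg_right h4 (by positivity)

theorem dc_bd (E : EData S A) {η : ℝ} (hη : 0 < η) :
    ∃ B : ℝ, ∀ z : ℂ, η ≤ z.re → ‖LSeries (LSeries.logMul (dc S A)) z‖ ≤ B := by
  have hs : Summable fun n : ℕ => 14 / η * (n : ℝ) ^ (-1 - η / 2 : ℝ) :=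
    (Real.summable_nat_rpow.mpr (by linarith)).mul_left _
  refine ⟨∑' n : ℕ, 14 / η * (n : ℝ) ^ (-1 - η / 2 : ℝ), fun z hz => ?_⟩
  unfold LSeries
  refine tsum_of_norm_bounded hs.hasSum fun n => ?_
  by_cases hn : n = 0
  · subst hn
    rw [LSeries.term_zero, norm_zero]; positivity
  · have hn1 : (1 : ℝ) ≤ n := by exact_mod_cast Nat.one_le_iff_ne_zero.2 hn
    have hn0 : (0 : ℝ) < n := by linarith
    rw [LSeries.term_of_ne_zero hn, norm_div,
      Complex.norm_natCast_cpow_of_pos (Nat.pos_of_ne_zero hn), logMul_norm hn]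
    have h1 := dc_norm E hn
    have h2 := Real.log_le_rpow_div hn0.le (half_pos hη)
    rw [div_le_iff₀ (Real.rpow_pos_of_pos hn0 _)]
    calc Real.log n * ‖dc S A n‖ ≤ ((n : ℝ) ^ (η / 2) / (η / 2)) * (7 * (n : ℝ) ^ (-1 : ℝ)) :=
          mul_le_mul h2 h1 (norm_nonneg _) (by positivity)
      _ = 14 / η * ((n : ℝ) ^ (η / 2) * (n : ℝ) ^ (-1 : ℝ)) := by field_simp; norm_num
      _ = 14 / η * (n : ℝ) ^ (η / 2 + -1) := by rw [Real.rpow_add hn0]
      _ ≤ 14 / η * (n : ℝ) ^ (-1 - η / 2 + z.re) := by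
          refine mul_le_mul_of_nonneg_left ?_ (by positivity)
          exact Real.rpow_le_rpow_of_exponent_le hn1 (by linarith)
      _ = 14 / η * (n : ℝ) ^ (-1 - η / 2) * (n : ℝ) ^ z.re := by
          rw [mul_assoc, ← Real.rpow_add hn0]

variable {a b : ℤ} {F : ℂ → ℂ}

/-- The instance for the Mestre-Nagao sums. -/
theorem inst2 (hF : IsLSeries a b F)
    (hgr : ∃ C : ℝ, ∀ s : ℂ, 0 < s.re → ‖PhiF a b F s‖ ≤ C * (1 + ‖s‖) * (1 + 1 / s.re) ^ 2) :
    LW.LG (PhiF a b F) (fun w => -deriv (GG (SS a b) (Ap a b)) w -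
      LSeries (LSeries.logMul (dc (SS a b) (Ap a b))) w)
      (LSeries.logMul (tc (SS a b) (Ap a b))) where
  diff := (inst hF hgr).diff
  gro := (inst hF hgr).gro
  low := (inst hF hgr).low
  ne := (inst hF hgr).ne
  gd := by
    intro z hz
    refine ((inst hF hgr).gd z hz).sub ?_
    have h1 : LSeries.abscissaOfAbsConv (LSeries.logMul (dc (SS a b) (Ap a b))) < z.re := by
      rw [LSeries.abscissaOfAbsConv_logMul]
      exact dc_abs_lt (eData a b) hz
    exact (LSeries_hasDerivAt h1).differentiableAt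
  gb := by
    intro η hη
    obtain ⟨B1, h1⟩ := (inst hF hgr).gb η hη
    obtain ⟨B2, h2⟩ := dc_bd (eData a b) hη
    exact ⟨B1 + B2, fun z hz => (norm_sub_le _ _).trans (add_le_add (h1 z hz) (h2 z hz))⟩
  sum := tc_sum (eData a b)
  a0 := by rw [LSeries.logMul, Nat.cast_zero, Complex.log_zero, zero_mul]
  ser := by
    intro s hs
    have E := eData a b
    have h1 := (inst hF hgr).ser s hs
    have h2 : LSeries (LSeries.logMul (fc (SS a b) (Ap a b))) s =
        LSeries (LSeries.logMul (tc (SS a b) (Ap a b))) s +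
          LSeries (LSeries.logMul (dc (SS a b) (Ap a b))) s := by
      rw [← LSeries_add (LSeriesSummable_logMul_of_lt_re (tc_abs_lt E (by linarith)))
        (LSeriesSummable_logMul_of_lt_re (dc_abs_lt E (by linarith)))]
      congr 1
      funext n
      simp only [LSeries.logMul, Pi.add_apply]
      unfold dc
      ring
    rw [h2] at h1
    linear_combination h1

end

end Pool.Agent.N739.EL
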