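import Pool.Agent.N739.EL.Nagao
import Pool.Agent.N739.EL.Crit
import Pool.Agent.N739.LW.Upper

/-!
# Mestre-Nagao sums in short windows
-/

set_option autoImplicit false

open MeasureTheory Filter Topology Set
open Pool.Agent.W263.BSD

namespace Pool.Agent.N739.LW

noncomputable section

variable {G g : ℂ → ℂ} {a : ℕ → ℂ}

/-- the mean over an interval of length one -/
theorem LG.mean_upper (h : LG G g a) {θ σ : ℝ} (hθ : 0 ≤ θ) (hσ : θ < σ) (hσ2 : σ ≤ 2)
    (hfree : ∀ z : ℂ, θ < z.re → G z ≠ 0) :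
    ∃ K : ℝ, 0 < K ∧ ∀ U : ℝ, 0 ≤ U → ∫ u in U..(U + 1), ‖DD a u‖ ≤ K * Real.exp (σ * U) := by
  obtain ⟨K, hK, h1⟩ := h.sq_int hθ hσ hσ2 hfree
  have hσ0 : 0 < σ := by linarith
  set k : ℝ → ℂ := fun u => DD a u * Complex.exp (-(σ * u)) with hk
  have hkm : Measurable k := by
    rw [hk]
    exact (DD_meas a).mul (by fun_prop)
  have hki : Integrable fun u => ‖k u‖ ^ 2 := by
    refine ⟨(hkm.norm.pow_const 2).aestronglyMeasurable, ?_⟩
    have h2 : ∫⁻ u : ℝ, ‖‖k u‖ ^ 2‖ₑ = ∫⁻ u : ℝ, ‖k u‖ₑ ^ 2 := by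
      refine lintegral_congr fun u => ?_
      rw [enorm_pow, enorm_norm]
    unfold HasFiniteIntegral
    rw [h2]
    exact h1.trans_lt (lt_top_iff_ne_top.2 hK)
  set J : ℝ := ∫ u, ‖k u‖ ^ 2 with hJ
  have hJ0 : 0 ≤ J := integral_nonneg fun u => by positivity
  refine ⟨Real.exp σ * (1 + J), by positivity, fun U hU => ?_⟩
  have h3 : ∀ u ∈ Icc U (U + 1), ‖DD a u‖ ≤ Real.exp (σ * (U + 1)) * (1 + ‖k u‖ ^ 2) := by
    intro u hu
    have e1 : ‖k u‖ = ‖DD a u‖ * Real.exp (-(σ * u)) := by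
      rw [hk]
      simp only
      rw [norm_mul, Complex.norm_exp]
      congr 2
      simp
    have e2 : ‖DD a u‖ = Real.exp (σ * u) * ‖k u‖ := by
      rw [e1, mul_left_comm, ← Real.exp_add, add_neg_cancel, Real.exp_zero, mul_one]
    rw [e2]
    have h4 : Real.exp (σ * u) ≤ Real.exp (σ * (U + 1)) :=
      Real.exp_le_exp.2 (mul_le_mul_of_nonneg_left hu.2 hσ0.le)
    have h5 : ‖k u‖ ≤ 1 + ‖k u‖ ^ 2 := by nlinarith [sq_nonneg (‖k u‖ - 1), norm_nonneg (k u)]
    exact mul_le_mul h4 h5 (norm_nonneg _) (Real.exp_pos _).le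
  have hki' : IntervalIntegrable (fun u => ‖k u‖ ^ 2) volume U (U + 1) := hki.intervalIntegrable
  have h6 : ∫ u in U..(U + 1), ‖DD a u‖ ≤
      ∫ u in U..(U + 1), Real.exp (σ * (U + 1)) * (1 + ‖k u‖ ^ 2) :=
    intervalIntegral.integral_mono_on (by linarith) (DD_int a _ _).norm
      ((intervalIntegrable_const.add hki').const_mul _) h3
  rw [intervalIntegral.integral_const_mul, intervalIntegral.integral_add intervalIntegrable_const hki',
    intervalIntegral.integral_const, smul_eq_mul, mul_one, add_sub_cancel_left] at h6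
  have h7 : ∫ u in U..(U + 1), ‖k u‖ ^ 2 ≤ J := by
    rw [intervalIntegral.integral_of_le (by linarith), hJ]
    exact setIntegral_le_integral hki (Eventually.of_forall fun u => by positivity)
  refine h6.trans ?_
  have e : Real.exp (σ * (U + 1)) = Real.exp σ * Real.exp (σ * U) := by
    rw [← Real.exp_add]; congr 1; ring
  rw [e]
  calc Real.exp σ * Real.exp (σ * U) * (1 + ∫ u in U..(U + 1), ‖k u‖ ^ 2)
      ≤ Real.exp σ * Real.exp (σ * U) * (1 + J) := by gcongr
    _ = _ := by ring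

end

end Pool.Agent.N739.LW

namespace Pool.Agent.N739.EL

open Pool.Agent.N739.LW (LG NZ Dens DD DD_int DD_meas)

noncomputable section

open Classical

theorem wm_upper {φ : ℝ → ℝ} {κ U : ℝ} (hκ : 0 ≤ κ) (hU : 1 ≤ U) (hφ : LInt1 φ)
    (hψ : IntervalIntegrable (fun u => φ (Real.exp u)) volume U (U + 1)) :
    wm φ κ (Real.exp U) ≤ U ^ κ * (Real.exp 1 * ∫ u in U..(U + 1), |φ (Real.exp u)|) := by
  have hU0 : 0 < U := by linarith
  have hUk : 1 ≤ U ^ κ := Real.one_le_rpow hU hκ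
  have hEU := Real.exp_pos U
  have he1 : Real.exp 1 ≤ Real.exp U := Real.exp_le_exp.2 hU
  have he2 : Real.exp U ≤ Real.exp (U + 1) := Real.exp_le_exp.2 (by linarith)
  have hend : Real.exp U + Real.exp U / U ^ κ ≤ Real.exp (U + 1) := by
    have h1 : Real.exp U / U ^ κ ≤ Real.exp U := div_le_self hEU.le hUk
    have h2 : Real.exp (U + 1) = Real.exp U * Real.exp 1 := Real.exp_add _ _
    have h3 : (2 : ℝ) ≤ Real.exp 1 := by
      have := Real.add_one_le_exp (1 : ℝ); linarith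
    rw [h2]
    nlinarith
  have hmid : Real.exp U ≤ Real.exp U + Real.exp U / U ^ κ := by
    have : 0 ≤ Real.exp U / U ^ κ := by positivity
    linarith
  unfold wm
  rw [Real.log_exp]
  have h1 : ∫ x in (Real.exp U)..(Real.exp U + Real.exp U / U ^ κ), |φ x| ≤
      ∫ x in (Real.exp U)..(Real.exp (U + 1)), |φ x| := by
    apply intervalIntegral.integral_mono_interval le_rfl hmid hend _ (hφ _ _ he1 (by linarith)).abs
    exact Eventually.of_forall fun u => abs_nonneg _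
  have h2 : ∫ x in (Real.exp U)..(Real.exp (U + 1)), |φ x| ≤
      Real.exp (U + 1) * ∫ u in U..(U + 1), |φ (Real.exp u)| := by
    rw [intervalIntegral.integral_of_le he2, ← exp_image,
      integral_image_eq_integral_abs_deriv_smul measurableSet_Ioc
        (fun x _ => (Real.hasDerivAt_exp x).hasDerivWithinAt) (Real.exp_injective.injOn),
      ← intervalIntegral.integral_of_le (by linarith), ← intervalIntegral.integral_const_mul]
    apply intervalIntegral.integral_mono_on (by linarith)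
    · have hc : IntervalIntegrable (fun u => Real.exp u * |φ (Real.exp u)|) volume U (U + 1) :=
        hψ.abs.continuousOn_mul Real.continuous_exp.continuousOn
      refine hc.congr ?_
      intro u _
      simp only [smul_eq_mul, abs_of_pos (Real.exp_pos u)]
    · exact hψ.abs.const_mul _
    · intro u hu
      rw [smul_eq_mul, abs_of_pos (Real.exp_pos u)]
      exact mul_le_mul_of_nonneg_right (Real.exp_le_exp.2 hu.2) (abs_nonneg _)
  calc U ^ κ / Real.exp U * ∫ x in (Real.exp U)..(Real.exp U + Real.exp U / U ^ κ), |φ x|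
      ≤ U ^ κ / Real.exp U * (Real.exp (U + 1) * ∫ u in U..(U + 1), |φ (Real.exp u)|) :=
        mul_le_mul_of_nonneg_left (h1.trans h2) (by positivity)
    _ = _ := by
        rw [Real.exp_add]
        field_simp

variable {f : ℕ → ℂ} {φ : ℝ → ℝ} {c₀ : ℝ}

theorem phi_int (hφ : ∀ u : ℝ, 4 ≤ u → ((φ (Real.exp u) : ℝ) : ℂ) = (c₀ : ℂ) - DD f u) {A B : ℝ}
    (hA : 4 ≤ A) (hAB : A ≤ B) : IntervalIntegrable (fun u => φ (Real.exp u)) volume A B := by
  have e : ∀ u ∈ uIoc A B, c₀ - (DD f u).re = φ (Real.exp u) := by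
    intro u hu
    rw [uIoc_of_le hAB] at hu
    have := congrArg Complex.re (hφ u (by linarith [hu.1]))
    rw [Complex.ofReal_re, Complex.sub_re, Complex.ofReal_re] at this
    exact this.symm
  refine IntervalIntegrable.congr e ?_
  have hD := DD_int f A B
  have hD' : IntervalIntegrable (fun u => (DD f u).re) volume A B := ⟨hD.1.re, hD.2.re⟩
  exact intervalIntegrable_const.sub hD'

theorem gen_lower {G g : ℂ → ℂ} (h : LG G g f) (hdens : Dens G) (hφi : LInt1 φ)
    (hφ : ∀ u : ℝ, 4 ≤ u → ((φ (Real.exp u) : ℝ) : ℂ) = (c₀ : ℂ) - DD f u)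
    {ρ₀ : ℂ} (hz : G ρ₀ = 0) (hβ : 0 < ρ₀.re) (hβ2 : ρ₀.re ≤ 1 / 2) {κ : ℝ} (hκ : 0 ≤ κ)
    (hκβ : κ * (1 - ρ₀.re) < ρ₀.re) {ε : ℝ} (hε : 0 < ε) :
    ∀ᶠ X : ℝ in atTop, ∀ c : ℝ, X ^ (ρ₀.re - ε) ≤ wm (fun x => φ x - c) κ X := by
  have h1 := h.asym hdens hz hβ hβ2 hκ hκβ hε
  have h2 := (Real.tendsto_log_atTop).eventually (h1.and (eventually_ge_atTop (4 : ℝ)))
  filter_upwards [h2, eventually_gt_atTop (0 : ℝ)] with X h3 hX c
  obtain ⟨h4, h5⟩ := h3
  set U := Real.log X with hU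
  have hU0 : 0 < U := by linarith
  have hU1 : 1 ≤ U := by linarith
  have hXU : Real.exp U = X := Real.exp_log hX
  have hk0 : 0 < U ^ (-κ) := Real.rpow_pos_of_pos hU0 _
  have hdev : ∀ u : ℝ, 4 ≤ u → |φ (Real.exp u) - c| = ‖DD f u - ((c₀ - c : ℝ) : ℂ)‖ := by
    intro u hu
    rw [← Real.norm_eq_abs, ← Complex.norm_real, Complex.ofReal_sub, hφ u hu, ← norm_neg]
    congr 1
    push_cast
    ring
  have hψ : IntervalIntegrable (fun u => φ (Real.exp u) - c) volume U (U + U ^ (-κ) / 2) :=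
    (phi_int hφ h5 (by linarith)).sub intervalIntegrable_const
  have h6 := wm_lower hκ hU1 (φ := fun x => φ x - c)
    (fun A B hA hB => (hφi A B hA hB).sub intervalIntegrable_const) hψ
  rw [hXU] at h6
  refine le_trans ?_ h6
  have e : X ^ (ρ₀.re - ε) = Real.exp ((ρ₀.re - ε) * U) := by
    rw [Real.rpow_def_of_pos hX, mul_comm (Real.log X)]
  rw [e]
  refine (h4 (((c₀ - c : ℝ)) : ℂ)).trans (le_of_eq ?_)
  apply intervalIntegral.integral_congr
  intro u hu
  rw [uIcc_of_le (by linarith)] at hu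
  exact (hdev u (by linarith [hu.1])).symm

theorem gen_upper {G g : ℂ → ℂ} (h : LG G g f) (hφi : LInt1 φ)
    (hφ : ∀ u : ℝ, 4 ≤ u → ((φ (Real.exp u) : ℝ) : ℂ) = (c₀ : ℂ) - DD f u)
    {θ : ℝ} (hθ : 0 ≤ θ) (hθ1 : θ < 1) (hfree : ∀ z : ℂ, θ < z.re → G z ≠ 0) {κ : ℝ} (hκ : 0 ≤ κ)
    {ε : ℝ} (hε : 0 < ε) :
    ∀ᶠ X : ℝ in atTop, wm φ κ X ≤ X ^ (θ + ε) := by
  set σ : ℝ := θ + min (ε / 2) 1 with hσ
  have hm : 0 < min (ε / 2) 1 := lt_min (half_pos hε) one_pos
  have hm2 : min (ε / 2) 1 ≤ ε / 2 := min_le_left _ _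
  have hm3 : min (ε / 2) 1 ≤ 1 := min_le_right _ _
  have hσ0 : 0 < σ := by linarith
  obtain ⟨K, hK, h1⟩ := h.mean_upper hθ (σ := σ) (by linarith) (by linarith) hfree
  have h2 : ∀ᶠ U : ℝ in atTop, U ^ κ * (Real.exp 1 * (|c₀| + K)) ≤ Real.exp (ε / 2 * U) := by
    have h3 : Tendsto (fun U : ℝ => Real.exp (ε / 2 * U) / U ^ κ) atTop atTop :=
      tendsto_exp_mul_div_rpow_atTop κ (ε / 2) (half_pos hε)
    filter_upwards [h3.eventually_ge_atTop (Real.exp 1 * (|c₀| + K)), eventually_ge_atTop (1 : ℝ)]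
      with U h4 h5
    have : 0 < U ^ κ := Real.rpow_pos_of_pos (by linarith) _
    rw [le_div_iff₀ this] at h4
    linarith
  have h3 := (Real.tendsto_log_atTop).eventually (h2.and (eventually_ge_atTop (4 : ℝ)))
  filter_upwards [h3, eventually_gt_atTop (0 : ℝ)] with X h3 hX
  obtain ⟨h4, h5⟩ := h3
  set U := Real.log X with hU
  have hU0 : 0 < U := by linarith
  have hXU : Real.exp U = X := Real.exp_log hX
  have hUk : 0 < U ^ κ := Real.rpow_pos_of_pos hU0 _
  have hψ := phi_int hφ h5 (by linarith : U ≤ U + 1)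
  have h6 := wm_upper hκ (by linarith) hφi hψ
  rw [hXU] at h6
  have h7 : ∫ u in U..(U + 1), |φ (Real.exp u)| ≤ |c₀| + K * Real.exp (σ * U) := by
    have h8 : ∫ u in U..(U + 1), |φ (Real.exp u)| ≤ ∫ u in U..(U + 1), (|c₀| + ‖DD f u‖) := by
      apply intervalIntegral.integral_mono_on (by linarith) hψ.abs
        (intervalIntegrable_const.add (DD_int f _ _).norm)
      intro u hu
      have h9 := hφ u (by linarith [hu.1])
      rw [← Real.norm_eq_abs, ← Complex.norm_real, h9]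
      refine (norm_sub_le _ _).trans ?_
      rw [Complex.norm_real, Real.norm_eq_abs]
    rw [intervalIntegral.integral_add intervalIntegrable_const (DD_int f _ _).norm,
      intervalIntegral.integral_const, smul_eq_mul, add_sub_cancel_left, one_mul] at h8
    have h9 := h1 U hU0.le
    linarith
  have h8 : 1 ≤ Real.exp (σ * U) := Real.one_le_exp (by positivity)
  have h9 : |c₀| + K * Real.exp (σ * U) ≤ (|c₀| + K) * Real.exp (σ * U) := by
    have : |c₀| ≤ |c₀| * Real.exp (σ * U) := le_mul_of_one_le_right (abs_nonneg _) h8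
    linarith
  have h10 : wm φ κ X ≤ U ^ κ * (Real.exp 1 * (|c₀| + K)) * Real.exp (σ * U) := by
    refine h6.trans ?_
    calc U ^ κ * (Real.exp 1 * ∫ u in U..(U + 1), |φ (Real.exp u)|)
        ≤ U ^ κ * (Real.exp 1 * ((|c₀| + K) * Real.exp (σ * U))) := by
          have := h7.trans h9
          gcongr
      _ = _ := by ring
  have e : X ^ (θ + ε) = Real.exp ((θ + ε) * U) := by
    rw [Real.rpow_def_of_pos hX, mul_comm (Real.log X)]
  rw [e]
  calc wm φ κ X ≤ U ^ κ * (Real.exp 1 * (|c₀| + K)) * Real.exp (σ * U) := h10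
    _ ≤ Real.exp (ε / 2 * U) * Real.exp (σ * U) := by gcongr
    _ ≤ Real.exp ((θ + ε) * U) := by
        rw [← Real.exp_add]
        apply Real.exp_le_exp.2
        rw [← add_mul]
        exact mul_le_mul_of_nonneg_right (by linarith) hU0.le

variable {a b : ℤ} {F : ℂ → ℂ}

/-- the Mestre-Nagao sum `∑_{p ≤ x} a_p log p / p` -/
def mns (a b : ℤ) (x : ℝ) : ℝ :=
  ∑ p ∈ (Finset.range (⌊x⌋₊ + 1)).filter (GoodPrime a b),
    ((p : ℝ) - pointCount a b p) * Real.log p / p

theorem mns_eq (a b : ℤ) : ∃ c₀ : ℝ, ∀ u : ℝ, 4 ≤ u →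
    ((mns a b (Real.exp u) : ℝ) : ℂ) = (c₀ : ℂ) - DD (LSeries.logMul (tc (SS a b) (Ap a b))) u := by
  refine ⟨∑ p ∈ Finset.range 25, if GoodPrime a b p then
    ((p : ℝ) - pointCount a b p) * Real.log p / p else 0, fun u hu => ?_⟩
  have E := eData a b
  set M : ℕ := ⌊Real.exp u⌋₊ with hM
  have hM25 : 25 ≤ M := by
    rw [hM, Nat.le_floor_iff (Real.exp_pos u).le]
    have h1 : Real.exp 4 ≤ Real.exp u := Real.exp_le_exp.2 hu
    have h2 : Real.exp 4 = Real.exp 1 ^ 4 := by rw [← Real.exp_nat_mul]; norm_num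
    have h3 : (2.7 : ℝ) ≤ Real.exp 1 := by
      have := Real.exp_one_gt_d9
      linarith
    have h4 : (2.7 : ℝ) ^ 4 ≤ Real.exp 1 ^ 4 := pow_le_pow_left₀ (by norm_num) h3 4
    have h5 : (25 : ℝ) ≤ (2.7 : ℝ) ^ 4 := by norm_num
    rw [h2] at h1
    push_cast
    linarith
  have h1 : mns a b (Real.exp u) = ∑ p ∈ Finset.range (M + 1),
      if GoodPrime a b p then ((p : ℝ) - pointCount a b p) * Real.log p / p else 0 := by
    unfold mns
    rw [Finset.sum_filter]
  have h2 : DD (LSeries.logMul (tc (SS a b) (Ap a b))) u = ((∑ p ∈ Finset.range (M + 1),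
      if p ∈ SS a b then -(((p : ℝ) - pointCount a b p) * Real.log p / p) else 0 : ℝ) : ℂ) := by
    unfold DD
    have e : Finset.range (M + 1) = insert 0 (Finset.Icc 1 M) := by
      ext x
      simp only [Finset.mem_range, Finset.mem_insert, Finset.mem_Icc]
      omega
    rw [e, Finset.sum_insert (by simp), if_neg, zero_add]
    · push_cast
      refine Finset.sum_congr rfl fun p _ => ?_
      unfold LSeries.logMul tc tt Ap
      split_ifs
      · rw [← Complex.natCast_log]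
        push_cast
        ring
      · simp
    · intro h
      have := E.big 0 h
      omega
  have h3 : (∑ p ∈ Finset.range 25, if GoodPrime a b p then
      ((p : ℝ) - pointCount a b p) * Real.log p / p else 0) =
      ∑ p ∈ Finset.range (M + 1), if p ∈ Finset.range 25 then (if GoodPrime a b p then
        ((p : ℝ) - pointCount a b p) * Real.log p / p else 0) else 0 := by
    symm
    rw [← Finset.sum_filter]
    refine Finset.sum_congr ?_ fun _ _ => rfl
    ext x
    simp only [Finset.mem_range, Finset.mem_filter]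
    omega
  rw [h1, h2, h3, ← Complex.ofReal_sub, ← Finset.sum_sub_distrib]
  congr 1
  refine Finset.sum_congr rfl fun p _ => ?_
  by_cases hg : GoodPrime a b p
  · by_cases h25 : 25 ≤ p
    · have hm : p ∉ Finset.range 25 := by rw [Finset.mem_range]; omega
      have hS : p ∈ SS a b := ⟨hg, h25⟩
      rw [if_pos hg, if_pos hS, if_neg hm]
      ring
    · have hm : p ∈ Finset.range 25 := by rw [Finset.mem_range]; omega
      have hS : p ∉ SS a b := fun h => h25 h.2
      rw [if_pos hg, if_neg hS, if_pos hm, sub_zero]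
  · have hS : p ∉ SS a b := fun h => hg h.1
    rw [if_neg hg, if_neg hS, sub_zero]
    split_ifs <;> rfl

theorem mns_int (a b : ℤ) : LInt1 (mns a b) := by
  intro A B _ _
  set Lp : ℕ → ℝ := fun n => ∑ p ∈ (Finset.range (n + 1)).filter (GoodPrime a b),
    ((p : ℝ) - pointCount a b p) * Real.log p / p with hLp
  have e : mns a b = fun x : ℝ => Lp ⌊x⌋₊ := by
    funext x; rfl
  rw [e]
  have hm : Measurable fun x : ℝ => Lp ⌊x⌋₊ := (measurable_from_nat (f := Lp)).comp Nat.measurable_floor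
  have hb : ∀ x : ℝ, x ≤ max A B → ‖Lp ⌊x⌋₊‖ ≤ ∑ k ∈ Finset.range (⌊max A B⌋₊ + 1), ‖Lp k‖ := by
    intro x hx
    refine Finset.single_le_sum (f := fun k => ‖Lp k‖) (fun k _ => norm_nonneg _) ?_
    rw [Finset.mem_range]
    exact Nat.lt_succ_of_le (Nat.floor_le_floor hx)
  have hg : IntervalIntegrable (fun _ : ℝ => ∑ k ∈ Finset.range (⌊max A B⌋₊ + 1), ‖Lp k‖) volume A B :=
    intervalIntegrable_const
  refine hg.mono_fun hm.aestronglyMeasurable ?_
  refine (ae_restrict_iff' measurableSet_uIoc).2 (Eventually.of_forall fun x hx => ?_)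
  rw [Set.mem_uIoc] at hx
  have h1 := hb x (by
    rcases hx with h | h
    · exact h.2.trans (le_max_right _ _)
    · exact h.2.trans (le_max_left _ _))
  exact h1.trans (le_abs_self _)

/-- every window sees every zero -/
theorem mns_lower (hF : IsLSeries a b F)
    (hgr : ∃ C : ℝ, ∀ s : ℂ, 0 < s.re → ‖PhiF a b F s‖ ≤ C * (1 + ‖s‖) * (1 + 1 / s.re) ^ 2)
    (hdens : Dens (PhiF a b F)) {s₀ : ℂ} (hz : F s₀ = 0) (hs : 1 < s₀.re) {κ : ℝ} (hκ : 0 ≤ κ)
    (hκs : κ * (2 - s₀.re) < s₀.re - 1) {ε : ℝ} (hε : 0 < ε) :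
    ∀ᶠ X : ℝ in atTop, ∀ c : ℝ, X ^ (s₀.re - 1 - ε) ≤ wm (fun x => mns a b x - c) κ X := by
  set ρ₀ : ℂ := s₀ - 1 with hρ₀
  have hre : ρ₀.re = s₀.re - 1 := by rw [hρ₀]; simp
  have hG0 : PhiF a b F ρ₀ = 0 := by
    unfold PhiF
    rw [hρ₀, add_sub_cancel, hz, zero_mul]
  have hβ : 0 < ρ₀.re := by rw [hre]; linarith
  have hβ2 : ρ₀.re ≤ 1 / 2 := by
    by_contra hcon
    push Not at hcon
    rw [phi_exp hF hcon] at hG0
    exact Complex.exp_ne_zero _ hG0
  obtain ⟨c₀, hc₀⟩ := mns_eq a b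
  have := gen_lower (inst2 hF hgr) hdens (mns_int a b) hc₀ hG0 hβ hβ2 hκ (by rw [hre]; linarith) hε
  rwa [hre] at this

/-- the upper bound in a zero free half plane -/
theorem mns_upper (hF : IsLSeries a b F)
    (hgr : ∃ C : ℝ, ∀ s : ℂ, 0 < s.re → ‖PhiF a b F s‖ ≤ C * (1 + ‖s‖) * (1 + 1 / s.re) ^ 2)
    {θ : ℝ} (hθ : 0 ≤ θ) (hθ1 : θ < 1) (hfree : ∀ s : ℂ, 1 + θ < s.re → F s ≠ 0) {κ : ℝ} (hκ : 0 ≤ κ)
    {ε : ℝ} (hε : 0 < ε) :
    ∀ᶠ X : ℝ in atTop, wm (mns a b) κ X ≤ X ^ (θ + ε) := by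
  obtain ⟨c₀, hc₀⟩ := mns_eq a b
  refine gen_upper (inst2 hF hgr) (mns_int a b) hc₀ hθ hθ1 (fun z hz => ?_) hκ hε
  unfold PhiF
  refine mul_ne_zero (hfree _ ?_) (small_ne (by linarith))
  simp only [Complex.add_re, Complex.one_re]
  linarith

end

end Pool.Agent.N739.EL
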