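import Pool.Agent.N739.EL.Nagao2
import Pool.Agent.N739.EL.Lam

/-!
# Exact exponents of the Mestre-Nagao sums in short windows
-/

set_option autoImplicit false

open MeasureTheory Filter Topology Set
open Pool.Agent.W263.BSD
open CongruenceSubgroup
open scoped MatrixGroups

namespace Pool.Agent.N739.EL

open Pool.Agent.N739.LW (Dens)

noncomputable section

variable {a b : ℤ} {F : ℂ → ℂ}

theorem mns_upper' (hF : IsLSeries a b F)
    (hgr : ∃ C : ℝ, ∀ s : ℂ, 0 < s.re → ‖PhiF a b F s‖ ≤ C * (1 + ‖s‖) * (1 + 1 / s.re) ^ 2)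
    {θ : ℝ} (hθ : 0 ≤ θ) (hθ1 : θ < 1) (hfree : ∀ s : ℂ, 1 + θ < s.re → F s ≠ 0) {κ : ℝ} (hκ : 0 ≤ κ)
    {ε : ℝ} (hε : 0 < ε) (c : ℝ) :
    ∀ᶠ X : ℝ in atTop, wm (fun x => mns a b x - c) κ X ≤ X ^ (θ + ε) := by
  obtain ⟨c₀, hc₀⟩ := mns_eq a b
  refine gen_upper (c₀ := c₀ - c) (inst2 hF hgr)
    (fun A B hA hB => (mns_int a b A B hA hB).sub intervalIntegrable_const) (fun u hu => ?_) hθ hθ1
    (fun z hz => ?_) hκ hε
  · rw [Complex.ofReal_sub, hc₀ u hu]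
    push_cast
    ring
  · unfold PhiF
    refine mul_ne_zero (hfree _ ?_) (small_ne (by linarith))
    simp only [Complex.add_re, Complex.one_re]
    linarith

theorem wm_sub_zero (κ X : ℝ) : wm (fun x => mns a b x - 0) κ X = wm (mns a b) κ X := by
  simp only [sub_zero]

/-- the criterion -/
theorem crit (hF : IsLSeries a b F)
    (hgr : ∃ C : ℝ, ∀ s : ℂ, 0 < s.re → ‖PhiF a b F s‖ ≤ C * (1 + ‖s‖) * (1 + 1 / s.re) ^ 2)
    (hdens : Dens (PhiF a b F)) {θ κ : ℝ} (hθ : 0 ≤ θ) (hθ1 : θ < 1 / 2) (hκ : 0 ≤ κ)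
    (hκθ : κ * (1 - θ) ≤ θ) :
    List.TFAE [
      ∀ s : ℂ, 1 + θ < s.re → F s ≠ 0,
      ∀ ε : ℝ, 0 < ε → ∀ᶠ X : ℝ in atTop, wm (fun x => mns a b x - 0) κ X ≤ X ^ (θ + ε),
      ∀ ε : ℝ, 0 < ε → ∃ᶠ X : ℝ in atTop, ∃ c : ℝ, wm (fun x => mns a b x - c) κ X ≤ X ^ (θ + ε)] := by
  tfae_have 1 → 2 := fun h ε hε => mns_upper' hF hgr hθ (by linarith) h hκ hε 0
  tfae_have 2 → 3 := fun h ε hε => ((h ε hε).mono fun X hX => ⟨0, hX⟩).frequently
  tfae_have 3 → 1 := by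
    intro h s hs h0
    set ε : ℝ := (s.re - 1 - θ) / 3 with hεd
    have hε : 0 < ε := by rw [hεd]; linarith
    have hκs : κ * (2 - s.re) < s.re - 1 := by
      have h1 : κ * (2 - s.re) ≤ κ * (1 - θ) := mul_le_mul_of_nonneg_left (by linarith) hκ
      linarith
    have h1 := mns_lower hF hgr hdens h0 (by linarith) hκ hκs hε
    obtain ⟨X, ⟨c, h2⟩, h3, h4⟩ := ((h ε hε).and_eventually (h1.and (eventually_gt_atTop (1 : ℝ)))).exists
    have h5 := (h3 c).trans h2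
    have h6 : X ^ (θ + ε) < X ^ (s.re - 1 - ε) := by
      apply Real.rpow_lt_rpow_of_exponent_lt h4
      rw [hεd]; linarith
    linarith
  tfae_finish

/-- the exact exponent -/
theorem exponent (hF : IsLSeries a b F)
    (hgr : ∃ C : ℝ, ∀ s : ℂ, 0 < s.re → ‖PhiF a b F s‖ ≤ C * (1 + ‖s‖) * (1 + 1 / s.re) ^ 2)
    (hdens : Dens (PhiF a b F)) {Θ : ℝ}
    (hΘ : IsLUB {x : ℝ | ∃ s : ℂ, F s = 0 ∧ 1 < s.re ∧ x = s.re - 1} Θ) {κ : ℝ} (hκ : 0 ≤ κ)
    (hκΘ : κ * (1 - Θ) < Θ) (c : ℝ) :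
    Tendsto (fun X : ℝ => Real.log (wm (fun x => mns a b x - c) κ X) / Real.log X) atTop (𝓝 Θ) := by
  have hne : ({x : ℝ | ∃ s : ℂ, F s = 0 ∧ 1 < s.re ∧ x = s.re - 1}).Nonempty := by
    by_contra hcon
    rw [Set.not_nonempty_iff_eq_empty] at hcon
    rw [hcon] at hΘ
    have h1 := hΘ.2 (show Θ - 1 ∈ upperBounds ∅ by simp)
    linarith
  have hΘ0 : 0 < Θ := by
    obtain ⟨x, s, h0, h1, h2⟩ := hne
    have := hΘ.1 ⟨s, h0, h1, h2⟩
    linarith
  have hΘ1 : Θ ≤ 1 / 2 := by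
    refine hΘ.2 ?_
    rintro x ⟨s, h0, h1, rfl⟩
    by_contra hcon
    push Not at hcon
    have h3 : PhiF a b F (s - 1) = 0 := by
      unfold PhiF
      rw [add_sub_cancel, h0, zero_mul]
    rw [phi_exp hF (by simpa using hcon)] at h3
    exact Complex.exp_ne_zero _ h3
  have hfree : ∀ s : ℂ, 1 + Θ < s.re → F s ≠ 0 := by
    intro s hs h0
    have := hΘ.1 ⟨s, h0, by linarith, rfl⟩
    linarith
  rw [Metric.tendsto_atTop]
  intro δ hδ
  -- a zero near the supremum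
  have hgap : 0 < Θ - κ * (1 - Θ) := by linarith
  set η : ℝ := min (δ / 4) ((Θ - κ * (1 - Θ)) / (1 + κ) / 2) with hη
  have hη0 : 0 < η := lt_min (by linarith) (by positivity)
  obtain ⟨x, ⟨s, h0, h1, h2⟩, h3⟩ := (lt_isLUB_iff hΘ).1 (show Θ - η < Θ by linarith)
  have hη1 : η ≤ (Θ - κ * (1 - Θ)) / (1 + κ) / 2 := min_le_right _ _
  have hη2 : η ≤ δ / 4 := min_le_left _ _
  have hκs : κ * (2 - s.re) < s.re - 1 := by
    have e1 : s.re - 1 = x := h2.symm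
    have e2 : 2 - s.re = 1 - x := by linarith
    rw [e1, e2]
    have h4 : (1 + κ) * η < Θ - κ * (1 - Θ) := by
      have h5 : (1 + κ) * η ≤ (1 + κ) * ((Θ - κ * (1 - Θ)) / (1 + κ) / 2) :=
        mul_le_mul_of_nonneg_left hη1 (by linarith)
      have h6 : (1 + κ) * ((Θ - κ * (1 - Θ)) / (1 + κ) / 2) = (Θ - κ * (1 - Θ)) / 2 := by
        have : (1 + κ) ≠ 0 := by positivity
        field_simp
      linarith
    have h5 : κ * (1 - x) ≤ κ * (1 - Θ + η) := mul_le_mul_of_nonneg_left (by linarith) hκ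
    nlinarith
  have hlow := mns_lower hF hgr hdens h0 h1 hκ hκs (ε := δ / 4) (by linarith)
  have hupp := mns_upper' hF hgr hΘ0.le (by linarith) hfree hκ (ε := δ / 4) (by linarith) c
  have hev : ∀ᶠ X : ℝ in atTop,
      dist (Real.log (wm (fun x => mns a b x - c) κ X) / Real.log X) Θ < δ := by
    filter_upwards [hlow, hupp, eventually_gt_atTop (1 : ℝ)] with X h4 h5 hX
    have h6 := h4 c
    have hX0 : 0 < X := by linarith
    have hl : 0 < Real.log X := Real.log_pos hX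
    have hw : 0 < wm (fun x => mns a b x - c) κ X := lt_of_lt_of_le (Real.rpow_pos_of_pos hX0 _) h6
    have h7 := Real.log_le_log (Real.rpow_pos_of_pos hX0 _) h6
    have h8 := Real.log_le_log hw h5
    rw [Real.log_rpow hX0] at h7 h8
    rw [Real.dist_eq, abs_lt]
    constructor
    · have h9 : s.re - 1 - δ / 4 ≤ Real.log (wm (fun x => mns a b x - c) κ X) / Real.log X := by
        rwa [le_div_iff₀ hl]
      linarith
    · have h9 : Real.log (wm (fun x => mns a b x - c) κ X) / Real.log X ≤ Θ + δ / 4 := by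
        rwa [div_le_iff₀ hl]
      linarith
  obtain ⟨X₀, hX₀⟩ := hev.exists_forall_of_atTop
  exact ⟨X₀, fun X hX => hX₀ X hX⟩

end

end Pool.Agent.N739.EL
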