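import Pool.Agent.N739.EL.Main
import Pool.Agent.N739.LL.Main

/-!
# The product of Birch and Swinnerton-Dyer with the weights `log p / log x`: one-sided criteria
-/

set_option autoImplicit false

open MeasureTheory Filter Topology Set Classical
open Pool.Agent.W263.BSD

namespace Pool.Agent.N739.EL

open Pool.Agent.N739.LW (Dens DD DD_int DD_log)
open Pool.Agent.N739.LL (Dr LI Dr_LI)

noncomputable section

variable {a b : ℤ} {F : ℂ → ℂ}

/-- the logarithm of the product with the weights `log p / log x` -/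
def TT (a b : ℤ) (x : ℝ) : ℝ :=
  (∑ p ∈ (Finset.range (⌊x⌋₊ + 1)).filter (GoodPrime a b),
    Real.log p * Real.log (((pointCount a b p : ℝ) + 1) / p)) / Real.log x

/-- the coefficients -/
def AA (a b : ℤ) : ℕ → ℂ := LSeries.logMul (fc (SS a b) (Ap a b))

theorem AA_eq (n : ℕ) : AA a b n =
    ((if n ∈ SS a b then Real.log n * cc (Ap a b) n else 0 : ℝ) : ℂ) := by
  unfold AA LSeries.logMul fc
  rw [← Complex.natCast_log]
  split_ifs <;> simp

theorem AA_real (n : ℕ) : (AA a b n).im = 0 := by rw [AA_eq, Complex.ofReal_im]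

theorem exp4_25 {u : ℝ} (hu : 4 ≤ u) : 25 ≤ ⌊Real.exp u⌋₊ := by
  rw [Nat.le_floor_iff (Real.exp_pos u).le]
  have h1 : Real.exp 4 ≤ Real.exp u := Real.exp_le_exp.2 hu
  have h2 : Real.exp 4 = Real.exp 1 ^ 4 := by rw [← Real.exp_nat_mul]; norm_num
  have h3 : (2.7 : ℝ) ≤ Real.exp 1 := by
    have := Real.exp_one_gt_d9
    linarith
  have h4 : (2.7 : ℝ) ^ 4 ≤ Real.exp 1 ^ 4 := pow_le_pow_left₀ (by norm_num) h3 4
  have h5 : (25 : ℝ) ≤ (2.7 : ℝ) ^ 4 := by norm_num
  rw [h2] at h1
  push_cast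
  linarith

theorem log_prodW (a b : ℤ) : ∃ c₁ : ℝ, ∀ u : ℝ, 4 ≤ u →
    ∑ p ∈ (Finset.range (⌊Real.exp u⌋₊ + 1)).filter (GoodPrime a b),
      Real.log p * Real.log (((pointCount a b p : ℝ) + 1) / p) = Dr (AA a b) u + c₁ := by
  refine ⟨∑ p ∈ Finset.range 25, if GoodPrime a b p then
    Real.log p * Real.log (((pointCount a b p : ℝ) + 1) / p) else 0, fun u hu => ?_⟩
  have E := eData a b
  set M : ℕ := ⌊Real.exp u⌋₊ with hM
  have hM25 : 25 ≤ M := exp4_25 hu
  have h2 : Dr (AA a b) u = ∑ p ∈ Finset.range (M + 1),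
      if p ∈ SS a b then Real.log p * cc (Ap a b) p else 0 := by
    unfold Dr DD
    have e : Finset.range (M + 1) = insert 0 (Finset.Icc 1 M) := by
      ext x
      simp only [Finset.mem_range, Finset.mem_insert, Finset.mem_Icc]
      omega
    rw [e, Finset.sum_insert (by simp), if_neg, zero_add, Complex.re_sum]
    · refine Finset.sum_congr rfl fun p _ => ?_
      rw [AA_eq, Complex.ofReal_re]
    · intro h
      have := E.big 0 h
      omega
  have h3 : (∑ p ∈ Finset.range 25, if GoodPrime a b p then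
      Real.log p * Real.log (((pointCount a b p : ℝ) + 1) / p) else 0) =
      ∑ p ∈ Finset.range (M + 1), if p ∈ Finset.range 25 then (if GoodPrime a b p then
        Real.log p * Real.log (((pointCount a b p : ℝ) + 1) / p) else 0) else 0 := by
    symm
    rw [← Finset.sum_filter]
    refine Finset.sum_congr ?_ fun _ _ => rfl
    ext x
    simp only [Finset.mem_range, Finset.mem_filter]
    omega
  rw [Finset.sum_filter, h2, h3, ← Finset.sum_add_distrib]
  refine Finset.sum_congr rfl fun p _ => ?_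
  by_cases hg : GoodPrime a b p
  · by_cases h25 : 25 ≤ p
    · have hm : p ∉ Finset.range 25 := by rw [Finset.mem_range]; omega
      have hS : p ∈ SS a b := ⟨hg, h25⟩
      rw [if_pos hg, if_pos hS, if_neg hm, add_zero, cc_ap hg.1]
    · have hm : p ∈ Finset.range 25 := by rw [Finset.mem_range]; omega
      have hS : p ∉ SS a b := fun h => h25 h.2
      rw [if_pos hg, if_neg hS, if_pos hm, zero_add]
  · have hS : p ∉ SS a b := fun h => hg h.1
    rw [if_neg hg, if_neg hS, zero_add]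
    split_ifs <;> rfl

theorem TT_exp (a b : ℤ) : ∃ c₁ : ℝ, ∀ u : ℝ, 4 ≤ u → TT a b (Real.exp u) = (Dr (AA a b) u + c₁) / u := by
  obtain ⟨c₁, h⟩ := log_prodW a b
  refine ⟨c₁, fun u hu => ?_⟩
  unfold TT
  rw [h u hu, Real.log_exp]

theorem TT_int {A B : ℝ} (hA : 4 ≤ A) (hB : 4 ≤ B) :
    IntervalIntegrable (fun u => TT a b (Real.exp u)) volume A B := by
  obtain ⟨c₁, h⟩ := TT_exp a b
  have h1 : IntervalIntegrable (fun u => (Dr (AA a b) u + c₁) * u⁻¹) volume A B := by
    refine ((Dr_LI (AA a b) A B).add intervalIntegrable_const).mul_continuousOn ?_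
    refine ContinuousOn.inv₀ continuousOn_id fun x hx => ?_
    have : 4 ≤ x := (le_min hA hB).trans hx.1
    have h0 : x ≠ 0 := by linarith
    exact h0
  refine h1.congr ?_
  intro u hu
  have hu4 : 4 ≤ u := by
    rw [Set.mem_uIoc] at hu
    rcases hu with h | h <;> linarith [h.1]
  simp only
  rw [h u hu4, div_eq_mul_inv]

theorem TTc_int (ρ : ℝ) {A B : ℝ} (hA : 4 ≤ A) (hB : 4 ≤ B) :
    IntervalIntegrable (fun u => TT a b (Real.exp u) - ρ) volume A B :=
  (TT_int hA hB).sub intervalIntegrable_const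

theorem pos_int {f : ℝ → ℝ} {A B : ℝ} (h : IntervalIntegrable f volume A B) :
    IntervalIntegrable (fun u => max (f u) 0) volume A B := ⟨h.1.pos_part, h.2.pos_part⟩

/-! ### the law -/

theorem cesaro {f : ℝ → ℝ} (hf : ∀ A B : ℝ, 4 ≤ A → 4 ≤ B → IntervalIntegrable f volume A B)
    (h0 : ∀ u, 0 ≤ f u) {h : ℝ} (hh : 0 < h)
    (ht : Tendsto (fun U => ∫ u in U..(U + h), f u) atTop (𝓝 0)) :
    Tendsto (fun U => (∫ u in (4 : ℝ)..U, f u) / U) atTop (𝓝 0) := by
  rw [Metric.tendsto_atTop]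
  intro ε hε
  have h1 : ∀ᶠ U : ℝ in atTop, ∫ u in U..(U + h), f u < ε * h / 4 := ht.eventually_lt_const (by positivity)
  obtain ⟨U₀, hU₀⟩ := (h1.and (eventually_ge_atTop (4 : ℝ))).exists_forall_of_atTop
  have hU₀4 : 4 ≤ U₀ := (hU₀ U₀ le_rfl).2
  set K : ℝ := ∫ u in (4 : ℝ)..U₀, f u with hK
  have hK0 : 0 ≤ K := intervalIntegral.integral_nonneg hU₀4 fun u _ => h0 u
  have h2 : ∀ n : ℕ, ∫ u in U₀..(U₀ + n * h), f u ≤ n * (ε * h / 4) := by
    intro n
    induction n with
    | zero => simp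
    | succ n ih =>
      have hn : 4 ≤ U₀ + n * h := by
        have : 0 ≤ (n : ℝ) * h := by positivity
        linarith
      have hn' : 4 ≤ U₀ + (n + 1 : ℕ) * h := by
        have : 0 ≤ ((n + 1 : ℕ) : ℝ) * h := by positivity
        linarith
      have e := intervalIntegral.integral_add_adjacent_intervals (hf _ _ hU₀4 hn) (hf _ _ hn hn')
      have e2 : U₀ + ((n + 1 : ℕ) : ℝ) * h = U₀ + n * h + h := by push_cast; ring
      have h3 := (hU₀ (U₀ + n * h) (by
        have : 0 ≤ (n : ℝ) * h := by positivity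
        linarith)).1
      rw [← e, e2]
      push_cast
      linarith
  set U₁ : ℝ := max U₀ (4 * (K + ε * h) / ε + 1) with hU₁
  refine ⟨U₁, fun U hU => ?_⟩
  have hUU₀ : U₀ ≤ U := (le_max_left _ _).trans hU
  have hU1 : 4 * (K + ε * h) / ε < U := by
    have := (le_max_right U₀ (4 * (K + ε * h) / ε + 1)).trans hU
    linarith
  have hU0 : 0 < U := by linarith
  have hi0 : 0 ≤ ∫ u in (4 : ℝ)..U, f u := intervalIntegral.integral_nonneg (by linarith) fun u _ => h0 u
  rw [Real.dist_eq, sub_zero, abs_of_nonneg (by positivity), div_lt_iff₀ hU0]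
  rw [← intervalIntegral.integral_add_adjacent_intervals (hf _ _ le_rfl hU₀4) (hf _ _ hU₀4 (by linarith)), ← hK]
  set n : ℕ := ⌈(U - U₀) / h⌉₊ with hn
  have hn1 : (U - U₀) / h ≤ n := Nat.le_ceil _
  have hn2 : (n : ℝ) ≤ (U - U₀) / h + 1 := (Nat.ceil_lt_add_one (div_nonneg (by linarith) hh.le)).le
  rw [div_le_iff₀ hh] at hn1
  have h3 : ∫ u in U₀..U, f u ≤ ∫ u in U₀..(U₀ + n * h), f u := by
    apply intervalIntegral.integral_mono_interval le_rfl hUU₀ (by linarith) _ (hf _ _ hU₀4 (by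
      have : 0 ≤ (n : ℝ) * h := by positivity
      linarith))
    exact Eventually.of_forall fun u => h0 u
  have h4 : (n : ℝ) * (ε * h / 4) ≤ ((U - U₀) / h + 1) * (ε * h / 4) := by gcongr
  have h5 : ((U - U₀) / h + 1) * (ε * h / 4) = ε / 4 * (U - U₀) + ε * h / 4 := by field_simp
  have h6 := h2 n
  rw [div_lt_iff₀ hε] at hU1
  have h7 : 0 < ε * h := by positivity
  have h8 : 0 ≤ ε * U₀ := by positivity
  nlinarith

theorem log_int_eq {u : ℝ} : ∫ t in (4 : ℝ)..u, Real.log t = u * Real.log u - u -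
    (4 * Real.log 4 - 4) := by
  rw [integral_log]
  ring

/-- `T` is near `m` in the mean -/
theorem law_one (hΔ : 4 * a ^ 3 + 27 * b ^ 2 ≠ 0) (hF : IsLSeries a b F)
    (hrs : Tendsto (rsSum a b) atTop (𝓝 0)) {η C₀ : ℝ} {κ : ℕ} (hη : 0 < η)
    (hg : ∀ s : ℂ, 1 - η < s.re → ‖F s‖ ≤ C₀ * (1 + ‖s‖) ^ κ) {m : ℕ} (hm : analyticOrderAt F 1 = m)
    (hnz : NoZ F) :
    ∃ h : ℝ, 0 < h ∧ Tendsto (fun U => ∫ u in U..(U + h), |TT a b (Real.exp u) - m|) atTop (𝓝 0) := by
  obtain ⟨C₁, hC₁, -, ht⟩ := law hΔ hF hrs hη hg hm hnz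
  obtain ⟨c₀, hc₀⟩ := log_prod a b
  obtain ⟨c₁, hc₁⟩ := TT_exp a b
  set f : ℕ → ℂ := fc (SS a b) (Ap a b) with hf
  set r : ℝ → ℝ := fun u => dev a b C₁ m (Real.exp u) with hr
  set S : ℝ → ℝ := fun u => (DD f u).re with hS
  set k : ℝ := Real.log C₁ - c₀ with hk
  have hSr : ∀ u : ℝ, 4 ≤ u → S u = r u + (k + m * Real.log u) := by
    intro u hu
    have h1 := congrArg Complex.re (hc₀ u hu)
    rw [Complex.ofReal_re, Complex.add_re, Complex.ofReal_re] at h1
    have h2 : r u = Real.log (bsdProduct a b (Real.exp u)) - (Real.log C₁ + m * Real.log u) := by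
      rw [hr]
      simp only
      rw [dev_eq hC₁ (Real.exp_le_exp.2 (by linarith)), Real.log_exp]
    rw [h2, h1, hk]
    simp only [hS]
    ring
  have hSLI : LI S := fun x y => ⟨(DD_int f x y).1.re, (DD_int f x y).2.re⟩
  have hlogc : ∀ A B : ℝ, 4 ≤ A → 4 ≤ B → IntervalIntegrable (fun u => k + m * Real.log u) volume A B := by
    intro A B hA hB
    apply ContinuousOn.intervalIntegrable
    intro x hx
    have hx4 : 4 ≤ x := (le_min hA hB).trans hx.1
    exact (continuousAt_const.add ((Real.continuousAt_log (by linarith)).const_mul _)).continuousWithinAt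
  have hrI : ∀ A B : ℝ, 4 ≤ A → 4 ≤ B → IntervalIntegrable r volume A B := by
    intro A B hA hB
    refine ((hSLI A B).sub (hlogc A B hA hB)).congr ?_
    intro u hu
    have hu4 : 4 ≤ u := by
      rw [Set.mem_uIoc] at hu
      rcases hu with h | h <;> linarith [h.1]
    simp only
    rw [hSr u hu4]
    ring
  have hraI : ∀ A B : ℝ, 4 ≤ A → 4 ≤ B → IntervalIntegrable (fun u => |r u|) volume A B :=
    fun A B hA hB => (hrI A B hA hB).abs
  -- the windows of length `1/2`
  have hwin : Tendsto (fun U => ∫ u in U..(U + 1 / 2), |r u|) atTop (𝓝 0) := by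
    have h1 : Tendsto (fun U : ℝ => wm (dev a b C₁ m) 0 (Real.exp U)) atTop (𝓝 0) :=
      ht.comp Real.tendsto_exp_atTop
    refine squeeze_zero' ?_ ?_ h1
    · filter_upwards [] with U
      exact intervalIntegral.integral_nonneg (by linarith) fun u _ => abs_nonneg _
    · filter_upwards [eventually_ge_atTop (4 : ℝ)] with U hU
      have h2 := wm_lower (φ := dev a b C₁ m) (κ := 0) (U := U) le_rfl (by linarith)
        (fun A B hA hB => dev_int hC₁ hA hB) (by
          simp only [neg_zero, Real.rpow_zero]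
          exact hrI _ _ hU (by linarith))
      simp only [neg_zero, Real.rpow_zero] at h2
      exact h2
  have hces := cesaro hraI (fun u => abs_nonneg _) (by norm_num : (0 : ℝ) < 1 / 2) hwin
  -- the formula
  set K₀ : ℝ := -(∫ t in (0 : ℝ)..4, S t) + 4 * k + m * (4 * Real.log 4 - 4) with hK₀
  have hform : ∀ u : ℝ, 4 ≤ u → Dr (AA a b) u = u * r u + m * u - (∫ t in (4 : ℝ)..u, r t) + K₀ := by
    intro u hu
    have h1 := congrArg Complex.re (DD_log (f := f) (u := u) (by linarith))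
    have h2 : (∫ v in (0 : ℝ)..u, DD f v).re = ∫ v in (0 : ℝ)..u, S v := by
      have := intervalIntegral.intervalIntegral_re (𝕜 := ℂ) (DD_int f 0 u)
      simpa using this.symm
    rw [Complex.sub_re, Complex.re_ofReal_mul, h2] at h1
    have h3 : Dr (AA a b) u = u * S u - ∫ v in (0 : ℝ)..u, S v := h1
    have h4 : ∫ v in (0 : ℝ)..u, S v = (∫ v in (0 : ℝ)..4, S v) + ∫ v in (4 : ℝ)..u, S v :=
      (intervalIntegral.integral_add_adjacent_intervals (hSLI _ _) (hSLI _ _)).symm
    have h5 : ∫ v in (4 : ℝ)..u, S v = (∫ v in (4 : ℝ)..u, r v) + ∫ v in (4 : ℝ)..u, (k + m * Real.log v) := by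
      rw [← intervalIntegral.integral_add (hrI _ _ le_rfl hu) (hlogc _ _ le_rfl hu)]
      apply intervalIntegral.integral_congr
      intro v hv
      rw [uIcc_of_le hu] at hv
      exact hSr v hv.1
    have h6 : ∫ v in (4 : ℝ)..u, (k + m * Real.log v) = k * (u - 4) + m * (u * Real.log u - u -
        (4 * Real.log 4 - 4)) := by
      rw [intervalIntegral.integral_add intervalIntegrable_const, intervalIntegral.integral_const,
        intervalIntegral.integral_const_mul, log_int_eq, smul_eq_mul]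
      · ring
      · apply ContinuousOn.intervalIntegrable
        intro x hx
        have hx4 : 4 ≤ x := (le_min le_rfl hu).trans hx.1
        exact ((Real.continuousAt_log (by linarith)).const_mul _).continuousWithinAt
    rw [h3, h4, h5, h6, hSr u hu, hK₀]
    ring
  have hbound : ∀ u : ℝ, 4 ≤ u → |TT a b (Real.exp u) - m| ≤ |r u| + (∫ t in (4 : ℝ)..u, |r t|) / u +
      |K₀ + c₁| / u := by
    intro u hu
    have hu0 : 0 < u := by linarith
    rw [hc₁ u hu, hform u hu]
    have e : (u * r u + m * u - (∫ t in (4 : ℝ)..u, r t) + K₀ + c₁) / u - m =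
        r u - (∫ t in (4 : ℝ)..u, r t) / u + (K₀ + c₁) / u := by
      field_simp
      ring
    rw [e]
    have h1 : |∫ t in (4 : ℝ)..u, r t| ≤ ∫ t in (4 : ℝ)..u, |r t| :=
      intervalIntegral.abs_integral_le_integral_abs hu
    have h2 : |(∫ t in (4 : ℝ)..u, r t) / u| ≤ (∫ t in (4 : ℝ)..u, |r t|) / u := by
      rw [abs_div, abs_of_pos hu0]
      gcongr
    have h3 : |(K₀ + c₁) / u| = |K₀ + c₁| / u := by rw [abs_div, abs_of_pos hu0]
    calc |r u - (∫ t in (4 : ℝ)..u, r t) / u + (K₀ + c₁) / u|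
        ≤ |r u - (∫ t in (4 : ℝ)..u, r t) / u| + |(K₀ + c₁) / u| := abs_add_le _ _
      _ ≤ |r u| + |(∫ t in (4 : ℝ)..u, r t) / u| + |(K₀ + c₁) / u| := by
          gcongr
          exact abs_sub _ _
      _ ≤ _ := by rw [h3]; gcongr
  refine ⟨1 / 2, by norm_num, ?_⟩
  rw [Metric.tendsto_atTop]
  intro ε hε
  have k1 := hwin.eventually_lt_const (show 0 < ε / 4 by positivity)
  have k2 := hces.eventually_lt_const (show 0 < ε / 4 by positivity)
  have k3 : ∀ᶠ U : ℝ in atTop, |K₀ + c₁| / U < ε / 4 := by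
    have : Tendsto (fun U : ℝ => |K₀ + c₁| / U) atTop (𝓝 0) := tendsto_const_nhds.div_atTop tendsto_id
    exact this.eventually_lt_const (by positivity)
  obtain ⟨U₀, hU₀⟩ := (k1.and (k2.and (k3.and (eventually_ge_atTop (4 : ℝ))))).exists_forall_of_atTop
  refine ⟨U₀, fun U hU => ?_⟩
  have hU4 : 4 ≤ U := (hU₀ U hU).2.2.2
  have hn : 0 ≤ ∫ u in U..(U + 1 / 2), |TT a b (Real.exp u) - m| :=
    intervalIntegral.integral_nonneg (by linarith) fun u _ => abs_nonneg _
  rw [Real.dist_eq, sub_zero, abs_of_nonneg hn]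
  have h1 : ∫ u in U..(U + 1 / 2), |TT a b (Real.exp u) - m| ≤
      ∫ u in U..(U + 1 / 2), (|r u| + ε / 2) := by
    apply intervalIntegral.integral_mono_on (by linarith) (TTc_int _ hU4 (by linarith)).abs
      ((hraI _ _ hU4 (by linarith)).add intervalIntegrable_const)
    intro u hu
    have h2 := hbound u (by linarith [hu.1])
    have h3 := hU₀ u (hU.trans hu.1)
    linarith [h3.2.1, h3.2.2.1]
  rw [intervalIntegral.integral_add (hraI _ _ hU4 (by linarith)) intervalIntegrable_const,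
    intervalIntegral.integral_const, smul_eq_mul, add_sub_cancel_left] at h1
  have := (hU₀ U hU).1
  linarith

end

end Pool.Agent.N739.EL
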