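import Pool.Agent.N739.EL.One

/-!
# One-sided criteria in windows
-/

set_option autoImplicit false

open MeasureTheory Filter Topology Set Classical
open Pool.Agent.W263.BSD

namespace Pool.Agent.N739.EL

open Pool.Agent.N739.LW (Dens DD DD_int DD_log)
open Pool.Agent.N739.LL (Dr LI Dr_LI Dr_norm)

noncomputable section

variable {a b : ℤ} {F : ℂ → ℂ}

/-- `∫_X^{CX} φ = ∫_U^{U+R} e^u φ(e^u) du` -/
theorem exp_subst (φ : ℝ → ℝ) {A B : ℝ} (h : A ≤ B) :
    ∫ x in (Real.exp A)..(Real.exp B), φ x = ∫ u in A..B, Real.exp u * φ (Real.exp u) := by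
  rw [intervalIntegral.integral_of_le (Real.exp_le_exp.2 h), ← exp_image,
    integral_image_eq_integral_abs_deriv_smul measurableSet_Ioc
      (fun x _ => (Real.hasDerivAt_exp x).hasDerivWithinAt) (Real.exp_injective.injOn),
    ← intervalIntegral.integral_of_le h]
  apply intervalIntegral.integral_congr
  intro u _
  simp only [smul_eq_mul, abs_of_pos (Real.exp_pos u)]

/-- the mean over `[X, CX]` -/
def mn (φ : ℝ → ℝ) (C X : ℝ) : ℝ := 1 / X * ∫ x in X..(C * X), φ x

theorem mn_bounds {φ : ℝ → ℝ} (h0 : ∀ x, 0 ≤ φ x) {U R : ℝ} (hR : 0 ≤ R)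
    (hi : IntervalIntegrable (fun u => φ (Real.exp u)) volume U (U + R)) :
    ∫ u in U..(U + R), φ (Real.exp u) ≤ mn φ (Real.exp R) (Real.exp U) ∧
      mn φ (Real.exp R) (Real.exp U) ≤ Real.exp R * ∫ u in U..(U + R), φ (Real.exp u) := by
  have hX := Real.exp_pos U
  have hi2 : IntervalIntegrable (fun u => Real.exp u * φ (Real.exp u)) volume U (U + R) :=
    hi.continuousOn_mul Real.continuous_exp.continuousOn
  have e : mn φ (Real.exp R) (Real.exp U) =
      1 / Real.exp U * ∫ u in U..(U + R), Real.exp u * φ (Real.exp u) := by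
    unfold mn
    rw [← Real.exp_add, add_comm R U, exp_subst φ (by linarith)]
  rw [e]
  constructor
  · have h1 : Real.exp U * ∫ u in U..(U + R), φ (Real.exp u) ≤
        ∫ u in U..(U + R), Real.exp u * φ (Real.exp u) := by
      rw [← intervalIntegral.integral_const_mul]
      apply intervalIntegral.integral_mono_on (by linarith) (hi.const_mul _) hi2
      intro u hu
      exact mul_le_mul_of_nonneg_right (Real.exp_le_exp.2 hu.1) (h0 _)
    calc ∫ u in U..(U + R), φ (Real.exp u) =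
        1 / Real.exp U * (Real.exp U * ∫ u in U..(U + R), φ (Real.exp u)) := by field_simp
      _ ≤ _ := by gcongr
  · have h1 : ∫ u in U..(U + R), Real.exp u * φ (Real.exp u) ≤
        Real.exp (U + R) * ∫ u in U..(U + R), φ (Real.exp u) := by
      rw [← intervalIntegral.integral_const_mul]
      apply intervalIntegral.integral_mono_on (by linarith) hi2 (hi.const_mul _)
      intro u hu
      exact mul_le_mul_of_nonneg_right (Real.exp_le_exp.2 hu.2) (h0 _)
    calc 1 / Real.exp U * ∫ u in U..(U + R), Real.exp u * φ (Real.exp u)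
        ≤ 1 / Real.exp U * (Real.exp (U + R) * ∫ u in U..(U + R), φ (Real.exp u)) := by gcongr
      _ = _ := by rw [Real.exp_add]; field_simp

theorem mn_mono {φ : ℝ → ℝ} (h0 : ∀ x, 0 ≤ φ x) {C C' X : ℝ} (hX : 0 < X) (hC : 1 ≤ C) (hCC : C ≤ C')
    (hi : IntervalIntegrable φ volume X (C' * X)) : mn φ C X ≤ mn φ C' X := by
  unfold mn
  apply mul_le_mul_of_nonneg_left _ (by positivity)
  apply intervalIntegral.integral_mono_interval le_rfl (by nlinarith) (by nlinarith) _ hi
  exact Eventually.of_forall fun u => h0 u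

theorem gz {s₀ : ℂ} (hz : F s₀ = 0) : PhiF a b F (s₀ - 1) = 0 := by
  unfold PhiF
  rw [add_sub_cancel, hz, zero_mul]

theorem beta_half (hF : IsLSeries a b F) {s₀ : ℂ} (hz : F s₀ = 0) : (s₀ - 1).re ≤ 1 / 2 := by
  by_contra hcon
  push Not at hcon
  have h1 := gz (a := a) (b := b) hz
  rw [phi_exp hF hcon] at h1
  exact Complex.exp_ne_zero _ h1

theorem ev_exp {A R q : ℝ} (hq : 0 < q) : ∀ᶠ U : ℝ in atTop, (U + R) * A ≤ Real.exp (q * U) := by
  have h1 := (isLittleO_pow_exp_pos_mul_atTop 1 hq).bound (show 0 < (2 * (|A| + 1))⁻¹ by positivity)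
  have h2 : ∀ᶠ U : ℝ in atTop, R * A ≤ Real.exp (q * U) / 2 := by
    have : Tendsto (fun U : ℝ => Real.exp (q * U) / 2) atTop atTop :=
      (Real.tendsto_exp_atTop.comp (tendsto_id.const_mul_atTop hq)).atTop_div_const (by norm_num)
    exact this.eventually_ge_atTop _
  filter_upwards [h1, h2, eventually_ge_atTop (0 : ℝ)] with U h3 h4 h5
  rw [pow_one, Real.norm_of_nonneg h5, Real.norm_of_nonneg (Real.exp_pos _).le] at h3
  have h6 : U * A ≤ Real.exp (q * U) / 2 := by
    calc U * A ≤ U * (|A| + 1) := by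
          apply mul_le_mul_of_nonneg_left _ h5
          linarith [le_abs_self A]
      _ ≤ ((2 * (|A| + 1))⁻¹ * Real.exp (q * U)) * (|A| + 1) := by gcongr
      _ = _ := by field_simp
  have : (U + R) * A = U * A + R * A := by ring
  linarith

theorem max_split {β ε ε' U K : ℝ} (he : ε' = min ε β / 2) (hU : 0 ≤ U) (hK : 0 ≤ K) :
    Real.exp ((β - ε) * U) + K ≤ (1 + K) * Real.exp ((β - 2 * ε') * U) := by
  have h1 : 2 * ε' = min ε β := by rw [he]; ring
  have h2 : β - ε ≤ β - 2 * ε' := by rw [h1]; linarith [min_le_left ε β]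
  have h3 : 0 ≤ β - 2 * ε' := by rw [h1]; linarith [min_le_right ε β]
  have h4 : Real.exp ((β - ε) * U) ≤ Real.exp ((β - 2 * ε') * U) :=
    Real.exp_le_exp.2 (mul_le_mul_of_nonneg_right h2 hU)
  have h5 : 1 ≤ Real.exp ((β - 2 * ε') * U) := Real.one_le_exp (by positivity)
  nlinarith

/-- **Every window sees every zero from above.** -/
theorem up_lower (hF : IsLSeries a b F)
    (hgr : ∃ C : ℝ, ∀ s : ℂ, 0 < s.re → ‖PhiF a b F s‖ ≤ C * (1 + ‖s‖) * (1 + 1 / s.re) ^ 2)
    (hdens : Dens (PhiF a b F)) {s₀ : ℂ} (hz : F s₀ = 0) (hs : 1 < s₀.re) :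
    ∃ R : ℝ, 0 < R ∧ ∀ ρ ε : ℝ, 0 < ε → ∀ᶠ U : ℝ in atTop,
      Real.exp ((s₀.re - 1 - ε) * U) ≤ ∫ u in U..(U + R), max (TT a b (Real.exp u) - ρ) 0 := by
  have h := inst hF hgr
  have hre : (s₀ - 1).re = s₀.re - 1 := by simp
  have hβ : 0 < (s₀ - 1).re := by rw [hre]; linarith
  obtain ⟨R, hR, h1⟩ := LL.LG.onesided h hdens AA_real (gz hz) hβ (beta_half hF hz)
  obtain ⟨c₁, hc₁⟩ := TT_exp a b
  refine ⟨R, hR, fun ρ ε hε => ?_⟩
  rw [hre] at h1 hβ
  set β := s₀.re - 1 with hβd
  obtain ⟨ε', he⟩ : ∃ ε' : ℝ, ε' = min ε β / 2 := ⟨_, rfl⟩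
  have hε' : 0 < ε' := by rw [he]; have := lt_min hε hβ; linarith
  set K : ℝ := R * (|c₁| + |ρ|) with hK
  have hK0 : 0 ≤ K := by positivity
  filter_upwards [h1 ε' hε', ev_exp (A := 1 + K) (R := R) hε', eventually_ge_atTop (4 : ℝ)] with U h2 h3 h4
  have hUR : 0 < U + R := by linarith
  have hI1 : IntervalIntegrable (fun u => max (Dr (AA a b) u) 0) volume U (U + R) := (Dr_LI (AA a b)).pos _ _
  have h5 : ∫ u in U..(U + R), (max (Dr (AA a b) u) 0 / (U + R) - (|c₁| + |ρ|)) ≤
      ∫ u in U..(U + R), max (TT a b (Real.exp u) - ρ) 0 := by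
    apply intervalIntegral.integral_mono_on (by linarith) ((hI1.div_const _).sub intervalIntegrable_const)
      (pos_int (TTc_int ρ h4 (by linarith)))
    intro u hu
    have hu4 : 4 ≤ u := by linarith [hu.1]
    have hu0 : 0 < u := by linarith
    rw [hc₁ u hu4]
    have hc : -|c₁| ≤ c₁ / u := by
      have a1 : |c₁ / u| ≤ |c₁| := by
        rw [abs_div, abs_of_pos hu0]
        exact div_le_self (abs_nonneg _) (by linarith)
      linarith [neg_abs_le (c₁ / u)]
    have hρ : -|ρ| ≤ -ρ := by linarith [le_abs_self ρ]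
    rcases le_total (Dr (AA a b) u) 0 with h | h
    · rw [max_eq_right h, zero_div]
      have := abs_nonneg c₁
      have := abs_nonneg ρ
      exact (by linarith : (0 : ℝ) - (|c₁| + |ρ|) ≤ 0).trans (le_max_right _ _)
    · rw [max_eq_left h]
      refine le_trans ?_ (le_max_left _ _)
      have h6 : Dr (AA a b) u / (U + R) ≤ Dr (AA a b) u / u := by
        apply div_le_div_of_nonneg_left h hu0 hu.2
      rw [add_div]
      linarith
  rw [intervalIntegral.integral_sub (hI1.div_const _) intervalIntegrable_const,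
    intervalIntegral.integral_div, intervalIntegral.integral_const, add_sub_cancel_left, smul_eq_mul,
    ← hK] at h5
  refine le_trans ?_ h5
  rw [le_sub_iff_add_le, le_div_iff₀ hUR]
  refine le_trans ?_ h2
  have h6 := max_split (U := U) he (by linarith) hK0
  calc (Real.exp ((β - ε) * U) + K) * (U + R) ≤ ((1 + K) * Real.exp ((β - 2 * ε') * U)) * (U + R) := by gcongr
    _ = ((U + R) * (1 + K)) * Real.exp ((β - 2 * ε') * U) := by ring
    _ ≤ Real.exp (ε' * U) * Real.exp ((β - 2 * ε') * U) := by gcongr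
    _ = Real.exp ((β - ε') * U) := by rw [← Real.exp_add]; congr 1; ring

/-- **Every window sees every zero**, two-sided -/
theorem two_lower (hF : IsLSeries a b F)
    (hgr : ∃ C : ℝ, ∀ s : ℂ, 0 < s.re → ‖PhiF a b F s‖ ≤ C * (1 + ‖s‖) * (1 + 1 / s.re) ^ 2)
    (hdens : Dens (PhiF a b F)) {s₀ : ℂ} (hz : F s₀ = 0) (hs : 1 < s₀.re) (ρ : ℝ) {ε : ℝ} (hε : 0 < ε) :
    ∀ᶠ U : ℝ in atTop,
      Real.exp ((s₀.re - 1 - ε) * U) ≤ ∫ u in U..(U + 1 / 2), |TT a b (Real.exp u) - ρ| := by
  have h := inst hF hgr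
  have hre : (s₀ - 1).re = s₀.re - 1 := by simp
  have hβ : 0 < (s₀ - 1).re := by rw [hre]; linarith
  have h1 := fun ε' hε' => LW.LG.asym h hdens (gz hz) hβ (beta_half hF hz) (κ := 0) le_rfl
    (by rw [zero_mul]; exact hβ) (ε := ε') hε'
  obtain ⟨c₁, hc₁⟩ := TT_exp a b
  rw [hre] at h1 hβ
  set β := s₀.re - 1 with hβd
  obtain ⟨ε', he⟩ : ∃ ε' : ℝ, ε' = min ε β / 2 := ⟨_, rfl⟩
  have hε' : 0 < ε' := by rw [he]; have := lt_min hε hβ; linarith
  set K : ℝ := |ρ| with hK
  have hK0 : 0 ≤ K := abs_nonneg _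
  filter_upwards [h1 ε' hε', ev_exp (A := 1 + K) (R := 1 / 2) hε', eventually_ge_atTop (4 : ℝ)] with U h2 h3 h4
  have hUR : 0 < U + 1 / 2 := by linarith
  have h2' := h2 ((ρ * U - c₁ : ℝ) : ℂ)
  simp only [neg_zero, Real.rpow_zero] at h2'
  have hI := (TTc_int (a := a) (b := b) ρ h4 (show 4 ≤ U + 1 / 2 by linarith)).abs
  have h5 : ∫ u in U..(U + 1 / 2), ‖DD (AA a b) u - ((ρ * U - c₁ : ℝ) : ℂ)‖ ≤
      ∫ u in U..(U + 1 / 2), ((U + 1 / 2) * |TT a b (Real.exp u) - ρ| + K) := by
    apply intervalIntegral.integral_mono_on (by linarith) (LW.DDn_int _ _ _ _)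
      ((hI.const_mul _).add intervalIntegrable_const)
    intro u hu
    have hu4 : 4 ≤ u := by linarith [hu.1]
    have hu0 : 0 < u := by linarith
    rw [Dr_norm AA_real, hc₁ u hu4]
    have e : Dr (AA a b) u - (ρ * U - c₁) = u * ((Dr (AA a b) u + c₁) / u - ρ) + ρ * (u - U) := by
      field_simp
      ring
    rw [e]
    refine (abs_add_le _ _).trans ?_
    rw [abs_mul, abs_mul, abs_of_pos hu0, abs_of_nonneg (show 0 ≤ u - U by linarith [hu.1])]
    have a1 : |ρ| * (u - U) ≤ K := by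
      have : u - U ≤ 1 := by linarith [hu.2]
      calc |ρ| * (u - U) ≤ |ρ| * 1 := by gcongr
        _ = K := by rw [mul_one]
    have a2 : u * |(Dr (AA a b) u + c₁) / u - ρ| ≤ (U + 1 / 2) * |(Dr (AA a b) u + c₁) / u - ρ| := by
      gcongr
      exact hu.2
    linarith
  rw [intervalIntegral.integral_add (hI.const_mul _) intervalIntegrable_const,
    intervalIntegral.integral_const_mul, intervalIntegral.integral_const, add_sub_cancel_left,
    smul_eq_mul] at h5
  have h6 := max_split (U := U) he (by linarith) hK0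
  have h7 : Real.exp ((β - ε') * U) ≤ (U + 1 / 2) * (∫ u in U..(U + 1 / 2), |TT a b (Real.exp u) - ρ|) + 1 / 2 * K :=
    h2'.trans h5
  have h8 : (U + 1 / 2) * (Real.exp ((β - ε) * U) + K) ≤ Real.exp ((β - ε') * U) := by
    calc (U + 1 / 2) * (Real.exp ((β - ε) * U) + K) ≤ (U + 1 / 2) * ((1 + K) * Real.exp ((β - 2 * ε') * U)) := by gcongr
      _ = ((U + 1 / 2) * (1 + K)) * Real.exp ((β - 2 * ε') * U) := by ring
      _ ≤ Real.exp (ε' * U) * Real.exp ((β - 2 * ε') * U) := by gcongr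
      _ = Real.exp ((β - ε') * U) := by rw [← Real.exp_add]; congr 1; ring
  have h9 : (U + 1 / 2) * Real.exp ((β - ε) * U) ≤ (U + 1 / 2) * (∫ u in U..(U + 1 / 2), |TT a b (Real.exp u) - ρ|) := by
    nlinarith
  exact le_of_mul_le_mul_left h9 hUR

theorem win_all {f : ℝ → ℝ} (hf : ∀ A B : ℝ, 4 ≤ A → 4 ≤ B → IntervalIntegrable f volume A B)
    (h0 : ∀ u, 0 ≤ f u) {h : ℝ} (hh : 0 < h)
    (ht : Tendsto (fun U => ∫ u in U..(U + h), f u) atTop (𝓝 0)) {R : ℝ} (hR : 0 ≤ R) :
    Tendsto (fun U => ∫ u in U..(U + R), f u) atTop (𝓝 0) := by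
  have h1 : ∀ n : ℕ, Tendsto (fun U => ∫ u in U..(U + n * h), f u) atTop (𝓝 0) := by
    intro n
    induction n with
    | zero => simp
    | succ n ih =>
      have h2 : Tendsto (fun U => ∫ u in (U + n * h)..(U + n * h + h), f u) atTop (𝓝 0) :=
        ht.comp (tendsto_atTop_add_const_right atTop (n * h) tendsto_id)
      have h3 := ih.add h2
      rw [add_zero] at h3
      refine h3.congr' ?_
      filter_upwards [eventually_ge_atTop (4 : ℝ)] with U hU
      have hn : 0 ≤ (n : ℝ) * h := by positivity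
      rw [intervalIntegral.integral_add_adjacent_intervals (hf _ _ hU (by linarith))
        (hf _ _ (by linarith) (by linarith))]
      congr 1
      push_cast
      ring
  set n : ℕ := ⌈R / h⌉₊ with hn
  have hn1 : R / h ≤ n := Nat.le_ceil _
  rw [div_le_iff₀ hh] at hn1
  refine squeeze_zero' ?_ ?_ (h1 n)
  · filter_upwards [] with U
    exact intervalIntegral.integral_nonneg (by linarith) fun u _ => h0 u
  · filter_upwards [eventually_ge_atTop (4 : ℝ)] with U hU
    apply intervalIntegral.integral_mono_interval le_rfl (by linarith) (by linarith) _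
      (hf _ _ hU (by linarith))
    exact Eventually.of_forall fun u => h0 u

/-- `max (T(x) - ρ, 0)` -/
def pp (a b : ℤ) (ρ x : ℝ) : ℝ := max (TT a b x - ρ) 0

/-- `|T(x) - ρ|` -/
def qq (a b : ℤ) (ρ x : ℝ) : ℝ := |TT a b x - ρ|

theorem pp_nonneg (ρ x : ℝ) : 0 ≤ pp a b ρ x := le_max_right _ _

theorem qq_nonneg (ρ x : ℝ) : 0 ≤ qq a b ρ x := abs_nonneg _

theorem pp_int (ρ : ℝ) {A B : ℝ} (hA : 4 ≤ A) (hB : 4 ≤ B) :
    IntervalIntegrable (fun u => pp a b ρ (Real.exp u)) volume A B := pos_int (TTc_int ρ hA hB)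

theorem qq_int (ρ : ℝ) {A B : ℝ} (hA : 4 ≤ A) (hB : 4 ≤ B) :
    IntervalIntegrable (fun u => qq a b ρ (Real.exp u)) volume A B := (TTc_int ρ hA hB).abs

theorem mn_bounds' {φ : ℝ → ℝ} (h0 : ∀ x, 0 ≤ φ x)
    (hi : ∀ A B : ℝ, 4 ≤ A → 4 ≤ B → IntervalIntegrable (fun u => φ (Real.exp u)) volume A B) {C X : ℝ}
    (hC : 1 < C) (hX : Real.exp 4 ≤ X) :
    ∫ u in (Real.log X)..(Real.log X + Real.log C), φ (Real.exp u) ≤ mn φ C X ∧
      mn φ C X ≤ C * ∫ u in (Real.log X)..(Real.log X + Real.log C), φ (Real.exp u) := by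
  have hX0 : 0 < X := (Real.exp_pos _).trans_le hX
  have hl : 4 ≤ Real.log X := by rwa [Real.le_log_iff_exp_le hX0]
  have hR : 0 < Real.log C := Real.log_pos hC
  have h1 := mn_bounds h0 hR.le (hi (Real.log X) (Real.log X + Real.log C) hl (by linarith))
  rw [Real.exp_log hX0, Real.exp_log (by linarith : 0 < C)] at h1
  exact h1

theorem rpow_exp {X c : ℝ} (hX : 0 < X) : X ^ c = Real.exp (c * Real.log X) := by
  rw [Real.rpow_def_of_pos hX, mul_comm]

/-- **The criteria.** -/
theorem crit_one (hΔ : 4 * a ^ 3 + 27 * b ^ 2 ≠ 0) (hF : IsLSeries a b F)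
    (hgr : ∃ C : ℝ, ∀ s : ℂ, 0 < s.re → ‖PhiF a b F s‖ ≤ C * (1 + ‖s‖) * (1 + 1 / s.re) ^ 2)
    (hdens : Dens (PhiF a b F))
    (hrs : Tendsto (rsSum a b) atTop (𝓝 0)) {η C₀ : ℝ} {κ₀ : ℕ} (hη : 0 < η)
    (hg : ∀ s : ℂ, 1 - η < s.re → ‖F s‖ ≤ C₀ * (1 + ‖s‖) ^ κ₀) :
    (∀ s : ℂ, F s = 0 → 1 < s.re → ∃ C : ℝ, 1 < C ∧ ∀ ρ ε : ℝ, 0 < ε →
      ∀ᶠ X : ℝ in atTop, X ^ (s.re - 1 - ε) ≤ mn (pp a b ρ) C X) ∧
    (∀ ρ : ℝ, List.TFAE [
      NoZ F ∧ ∃ m : ℕ, analyticOrderAt F 1 = m ∧ (m : ℝ) ≤ ρ,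
      ∀ C : ℝ, 1 < C → Tendsto (fun X : ℝ => mn (pp a b ρ) C X) atTop (𝓝 0),
      ∀ C : ℝ, 1 < C → ∀ ε : ℝ, 0 < ε → ∃ᶠ X : ℝ in atTop, mn (pp a b ρ) C X ≤ ε]) ∧
    (∀ ρ : ℝ, List.TFAE [
      NoZ F ∧ ∃ m : ℕ, analyticOrderAt F 1 = m ∧ (m : ℝ) = ρ,
      ∀ C : ℝ, 1 < C → Tendsto (fun X : ℝ => mn (qq a b ρ) C X) atTop (𝓝 0),
      ∀ ε : ℝ, 0 < ε → ∃ᶠ X : ℝ in atTop, mn (qq a b ρ) 2 X ≤ ε]) := by
  obtain ⟨m, hm⟩ := order_finite hF
  have hmm : ∀ {n : ℕ}, analyticOrderAt F 1 = n → n = m := by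
    intro n hn
    rw [hm] at hn
    exact_mod_cast hn.symm
  -- the lower bound
  have hlow : ∀ s : ℂ, F s = 0 → 1 < s.re → ∃ C : ℝ, 1 < C ∧ ∀ ρ ε : ℝ, 0 < ε →
      ∀ᶠ X : ℝ in atTop, X ^ (s.re - 1 - ε) ≤ mn (pp a b ρ) C X := by
    intro s hz hs
    obtain ⟨R, hR, h1⟩ := up_lower hF hgr hdens hz hs
    refine ⟨Real.exp R, Real.one_lt_exp_iff.2 hR, fun ρ ε hε => ?_⟩
    have h2 := Real.tendsto_log_atTop.eventually (h1 ρ ε hε)
    filter_upwards [h2, eventually_ge_atTop (Real.exp 4)] with X h3 h4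
    have hX0 : 0 < X := (Real.exp_pos _).trans_le h4
    have h5 := (mn_bounds' (pp_nonneg (a := a) (b := b) ρ) (fun A B => pp_int ρ)
      (Real.one_lt_exp_iff.2 hR) h4).1
    rw [Real.log_exp] at h5
    rw [rpow_exp hX0]
    exact h3.trans h5
  have htwo : ∀ s : ℂ, F s = 0 → 1 < s.re → ∀ ρ ε : ℝ, 0 < ε →
      ∀ᶠ X : ℝ in atTop, X ^ (s.re - 1 - ε) ≤ mn (qq a b ρ) 2 X := by
    intro s hz hs ρ ε hε
    have h2 := Real.tendsto_log_atTop.eventually (two_lower (a := a) (b := b) hF hgr hdens hz hs ρ hε)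
    filter_upwards [h2, eventually_ge_atTop (Real.exp 4)] with X h3 h4
    have hX0 : 0 < X := (Real.exp_pos _).trans_le h4
    have hl : 4 ≤ Real.log X := by rwa [Real.le_log_iff_exp_le hX0]
    have h5 := (mn_bounds' (qq_nonneg (a := a) (b := b) ρ) (fun A B => qq_int ρ)
      (by norm_num : (1 : ℝ) < 2) h4).1
    rw [rpow_exp hX0]
    refine (h3.trans ?_).trans h5
    have hlog2 := Real.log_two_gt_d9
    apply intervalIntegral.integral_mono_interval le_rfl (by linarith) (by linarith) _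
      (qq_int ρ hl (by linarith))
    exact Eventually.of_forall fun u => qq_nonneg ρ _
  -- the law
  have hlaw : NoZ F → ∀ C : ℝ, 1 < C → Tendsto (fun X : ℝ => mn (qq a b m) C X) atTop (𝓝 0) := by
    intro hnz C hC
    obtain ⟨h, hh, h1⟩ := law_one hΔ hF hrs hη hg hm hnz
    have h2 := win_all (fun A B => qq_int (a := a) (b := b) m) (fun u => qq_nonneg _ _) hh h1
      (Real.log_nonneg hC.le)
    have h3 := (h2.comp Real.tendsto_log_atTop).const_mul C
    rw [mul_zero] at h3
    refine squeeze_zero' ?_ ?_ h3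
    · filter_upwards [eventually_gt_atTop (0 : ℝ)] with X hX
      unfold mn
      refine mul_nonneg (by positivity) (intervalIntegral.integral_nonneg (by nlinarith) fun u _ => qq_nonneg _ _)
    · filter_upwards [eventually_ge_atTop (Real.exp 4)] with X hX
      exact (mn_bounds' (qq_nonneg (a := a) (b := b) m) (fun A B => qq_int m) hC hX).2
  have hbig : ∀ {s : ℂ}, 1 < s.re → ∀ M : ℝ, ∀ᶠ X : ℝ in atTop, M < X ^ (s.re - 1 - (s.re - 1) / 2) := by
    intro s hs M
    exact (tendsto_rpow_atTop (by linarith)).eventually_gt_atTop M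
  refine ⟨hlow, fun ρ => ?_, fun ρ => ?_⟩
  · tfae_have 1 → 2 := by
      rintro ⟨hnz, n, hn, hnρ⟩ C hC
      rw [hmm hn] at hnρ
      refine squeeze_zero' ?_ ?_ (hlaw hnz C hC)
      · filter_upwards [eventually_gt_atTop (0 : ℝ)] with X hX
        unfold mn
        refine mul_nonneg (by positivity) (intervalIntegral.integral_nonneg (by nlinarith) fun u _ => pp_nonneg _ _)
      · filter_upwards [eventually_ge_atTop (Real.exp 4)] with X hX
        have hX0 : 0 < X := (Real.exp_pos _).trans_le hX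
        have hl : 4 ≤ Real.log X := by rwa [Real.le_log_iff_exp_le hX0]
        have hCX : X ≤ C * X := by nlinarith
        have hsub : ∀ φ : ℝ → ℝ, mn φ C X = 1 / X * ∫ u in (Real.log X)..(Real.log (C * X)),
            Real.exp u * φ (Real.exp u) := by
          intro φ
          unfold mn
          have h1 := exp_subst φ (A := Real.log X) (B := Real.log (C * X))
            (Real.log_le_log hX0 hCX)
          rw [Real.exp_log hX0, Real.exp_log (by positivity)] at h1
          rw [h1]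
        have hl2 : 4 ≤ Real.log (C * X) := hl.trans (Real.log_le_log hX0 hCX)
        rw [hsub, hsub]
        apply mul_le_mul_of_nonneg_left _ (by positivity)
        apply intervalIntegral.integral_mono_on (Real.log_le_log hX0 hCX)
          ((pp_int ρ hl hl2).continuousOn_mul Real.continuous_exp.continuousOn)
          ((qq_int m hl hl2).continuousOn_mul Real.continuous_exp.continuousOn)
        intro u _
        apply mul_le_mul_of_nonneg_left _ (Real.exp_pos u).le
        unfold pp qq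
        apply max_le _ (abs_nonneg _)
        exact (by linarith : TT a b (Real.exp u) - ρ ≤ TT a b (Real.exp u) - m).trans (le_abs_self _)
    tfae_have 2 → 3 := by
      intro h C hC ε hε
      exact ((h C hC).eventually_le_const hε).frequently
    tfae_have 3 → 1 := by
      intro h
      have hnz : NoZ F := by
        by_contra hcon
        unfold NoZ at hcon
        push Not at hcon
        obtain ⟨s, hs, hz⟩ := hcon
        obtain ⟨C, hC, h1⟩ := hlow s hz hs
        obtain ⟨X, h2, h3, h4⟩ := ((h C hC 1 one_pos).and_eventually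
          ((h1 ρ ((s.re - 1) / 2) (by linarith)).and (hbig hs 1))).exists
        linarith
      refine ⟨hnz, m, hm, ?_⟩
      by_contra hcon
      push Not at hcon
      have hlog2 := Real.log_two_gt_d9
      have hd : 0 < ((m : ℝ) - ρ) / 4 := by linarith
      obtain ⟨X, h2, h3, h4⟩ := ((h 2 (by norm_num) _ hd).and_eventually
        (((hlaw hnz 2 (by norm_num)).eventually_lt_const hd).and (eventually_ge_atTop (Real.exp 4)))).exists
      have hX0 : 0 < X := (Real.exp_pos _).trans_le h4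
      have hl : 4 ≤ Real.log X := by rwa [Real.le_log_iff_exp_le hX0]
      have h5 := (mn_bounds' (qq_nonneg (a := a) (b := b) m) (fun A B => qq_int m)
        (by norm_num : (1 : ℝ) < 2) h4).1
      have h6 := (mn_bounds' (pp_nonneg (a := a) (b := b) ρ) (fun A B => pp_int ρ)
        (by norm_num : (1 : ℝ) < 2) h4).1
      have h7 : ∫ u in (Real.log X)..(Real.log X + Real.log 2), ((m : ℝ) - ρ) ≤
          ∫ u in (Real.log X)..(Real.log X + Real.log 2), (pp a b ρ (Real.exp u) + qq a b m (Real.exp u)) := by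
        apply intervalIntegral.integral_mono_on (by linarith) intervalIntegrable_const
          ((pp_int ρ hl (by linarith)).add (qq_int m hl (by linarith)))
        intro u _
        unfold pp qq
        have a1 := le_max_left (TT a b (Real.exp u) - ρ) 0
        have a2 := neg_abs_le (TT a b (Real.exp u) - m)
        linarith
      rw [intervalIntegral.integral_add (pp_int ρ hl (by linarith)) (qq_int m hl (by linarith)),
        intervalIntegral.integral_const, smul_eq_mul, add_sub_cancel_left] at h7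
      nlinarith
    tfae_finish
  · tfae_have 1 → 2 := by
      rintro ⟨hnz, n, hn, hnρ⟩ C hC
      rw [hmm hn] at hnρ
      rw [← hnρ]
      exact hlaw hnz C hC
    tfae_have 2 → 3 := by
      intro h ε hε
      exact ((h 2 (by norm_num)).eventually_le_const hε).frequently
    tfae_have 3 → 1 := by
      intro h
      have hnz : NoZ F := by
        by_contra hcon
        unfold NoZ at hcon
        push Not at hcon
        obtain ⟨s, hs, hz⟩ := hcon
        obtain ⟨X, h2, h3, h4⟩ := ((h 1 one_pos).and_eventually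
          ((htwo s hz hs ρ ((s.re - 1) / 2) (by linarith)).and (hbig hs 1))).exists
        linarith
      refine ⟨hnz, m, hm, ?_⟩
      by_contra hcon
      have hlog2 := Real.log_two_gt_d9
      have hd0 : 0 < |(m : ℝ) - ρ| := abs_pos.2 (sub_ne_zero.2 hcon)
      have hd : 0 < |(m : ℝ) - ρ| / 4 := by linarith
      obtain ⟨X, h2, h3, h4⟩ := ((h _ hd).and_eventually
        (((hlaw hnz 2 (by norm_num)).eventually_lt_const hd).and (eventually_ge_atTop (Real.exp 4)))).exists
      have hX0 : 0 < X := (Real.exp_pos _).trans_le h4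
      have hl : 4 ≤ Real.log X := by rwa [Real.le_log_iff_exp_le hX0]
      have h5 := (mn_bounds' (qq_nonneg (a := a) (b := b) m) (fun A B => qq_int m)
        (by norm_num : (1 : ℝ) < 2) h4).1
      have h6 := (mn_bounds' (qq_nonneg (a := a) (b := b) ρ) (fun A B => qq_int ρ)
        (by norm_num : (1 : ℝ) < 2) h4).1
      have h7 : ∫ u in (Real.log X)..(Real.log X + Real.log 2), |(m : ℝ) - ρ| ≤
          ∫ u in (Real.log X)..(Real.log X + Real.log 2), (qq a b ρ (Real.exp u) + qq a b m (Real.exp u)) := by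
        apply intervalIntegral.integral_mono_on (by linarith) intervalIntegrable_const
          ((qq_int ρ hl (by linarith)).add (qq_int m hl (by linarith)))
        intro u _
        unfold qq
        have e : (m : ℝ) - ρ = (TT a b (Real.exp u) - ρ) - (TT a b (Real.exp u) - m) := by ring
        calc |(m : ℝ) - ρ| = |(TT a b (Real.exp u) - ρ) - (TT a b (Real.exp u) - m)| := by rw [← e]
          _ ≤ _ := abs_sub _ _
      rw [intervalIntegral.integral_add (qq_int ρ hl (by linarith)) (qq_int m hl (by linarith)),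
        intervalIntegral.integral_const, smul_eq_mul, add_sub_cancel_left] at h7
      nlinarith
    tfae_finish

end

end Pool.Agent.N739.EL
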