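import Pool.Agent.N739.EL.Form

/-!
# The parity of the order of the incomplete `L`-series at the central point
-/

set_option autoImplicit false

open MeasureTheory Filter Topology Set
open CongruenceSubgroup Pool.Agent.TH941
open scoped MatrixGroups
open Pool.Agent.W165.RS (ac ac_zero)
open Pool.Agent.W263.BSD
open Pool.Agent.TH942.RZ Pool.Agent.TH942.RZ.Growth

namespace Pool.Agent.N739.EL

noncomputable section

variable {a b : ℤ} {F : ℂ → ℂ}

/-- `F` and the `L`-series of the newform differ by factors which do not vanish at `1`. -/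
theorem rel_of (hΔ : 4 * a ^ 3 + 27 * b ^ 2 ≠ 0) (hF : IsLSeries a b F)
    {N : ℕ} [NeZero N] {f : CuspForm (Gamma0 N : Subgroup (GL (Fin 2) ℝ)) 2} (hf : Hecke f)
    (hb : Belongs a b f) :
    ∃ G0 P1 P2 : ℂ → ℂ, Differentiable ℂ G0 ∧ (∀ s : ℂ, 3 < s.re → G0 s = LSeries (ac f) s) ∧
      Differentiable ℂ P1 ∧ Differentiable ℂ P2 ∧ P1 1 ≠ 0 ∧ P2 1 ≠ 0 ∧
      ∀ z : ℂ, F z * P2 z = G0 z * P1 z := by
  classical
  obtain ⟨C, hC, hS⟩ := partial_sum_bound f
  obtain ⟨G, hGd, hGL, C₁, κ, hG⟩ := Pool.Agent.TH270.MS.growth_left f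
  have hS' : ∀ M : ℕ, ‖∑ k ∈ Finset.Icc 1 M, ac f k‖ ≤
      C * ((M : ℝ) + 1) * (1 + Real.log ((M : ℝ) + 1)) := by
    intro M
    have e : ∑ n ∈ Finset.range (M + 1), ac f n = ∑ k ∈ Finset.Icc 1 M, ac f k := by
      have : Finset.range (M + 1) = insert 0 (Finset.Icc 1 M) := by
        ext x
        simp only [Finset.mem_range, Finset.mem_insert, Finset.mem_Icc]
        omega
      rw [this, Finset.sum_insert (by simp), ac_zero, zero_add]
    rw [← e]
    exact hS M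
  obtain ⟨D, hD⟩ := good_of_large hΔ
  have hN0 : N ≠ 0 := NeZero.ne N
  obtain ⟨S, hSe⟩ : ∃ S : Finset ℕ, S = (Finset.range (D + N + 1)).filter
      (fun p => p.Prime ∧ (¬ GoodPrime a b p ∨ p ∣ N)) := ⟨_, rfl⟩
  have hSp : ∀ p ∈ S, p.Prime := by
    intro p hp
    rw [hSe, Finset.mem_filter] at hp
    exact hp.2.1
  have hSn : ∀ p : ℕ, p.Prime → p ∉ S → GoodPrime a b p ∧ ¬ p ∣ N := by
    intro p hp hpS
    rw [hSe, Finset.mem_filter, Finset.mem_range] at hpS
    by_cases hlt : p < D + N + 1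
    · by_contra hcon
      apply hpS
      refine ⟨hlt, hp, ?_⟩
      tauto
    · refine ⟨hD p hp (by omega), fun hd => ?_⟩
      have := Nat.le_of_dvd (Nat.pos_of_ne_zero hN0) hd
      omega
  obtain ⟨P1, hP1⟩ : ∃ P1 : ℂ → ℂ, P1 = fun z => ∏ p ∈ S, Ef (ac f) N p z := ⟨_, rfl⟩
  obtain ⟨P2, hP2⟩ : ∃ P2 : ℂ → ℂ, P2 = fun z => ∏ p ∈ S,
    (if GoodPrime a b p then Df a b p z else 1) := ⟨_, rfl⟩
  have hP1d : Differentiable ℂ P1 := by
    rw [hP1]
    intro w
    refine DifferentiableAt.fun_finsetProd fun p hp => ?_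
    exact Ef_differentiable _ _ (hSp p hp) w
  have hP2d : Differentiable ℂ P2 := by
    rw [hP2]
    intro w
    refine DifferentiableAt.fun_finsetProd fun p hp => ?_
    split_ifs
    · exact Df_differentiable _ _ (hSp p hp) w
    · exact differentiableAt_const _
  have hA1 : AnalyticOnNhd ℂ (fun z => F z * P2 z) Set.univ :=
    (hF.1.mul hP2d).differentiableOn.analyticOnNhd isOpen_univ
  have hA2 : AnalyticOnNhd ℂ (fun z => G z * P1 z) Set.univ :=
    (hGd.mul hP1d).differentiableOn.analyticOnNhd isOpen_univ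
  have hEq : Set.EqOn (fun z => F z * P2 z) (fun z => G z * P1 z) Set.univ := by
    refine hA1.eqOn_of_preconnected_of_eventuallyEq hA2 isPreconnected_univ (z₀ := 4)
      (Set.mem_univ _) ?_
    have hV : IsOpen {z : ℂ | 3 < z.re} := isOpen_lt continuous_const Complex.continuous_re
    have h4 : (4 : ℂ) ∈ {z : ℂ | 3 < z.re} := by
      show (3 : ℝ) < (4 : ℂ).re
      norm_num
    filter_upwards [hV.mem_nhds h4] with z hz
    have hz' : 3 < z.re := hz
    have hk := key_identity hF hf hb hz' (lsummable hC hS' hz') S hSp hSn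
    have h5 : G z = LSeries (ac f) z := hGL z hz'
    rw [← h5] at hk
    rw [hP1, hP2]
    exact hk
  have h1re : (1 / 2 : ℝ) < (1 : ℂ).re := by norm_num
  refine ⟨G, P1, P2, hGd, fun s hs => hGL s hs, hP1d, hP2d, ?_, ?_, fun z => hEq (Set.mem_univ z)⟩
  · rw [hP1]
    exact Finset.prod_ne_zero_iff.2 fun p hp => Ef_ne hf (hSp p hp) h1re
  · rw [hP2]
    refine Finset.prod_ne_zero_iff.2 fun p hp => ?_
    split_ifs with hg
    · exact Df_ne hg h1re
    · exact one_ne_zero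

/-- an analytic function with `Λ(2 - s) = w Λ(s)` and order `m` at `1` -/
theorem parity_of {Λ : ℂ → ℂ} (hd : Differentiable ℂ Λ) {w : ℝ}
    (hfe : ∀ s : ℂ, Λ (2 - s) = (w : ℂ) * Λ s) {m : ℕ} (hm : analyticOrderAt Λ 1 = m) :
    w = (-1) ^ m := by
  obtain ⟨g, hg, hg1, hev⟩ := ((hd.analyticAt 1).analyticOrderAt_eq_natCast).1 hm
  have hr : Tendsto (fun s : ℂ => 2 - s) (𝓝 1) (𝓝 1) := by
    have : Tendsto (fun s : ℂ => 2 - s) (𝓝 1) (𝓝 (2 - 1)) := tendsto_const_nhds.sub tendsto_id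
    rwa [show (2 : ℂ) - 1 = 1 by norm_num] at this
  have h1 : ∀ᶠ s : ℂ in 𝓝 1, (s - 1) ^ m * ((-1) ^ m * g (2 - s)) = (s - 1) ^ m * ((w : ℂ) * g s) := by
    filter_upwards [hev, hr.eventually hev] with s h1 h2
    have h3 := hfe s
    rw [h1, h2] at h3
    simp only [smul_eq_mul] at h3
    rw [show (2 : ℂ) - s - 1 = (-1) * (s - 1) by ring, mul_pow] at h3
    linear_combination h3
  have h2 : ∀ᶠ s : ℂ in 𝓝[≠] 1, (-1) ^ m * g (2 - s) = (w : ℂ) * g s := by
    have h3 := h1.filter_mono (nhdsWithin_le_nhds (s := {1}ᶜ))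
    filter_upwards [h3, self_mem_nhdsWithin] with s h4 h5
    have h6 : s - 1 ≠ 0 := sub_ne_zero.2 h5
    exact mul_left_cancel₀ (pow_ne_zero m h6) h4
  have hc1 : Tendsto (fun s : ℂ => (-1) ^ m * g (2 - s)) (𝓝[≠] 1) (𝓝 ((-1) ^ m * g 1)) :=
    (tendsto_const_nhds.mul (hg.continuousAt.tendsto.comp hr)).mono_left nhdsWithin_le_nhds
  have hc2 : Tendsto (fun s : ℂ => (w : ℂ) * g s) (𝓝[≠] 1) (𝓝 ((w : ℂ) * g 1)) :=
    (tendsto_const_nhds.mul hg.continuousAt.tendsto).mono_left nhdsWithin_le_nhds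
  have h3 := tendsto_nhds_unique (hc1.congr' h2) hc2
  have h4 := mul_right_cancel₀ hg1 h3
  have h5 : (((-1 : ℝ) ^ m : ℝ) : ℂ) = (w : ℂ) := by push_cast; exact h4
  exact_mod_cast h5.symm

/-- **Parity.** The root number is `(-1)^m`, `m` the order of the incomplete `L`-series at `1`. -/
theorem parity (hΔ : 4 * a ^ 3 + 27 * b ^ 2 ≠ 0) (hF : IsLSeries a b F)
    {N : ℕ} [NeZero N] {f : CuspForm (Gamma0 N : Subgroup (GL (Fin 2) ℝ)) 2} {w : ℝ}
    (hf : Hecke f) (hb : Belongs a b f) (hf' : Pool.Agent.W169.HF.IsForm N f w)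
    {m : ℕ} (hm : analyticOrderAt F 1 = m) : w = (-1) ^ m := by
  obtain ⟨Λ, hΛ, hfe, -, -⟩ := Pool.Agent.W174.HF.nf1 N f w hf'
  obtain ⟨G0, P1, P2, hG, hL, hP1, hP2, h1, h2, hrel⟩ := rel_of hΔ hF hf hb
  have hN : 0 < (N : ℝ) := by exact_mod_cast Nat.pos_of_ne_zero (NeZero.ne N)
  have hc : ((Real.sqrt N / (2 * Real.pi) : ℝ) : ℂ) ≠ 0 := by
    have : 0 < Real.sqrt N / (2 * Real.pi) := by positivity
    exact_mod_cast this.ne'
  have e1 : analyticOrderAt P1 1 = 0 := (hP1.analyticAt 1).analyticOrderAt_eq_zero.2 h1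
  have e2 : analyticOrderAt P2 1 = 0 := (hP2.analyticAt 1).analyticOrderAt_eq_zero.2 h2
  have e3 : analyticOrderAt (F * P2) 1 = analyticOrderAt (G0 * P1) 1 := by
    congr 1
    funext z
    exact hrel z
  rw [analyticOrderAt_mul (hF.1.analyticAt 1) (hP2.analyticAt 1),
    analyticOrderAt_mul (hG.analyticAt 1) (hP1.analyticAt 1), e1, e2, add_zero, add_zero] at e3
  set K : ℂ → ℂ := fun s => ((Real.sqrt N / (2 * Real.pi) : ℝ) : ℂ) ^ s * Complex.Gamma s with hK
  have ho : IsOpen {z : ℂ | 0 < z.re} := isOpen_half 0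
  have h1m : (1 : ℂ) ∈ {z : ℂ | 0 < z.re} := by
    show (0 : ℝ) < (1 : ℂ).re
    norm_num
  have hKa : AnalyticAt ℂ K 1 := by
    refine DifferentiableOn.analyticAt (s := {z : ℂ | 0 < z.re}) (fun z hz => ?_) (ho.mem_nhds h1m)
    have hz' : 0 < z.re := hz
    refine DifferentiableAt.differentiableWithinAt ?_
    refine (differentiableAt_id.const_cpow (Or.inl hc)).mul ?_
    refine Complex.differentiableAt_Gamma z fun m h => ?_
    rw [h] at hz'
    simp at hz'
    have : (0 : ℝ) ≤ m := Nat.cast_nonneg m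
    linarith
  have hK1 : K 1 ≠ 0 := by
    rw [hK]
    refine mul_ne_zero ?_ ?_
    · rw [Complex.cpow_def_of_ne_zero hc]
      exact Complex.exp_ne_zero _
    · rw [Complex.Gamma_one]; exact one_ne_zero
  have e4 : analyticOrderAt Λ 1 = analyticOrderAt (K * G0) 1 := by
    refine analyticOrderAt_congr ?_
    filter_upwards [ho.mem_nhds h1m] with z hz
    rw [lam_eq hΛ hG hL hz]
    rfl
  rw [analyticOrderAt_mul hKa (hG.analyticAt 1), hKa.analyticOrderAt_eq_zero.2 hK1, zero_add, ← e3, hm] at e4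
  exact parity_of hΛ.1 hfe e4

end

end Pool.Agent.N739.EL
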