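import Pool.Agent.N739.EL.One2

/-!
# Slow variation
-/

set_option autoImplicit false

open MeasureTheory Filter Topology Set Classical
open Pool.Agent.W263.BSD

namespace Pool.Agent.N739.EL

open Pool.Agent.N739.LW (Dens DD DD_int DD_log)
open Pool.Agent.N739.LL (Dr LI Dr_LI Dr_norm)

noncomputable section

variable {a b : ℤ} {F : ℂ → ℂ}

/-- **The uniform convergence theorem of Karamata.** -/
theorem uct {f : ℝ → ℝ} (hf : Measurable f) (h : ∀ t, Tendsto (fun u => f (u + t) - f u) atTop (𝓝 0))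
    {R : ℝ} {ε : ℝ} (hε : 0 < ε) :
    ∀ᶠ u : ℝ in atTop, ∀ t ∈ Icc 0 R, |f (u + t) - f u| ≤ ε := by
  by_contra hcon
  rw [not_eventually] at hcon
  have hseq : ∀ n : ℕ, ∃ u : ℝ, (n : ℝ) ≤ u ∧ ∃ t ∈ Icc 0 R, ε < |f (u + t) - f u| := by
    intro n
    obtain ⟨u, h1, h2⟩ := (hcon.and_eventually (eventually_ge_atTop (n : ℝ))).exists
    push Not at h1
    exact ⟨u, h2, h1⟩
  choose u hu t ht hbad using hseq
  have hu1 : Tendsto u atTop atTop := tendsto_atTop_mono hu tendsto_natCast_atTop_atTop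
  have hu2 : Tendsto (fun n => u n + t n) atTop atTop :=
    tendsto_atTop_mono (fun n => by linarith [(ht n).1]) hu1
  set A : ℕ → Set ℝ := fun n => {s | s ∈ Icc (0 : ℝ) (R + 1) ∧ ε / 2 < |f (u n + s) - f (u n)|} with hA
  set B : ℕ → Set ℝ := fun n => {s | s ∈ Icc (0 : ℝ) 1 ∧ ε / 2 < |f (u n + t n + s) - f (u n + t n)|} with hB
  have hAm : ∀ n, MeasurableSet (A n) := by
    intro n
    refine measurableSet_Icc.inter ?_
    exact measurableSet_lt measurable_const (((hf.comp (measurable_const_add (u n))).sub_const _).abs)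
  have hBm : ∀ n, MeasurableSet (B n) := by
    intro n
    refine measurableSet_Icc.inter ?_
    exact measurableSet_lt measurable_const (((hf.comp (measurable_const_add (u n + t n))).sub_const _).abs)
  have hA0 : Tendsto (fun n => volume (A n)) atTop (𝓝 (volume (∅ : Set ℝ))) := by
    refine tendsto_measure_of_tendsto_indicator (B := Icc (0 : ℝ) (R + 1)) atTop hAm measurableSet_Icc
      (by simp) (Eventually.of_forall fun n s hs => hs.1) ?_
    intro s
    have h1 := ((h s).comp hu1).abs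
    rw [abs_zero] at h1
    filter_upwards [h1.eventually_lt_const (half_pos hε)] with n hn
    simp only [mem_empty_iff_false, iff_false]
    rintro ⟨-, h2⟩
    simp only [Function.comp] at hn
    linarith
  have hB0 : Tendsto (fun n => volume (B n)) atTop (𝓝 (volume (∅ : Set ℝ))) := by
    refine tendsto_measure_of_tendsto_indicator (B := Icc (0 : ℝ) 1) atTop hBm measurableSet_Icc
      (by simp) (Eventually.of_forall fun n s hs => hs.1) ?_
    intro s
    have h1 := ((h s).comp hu2).abs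
    rw [abs_zero] at h1
    filter_upwards [h1.eventually_lt_const (half_pos hε)] with n hn
    simp only [mem_empty_iff_false, iff_false]
    rintro ⟨-, h2⟩
    simp only [Function.comp] at hn
    linarith
  rw [measure_empty] at hA0 hB0
  have hq : (0 : ENNReal) < 1 / 2 := by simp
  obtain ⟨n, hn1, hn2⟩ := ((hA0.eventually_lt_const hq).and (hB0.eventually_lt_const hq)).exists
  -- a good shift
  have hgood : ∃ s ∈ Icc (0 : ℝ) 1, s ∉ B n ∧ t n + s ∉ A n := by
    by_contra hc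
    push Not at hc
    have hsub : Icc (0 : ℝ) 1 ⊆ B n ∪ (fun s => t n + s) ⁻¹' (A n) := by
      intro s hs
      by_cases h1 : s ∈ B n
      · exact Or.inl h1
      · exact Or.inr (hc s hs h1)
    have h1 : volume (Icc (0 : ℝ) 1) ≤ volume (B n) + volume ((fun s => t n + s) ⁻¹' (A n)) :=
      (measure_mono hsub).trans (measure_union_le _ _)
    rw [measure_preimage_add, Real.volume_Icc, sub_zero, ENNReal.ofReal_one] at h1
    have h2 : volume (B n) + volume (A n) < 1 / 2 + 1 / 2 := ENNReal.add_lt_add hn2 hn1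
    rw [ENNReal.add_halves] at h2
    exact absurd (h1.trans_lt h2) (lt_irrefl _)
  obtain ⟨s, hs, hs1, hs2⟩ := hgood
  have k1 : |f (u n + t n + s) - f (u n + t n)| ≤ ε / 2 := by
    by_contra hc
    exact hs1 ⟨hs, not_le.1 hc⟩
  have k2 : |f (u n + (t n + s)) - f (u n)| ≤ ε / 2 := by
    by_contra hc
    refine hs2 ⟨⟨by linarith [(ht n).1, hs.1], by linarith [(ht n).2, hs.2]⟩, not_le.1 hc⟩
  have e : u n + (t n + s) = u n + t n + s := by ring
  rw [e] at k2
  have k3 := hbad n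
  have k4 : f (u n + t n) - f (u n) = (f (u n + t n + s) - f (u n)) - (f (u n + t n + s) - f (u n + t n)) := by ring
  have k5 : |f (u n + t n) - f (u n)| ≤ |f (u n + t n + s) - f (u n)| + |f (u n + t n + s) - f (u n + t n)| := by
    rw [k4]
    exact abs_sub _ _
  linarith

/-- the Tauberian step -/
theorem taub {r : ℝ → ℝ} (hr : ∀ A B : ℝ, 4 ≤ A → 4 ≤ B → IntervalIntegrable r volume A B) {h B : ℝ}
    (hh : 0 < h) (ht : Tendsto (fun U => ∫ u in U..(U + h), |r u|) atTop (𝓝 0))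
    (hs : ∀ᶠ u : ℝ in atTop, ∀ t ∈ Icc u (u + h), r t ≤ r u + B) {δ : ℝ} (hδ : 0 < δ) :
    ∀ᶠ u : ℝ in atTop, |r u| ≤ B + δ := by
  have h1 := ht.eventually_lt_const (show 0 < δ * h by positivity)
  have h2 : ∀ᶠ u : ℝ in atTop, ∫ v in (u - h)..(u - h + h), |r v| < δ * h :=
    (tendsto_atTop_add_const_right atTop (-h) tendsto_id).eventually h1
  obtain ⟨u₀, hu₀⟩ := hs.exists_forall_of_atTop
  filter_upwards [h1, h2, eventually_ge_atTop (u₀ + h), eventually_ge_atTop (4 + h), hs] with u k1 k2 k3 k4 k5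
  rw [sub_add_cancel] at k2
  have i1 := (hr (u - h) u (by linarith) (by linarith)).abs
  have i2 := (hr u (u + h) (by linarith) (by linarith)).abs
  rw [abs_le]
  constructor
  · have m1 : ∫ v in u..(u + h), (-r u - B) ≤ ∫ v in u..(u + h), |r v| := by
      apply intervalIntegral.integral_mono_on (by linarith) intervalIntegrable_const i2
      intro t ht
      have := k5 t ht
      have := neg_abs_le (r t)
      linarith
    rw [intervalIntegral.integral_const, smul_eq_mul, add_sub_cancel_left] at m1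
    nlinarith
  · have m1 : ∫ v in (u - h)..u, (r u - B) ≤ ∫ v in (u - h)..u, |r v| := by
      apply intervalIntegral.integral_mono_on (by linarith) intervalIntegrable_const i1
      intro t ht
      have := hu₀ t (by linarith [ht.1]) u ⟨ht.2, by linarith [ht.1]⟩
      have := le_abs_self (r t)
      linarith
    rw [intervalIntegral.integral_const, smul_eq_mul, sub_sub_cancel] at m1
    nlinarith

/-- the real summatory function of `log (N_p / p)` -/
def Sr (a b : ℤ) (u : ℝ) : ℝ := (DD (fc (SS a b) (Ap a b)) u).re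

theorem Sr_LI (a b : ℤ) : LI (Sr a b) := fun x y => ⟨(DD_int _ x y).1.re, (DD_int _ x y).2.re⟩

theorem logP_Sr (a b : ℤ) : ∃ c₀ : ℝ, ∀ u : ℝ, 4 ≤ u →
    Real.log (bsdProduct a b (Real.exp u)) = Sr a b u + c₀ := by
  obtain ⟨c₀, h⟩ := log_prod a b
  refine ⟨c₀, fun u hu => ?_⟩
  have h1 := congrArg Complex.re (h u hu)
  rw [Complex.ofReal_re, Complex.add_re, Complex.ofReal_re] at h1
  exact h1

theorem Dr_Sr {u : ℝ} (hu : 0 ≤ u) : Dr (AA a b) u = u * Sr a b u - ∫ v in (0 : ℝ)..u, Sr a b v := by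
  have h1 := congrArg Complex.re (DD_log (f := fc (SS a b) (Ap a b)) (u := u) hu)
  have h2 : (∫ v in (0 : ℝ)..u, DD (fc (SS a b) (Ap a b)) v).re = ∫ v in (0 : ℝ)..u, Sr a b v := by
    have := intervalIntegral.intervalIntegral_re (𝕜 := ℂ) (DD_int (fc (SS a b) (Ap a b)) 0 u)
    simpa [Sr] using this.symm
  rw [Complex.sub_re, Complex.re_ofReal_mul, h2] at h1
  exact h1

/-- the increments of `D` are bounded by those of `S` -/
theorem incr_le {s : ℝ} {u v K : ℝ} (hu : 0 ≤ u) (huv : u ≤ v)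
    (h : ∀ u' v' : ℝ, u ≤ u' → u' ≤ v' → v' ≤ v → s * (Sr a b v' - Sr a b u') ≤ K) :
    s * (Dr (AA a b) v - Dr (AA a b) u) ≤ v * K := by
  have hS := Sr_LI a b
  have e1 : Dr (AA a b) v - Dr (AA a b) u = u * (Sr a b v - Sr a b u) +
      ∫ t in u..v, (Sr a b v - Sr a b t) := by
    rw [Dr_Sr (hu.trans huv), Dr_Sr hu, intervalIntegral.integral_sub intervalIntegrable_const (hS _ _),
      intervalIntegral.integral_const, smul_eq_mul,
      ← intervalIntegral.integral_add_adjacent_intervals (hS 0 u) (hS u v)]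
    ring
  have e2 : s * (Dr (AA a b) v - Dr (AA a b) u) = u * (s * (Sr a b v - Sr a b u)) +
      ∫ t in u..v, s * (Sr a b v - Sr a b t) := by
    rw [e1, intervalIntegral.integral_const_mul]
    ring
  have h1 : u * (s * (Sr a b v - Sr a b u)) ≤ u * K :=
    mul_le_mul_of_nonneg_left (h u v le_rfl huv le_rfl) hu
  have h2 : ∫ t in u..v, s * (Sr a b v - Sr a b t) ≤ ∫ t in u..v, K := by
    apply intervalIntegral.integral_mono_on huv
      (((intervalIntegrable_const (μ := volume)).sub (hS _ _)).const_mul _) intervalIntegrable_const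
    intro t ht
    exact h t v ht.1 ht.2 le_rfl
  rw [intervalIntegral.integral_const, smul_eq_mul] at h2
  rw [e2]
  have : v * K = u * K + (v - u) * K := by ring
  linarith

/-- conversion of the increments -/
theorem incr_conv {β R s : ℝ} (hR : 0 < R)
    (h : ∀ ε : ℝ, 0 < ε → ∀ᶠ U : ℝ in atTop, ∃ u v : ℝ, U ≤ u ∧ u ≤ v ∧ v ≤ U + R ∧
      Real.exp ((β - ε) * U) ≤ s * (Dr (AA a b) v - Dr (AA a b) u)) {ε : ℝ} (hε : 0 < ε) :
    ∀ᶠ U : ℝ in atTop, ∃ u v : ℝ, U ≤ u ∧ u ≤ v ∧ v ≤ U + R ∧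
      Real.exp ((β - ε) * U) ≤ s * (Sr a b v - Sr a b u) := by
  filter_upwards [h (ε / 2) (half_pos hε), ev_exp (A := 2) (R := R) (half_pos hε),
    eventually_ge_atTop (0 : ℝ)] with U h1 h2 h3
  obtain ⟨u, v, k1, k2, k3, k4⟩ := h1
  by_contra hcon
  push Not at hcon
  have hK := Real.exp_pos ((β - ε) * U)
  have h4 := incr_le (a := a) (b := b) (K := Real.exp ((β - ε) * U)) (h3.trans k1) k2
    fun u' v' a1 a2 a3 => (hcon u' v' (k1.trans a1) a2 (a3.trans k3)).le
  have h5 : v * Real.exp ((β - ε) * U) ≤ (U + R) * Real.exp ((β - ε) * U) := by gcongr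
  have h6 : (U + R) * 2 * Real.exp ((β - ε) * U) ≤ Real.exp (ε / 2 * U) * Real.exp ((β - ε) * U) := by gcongr
  have h7 : Real.exp (ε / 2 * U) * Real.exp ((β - ε) * U) = Real.exp ((β - ε / 2) * U) := by
    rw [← Real.exp_add]; congr 1; ring
  have h8 : 0 < (U + R) * Real.exp ((β - ε) * U) := by positivity
  linarith

/-- **Every window contains a large increase of `P`.** -/
theorem incrP (hF : IsLSeries a b F)
    (hgr : ∃ C : ℝ, ∀ s : ℂ, 0 < s.re → ‖PhiF a b F s‖ ≤ C * (1 + ‖s‖) * (1 + 1 / s.re) ^ 2)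
    (hdens : Dens (PhiF a b F)) {s₀ : ℂ} (hz : F s₀ = 0) (hs : 1 < s₀.re) :
    ∃ C : ℝ, 1 < C ∧ ∀ ε : ℝ, 0 < ε → ∀ᶠ X : ℝ in atTop, ∃ x y : ℝ, X ≤ x ∧ x ≤ y ∧ y ≤ C * X ∧
      Real.exp (X ^ (s₀.re - 1 - ε)) * bsdProduct a b x ≤ bsdProduct a b y := by
  have h := inst hF hgr
  have hre : (s₀ - 1).re = s₀.re - 1 := by simp
  have hβ : 0 < (s₀ - 1).re := by rw [hre]; linarith
  obtain ⟨R, hR, h1⟩ := LL.LG.incr h hdens AA_real (gz hz) hβ (beta_half hF hz)
  rw [hre] at h1
  refine ⟨Real.exp R, Real.one_lt_exp_iff.2 hR, fun ε hε => ?_⟩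
  have h2 := incr_conv (a := a) (b := b) (β := s₀.re - 1) (s := 1) hR (fun ε hε => by
    filter_upwards [h1 ε hε] with U hU
    obtain ⟨u, v, k1, k2, k3, k4⟩ := hU
    refine ⟨u, v, k1, k2, k3, ?_⟩
    rw [one_mul]
    exact k4) hε
  obtain ⟨c₀, hc₀⟩ := logP_Sr a b
  filter_upwards [Real.tendsto_log_atTop.eventually h2, eventually_ge_atTop (Real.exp 4)] with X h3 h4
  obtain ⟨u, v, k1, k2, k3, k4⟩ := h3
  have hX0 : 0 < X := (Real.exp_pos _).trans_le h4
  have hl : 4 ≤ Real.log X := by rwa [Real.le_log_iff_exp_le hX0]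
  refine ⟨Real.exp u, Real.exp v, ?_, Real.exp_le_exp.2 k2, ?_, ?_⟩
  · rwa [← Real.log_le_iff_le_exp hX0]
  · calc Real.exp v ≤ Real.exp (Real.log X + R) := Real.exp_le_exp.2 k3
      _ = Real.exp R * X := by rw [Real.exp_add, Real.exp_log hX0]; ring
  · have hPu := bsdProduct_pos (a := a) (b := b) (Real.exp u)
    have hPv := bsdProduct_pos (a := a) (b := b) (Real.exp v)
    rw [← Real.log_le_log_iff (by positivity) hPv, Real.log_mul (Real.exp_pos _).ne' hPu.ne', Real.log_exp,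
      hc₀ u (by linarith), hc₀ v (by linarith), rpow_exp hX0]
    linarith

/-- **Every window contains a large decrease of `P`**, without real zeros -/
theorem decrP (hF : IsLSeries a b F)
    (hgr : ∃ C : ℝ, ∀ s : ℂ, 0 < s.re → ‖PhiF a b F s‖ ≤ C * (1 + ‖s‖) * (1 + 1 / s.re) ^ 2)
    (hdens : Dens (PhiF a b F)) (hreal : ∀ x : ℝ, 1 < x → F x ≠ 0) {s₀ : ℂ} (hz : F s₀ = 0) (hs : 1 < s₀.re) :
    ∃ C : ℝ, 1 < C ∧ ∀ ε : ℝ, 0 < ε → ∀ᶠ X : ℝ in atTop, ∃ x y : ℝ, X ≤ x ∧ x ≤ y ∧ y ≤ C * X ∧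
      Real.exp (X ^ (s₀.re - 1 - ε)) * bsdProduct a b y ≤ bsdProduct a b x := by
  have h := inst hF hgr
  have hre : (s₀ - 1).re = s₀.re - 1 := by simp
  have hβ : 0 < (s₀ - 1).re := by rw [hre]; linarith
  have hG : ∀ x : ℝ, 0 < x → PhiF a b F x ≠ 0 := by
    intro x hx h0
    unfold PhiF at h0
    rcases mul_eq_zero.1 h0 with h1 | h1
    · refine hreal (1 + x) (by linarith) ?_
      rw [← h1]
      push_cast
      rfl
    · exact small_ne_zero_real hx.le h1
  obtain ⟨R, hR, h1⟩ := LL.LG.decr h hdens AA_real hG (gz hz) hβ (beta_half hF hz)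
  rw [hre] at h1
  refine ⟨Real.exp R, Real.one_lt_exp_iff.2 hR, fun ε hε => ?_⟩
  have h2 := incr_conv (a := a) (b := b) (β := s₀.re - 1) (s := -1) hR (fun ε hε => by
    filter_upwards [h1 ε hε] with U hU
    obtain ⟨u, v, k1, k2, k3, k4⟩ := hU
    refine ⟨u, v, k1, k2, k3, ?_⟩
    rw [neg_one_mul, neg_sub]
    exact k4) hε
  obtain ⟨c₀, hc₀⟩ := logP_Sr a b
  filter_upwards [Real.tendsto_log_atTop.eventually h2, eventually_ge_atTop (Real.exp 4)] with X h3 h4
  obtain ⟨u, v, k1, k2, k3, k4⟩ := h3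
  have hX0 : 0 < X := (Real.exp_pos _).trans_le h4
  have hl : 4 ≤ Real.log X := by rwa [Real.le_log_iff_exp_le hX0]
  refine ⟨Real.exp u, Real.exp v, ?_, Real.exp_le_exp.2 k2, ?_, ?_⟩
  · rwa [← Real.log_le_iff_le_exp hX0]
  · calc Real.exp v ≤ Real.exp (Real.log X + R) := Real.exp_le_exp.2 k3
      _ = Real.exp R * X := by rw [Real.exp_add, Real.exp_log hX0]; ring
  · have hPu := bsdProduct_pos (a := a) (b := b) (Real.exp u)
    have hPv := bsdProduct_pos (a := a) (b := b) (Real.exp v)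
    rw [← Real.log_le_log_iff (by positivity) hPu, Real.log_mul (Real.exp_pos _).ne' hPv.ne', Real.log_exp,
      hc₀ u (by linarith), hc₀ v (by linarith), rpow_exp hX0]
    linarith

end

end Pool.Agent.N739.EL
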