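import Pool.Agent.N739.EL.Slow

/-!
# Slow variation: the criteria
-/

set_option autoImplicit false

open MeasureTheory Filter Topology Set Classical
open Pool.Agent.W263.BSD

namespace Pool.Agent.N739.EL

open Pool.Agent.N739.LW (Dens DD DD_int DD_log)
open Pool.Agent.N739.LL (Dr LI Dr_LI Dr_norm)

noncomputable section

variable {a b : ℤ} {F : ℂ → ℂ} {l : Filter ℝ}

/-- the points `x` of the windows `[X/C, C X]` -/
def NearW (l : Filter ℝ) (φ : ℝ → ℝ) (B : ℝ) : Prop :=
  ∀ C : ℝ, 1 < C → ∀ᶠ X in l, ∀ x : ℝ, X / C ≤ x → x ≤ C * X → |φ x| ≤ B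

/-- the pairs `x ≤ y ≤ q x` of the windows `[X/C, C X]` -/
def PairW (l : Filter ℝ) (q : ℝ) (Q : ℝ → ℝ → Prop) : Prop :=
  ∀ C : ℝ, 1 < C → ∀ᶠ X in l, ∀ x y : ℝ, X / C ≤ x → x ≤ y → y ≤ q * x → y ≤ C * X → Q x y

/-- Goldfeld's constant -/
def Tc (F : ℂ → ℂ) (m : ℕ) : ℝ :=
  √2 * Real.exp (m * Real.eulerMascheroniConstant) * (m.factorial : ℝ) / ‖iteratedDeriv m F 1‖

/-! ### the Tauberian step -/

theorem tl {r : ℝ → ℝ} (hr : ∀ A B : ℝ, 4 ≤ A → 4 ≤ B → IntervalIntegrable r volume A B) {h : ℝ}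
    (hh : 0 < h) (ht : Tendsto (fun U => ∫ u in U..(U + h), |r u|) atTop (𝓝 0)) {δ : ℝ} (hδ : 0 < δ) :
    ∀ᶠ u : ℝ in atTop, ∀ B : ℝ, ((∀ t ∈ Icc u (u + h), r t ≤ r u + B) → -(B + δ) ≤ r u) ∧
      ((∀ t ∈ Icc (u - h) u, r u ≤ r t + B) → r u ≤ B + δ) := by
  have h1 := ht.eventually_lt_const (show 0 < δ * h by positivity)
  have h2 : ∀ᶠ u : ℝ in atTop, ∫ v in (u - h)..(u - h + h), |r v| < δ * h :=
    (tendsto_atTop_add_const_right atTop (-h) tendsto_id).eventually h1
  filter_upwards [h1, h2, eventually_ge_atTop (4 + h)] with u k1 k2 k4 B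
  rw [sub_add_cancel] at k2
  have i1 := (hr (u - h) u (by linarith) (by linarith)).abs
  have i2 := (hr u (u + h) (by linarith) (by linarith)).abs
  constructor
  · intro k5
    have m1 : ∫ v in u..(u + h), (-r u - B) ≤ ∫ v in u..(u + h), |r v| := by
      apply intervalIntegral.integral_mono_on (by linarith) intervalIntegrable_const i2
      intro t ht
      have := k5 t ht
      have := neg_abs_le (r t)
      linarith
    rw [intervalIntegral.integral_const, smul_eq_mul, add_sub_cancel_left] at m1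
    nlinarith
  · intro k5
    have m1 : ∫ v in (u - h)..u, (r u - B) ≤ ∫ v in (u - h)..u, |r v| := by
      apply intervalIntegral.integral_mono_on (by linarith) intervalIntegrable_const i1
      intro t ht
      have := k5 t ht
      have := le_abs_self (r t)
      linarith
    rw [intervalIntegral.integral_const, smul_eq_mul, sub_sub_cancel] at m1
    nlinarith

theorem near_abs {φ : ℝ → ℝ}
    (hr : ∀ A B : ℝ, 4 ≤ A → 4 ≤ B → IntervalIntegrable (fun u => φ (Real.exp u)) volume A B) {q : ℝ}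
    (hq : 1 < q) (ht : Tendsto (fun U => ∫ u in U..(U + Real.log q), |φ (Real.exp u)|) atTop (𝓝 0))
    (hl : l ≤ atTop) {B : ℝ} (h : PairW l q fun x y => φ y ≤ φ x + B) {δ : ℝ} (hδ : 0 < δ) :
    NearW l φ (B + δ) := by
  intro C hC
  have hh : 0 < Real.log q := Real.log_pos hq
  have hq0 : 0 < q := by linarith
  obtain ⟨U₀, hU₀⟩ := (tl hr hh ht hδ).exists_forall_of_atTop
  have hC0 : 0 < C := by linarith
  have hqC : 1 < q * C := by nlinarith
  filter_upwards [h (q * C) hqC, hl (eventually_ge_atTop (C * Real.exp U₀)), hl (eventually_gt_atTop 0)]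
    with X h1 h2 h3 x hx1 hx2
  have hx0 : 0 < x := (by positivity : 0 < X / C).trans_le hx1
  have hxU : Real.exp U₀ ≤ x := by
    refine le_trans ?_ hx1
    rwa [le_div_iff₀ hC0, mul_comm]
  have hu : U₀ ≤ Real.log x := by rwa [Real.le_log_iff_exp_le hx0]
  obtain ⟨k1, k2⟩ := hU₀ _ hu B
  rw [Real.exp_log hx0] at k1 k2
  have e1 : X / (q * C) = X / C / q := by rw [div_div, mul_comm]
  have e2 : X / (q * C) ≤ x := by
    rw [e1]
    refine le_trans ?_ hx1
    exact div_le_self (by positivity) hq.le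
  have hcx : 0 < C * X := by positivity
  rw [abs_le]
  refine ⟨k1 fun t ht => ?_, k2 fun t ht => ?_⟩
  · have t1 : x ≤ Real.exp t := by
      rw [← Real.log_le_iff_le_exp hx0]; exact ht.1
    have t2 : Real.exp t ≤ q * x := by
      calc Real.exp t ≤ Real.exp (Real.log x + Real.log q) := Real.exp_le_exp.2 ht.2
        _ = q * x := by rw [Real.exp_add, Real.exp_log hx0, Real.exp_log hq0]; ring
    refine h1 x _ e2 t1 t2 ?_
    calc Real.exp t ≤ q * x := t2
      _ ≤ q * (C * X) := by gcongr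
      _ = q * C * X := by ring
  · have t1 : Real.exp t ≤ x := by
      rw [← Real.le_log_iff_exp_le hx0]; exact ht.2
    have t2 : x ≤ q * Real.exp t := by
      calc x = q * Real.exp (Real.log x - Real.log q) := by
            rw [Real.exp_sub, Real.exp_log hx0, Real.exp_log hq0]; field_simp
        _ ≤ q * Real.exp t := by
          gcongr
          exact ht.1
    refine h1 _ x ?_ t1 t2 ?_
    · rw [e1, div_le_iff₀ hq0, mul_comm]
      exact hx1.trans t2
    · calc x ≤ C * X := hx2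
        _ ≤ q * (C * X) := by nlinarith
        _ = q * C * X := by ring

/-! ### iterated logarithms on windows -/

theorem loglog {C : ℝ} (hC : 1 < C) {δ : ℝ} (hδ : 0 < δ) :
    ∀ᶠ X : ℝ in atTop, ∀ x y : ℝ, X / C ≤ x → x ≤ y → y ≤ C * X → Real.exp 1 ≤ x ∧
      0 ≤ Real.log (Real.log y) - Real.log (Real.log x) ∧
      Real.log (Real.log y) - Real.log (Real.log x) ≤ δ := by
  have hC0 : 0 < C := by linarith
  have hlC : 0 < Real.log C := Real.log_pos hC
  filter_upwards [Real.tendsto_log_atTop.eventually (eventually_ge_atTop (1 + Real.log C + 2 * Real.log C / δ)),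
    eventually_gt_atTop (0 : ℝ)] with X h1 h2 x y hx hxy hy
  have hx0 : 0 < x := (by positivity : 0 < X / C).trans_le hx
  have hy0 : 0 < y := hx0.trans_le hxy
  have h3 : Real.log X - Real.log C ≤ Real.log x := by
    rw [← Real.log_div h2.ne' hC0.ne']
    exact Real.log_le_log (by positivity) hx
  have h4 : Real.log y ≤ Real.log X + Real.log C := by
    rw [add_comm, ← Real.log_mul hC0.ne' h2.ne']
    exact Real.log_le_log hy0 hy
  have h5 : 0 < 2 * Real.log C / δ := by positivity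
  have h6 : 1 ≤ Real.log x := by linarith
  have h7 : Real.log x ≤ Real.log y := Real.log_le_log hx0 hxy
  refine ⟨by rwa [← Real.le_log_iff_exp_le hx0], ?_, ?_⟩
  · rw [sub_nonneg]
    exact Real.log_le_log (by linarith) h7
  · rw [← Real.log_div (by linarith) (by linarith)]
    have h8 : Real.log y / Real.log x - 1 ≤ δ := by
      rw [div_sub_one (by linarith), div_le_iff₀ (by linarith)]
      have h9 : 2 * Real.log C / δ ≤ Real.log x := by linarith
      rw [div_le_iff₀ hδ] at h9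
      linarith
    exact (Real.log_le_sub_one_of_pos (div_pos (by linarith) (by linarith))).trans h8

theorem dev_incr {A ρ x y : ℝ} (hA : 0 < A) (hx : Real.exp 1 ≤ x) (hy : Real.exp 1 ≤ y) :
    dev a b A ρ y - dev a b A ρ x = (Real.log (bsdProduct a b y) - Real.log (bsdProduct a b x)) -
      ρ * (Real.log (Real.log y) - Real.log (Real.log x)) := by
  rw [dev_eq hA hx, dev_eq hA hy]
  ring

theorem pair_dev (hl : l ≤ atTop) {A ρ B : ℝ} (hA : 0 < A) (h : NearW l (dev a b A ρ) B) (q : ℝ) {K : ℝ}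
    (hK : Real.exp (2 * B) < K) :
    PairW l q (fun x y => bsdProduct a b y ≤ K * bsdProduct a b x ∧ bsdProduct a b x ≤ K * bsdProduct a b y) := by
  have hK0 : 0 < K := (Real.exp_pos _).trans hK
  have hd : 0 < Real.log K - 2 * B := by
    have := Real.log_lt_log (Real.exp_pos _) hK
    rw [Real.log_exp] at this
    linarith
  intro C hC
  have hδ : 0 < (Real.log K - 2 * B) / (|ρ| + 1) := by positivity
  filter_upwards [h C hC, hl (loglog hC hδ)] with X h1 h2 x y hx hxy _ hy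
  obtain ⟨h3, h4, h5⟩ := h2 x y hx hxy hy
  have h6 := dev_incr (a := a) (b := b) (ρ := ρ) hA h3 (h3.trans hxy)
  have h7 := abs_le.1 (h1 x hx (hxy.trans hy))
  have h8 := abs_le.1 (h1 y (hx.trans hxy) hy)
  have h9 : |ρ * (Real.log (Real.log y) - Real.log (Real.log x))| ≤ Real.log K - 2 * B := by
    rw [abs_mul, abs_of_nonneg h4]
    rw [le_div_iff₀ (by positivity)] at h5
    have : 0 ≤ |ρ| := abs_nonneg ρ
    nlinarith
  have h10 := abs_le.1 h9
  have hPx := bsdProduct_pos (a := a) (b := b) x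
  have hPy := bsdProduct_pos (a := a) (b := b) y
  constructor
  · rw [← Real.log_le_log_iff hPy (by positivity), Real.log_mul hK0.ne' hPx.ne']
    linarith
  · rw [← Real.log_le_log_iff hPx (by positivity), Real.log_mul hK0.ne' hPy.ne']
    linarith

/-! ### chains -/

theorem chain {P : ℝ → ℝ} {q K x y : ℝ} (hq : 1 < q) (hx : 0 < x) (hxy : x ≤ y) (hK : 0 ≤ K)
    (h : ∀ x' y' : ℝ, x ≤ x' → x' ≤ y' → y' ≤ q * x' → y' ≤ y → P y' ≤ K * P x') :
    ∀ i : ℕ, P (min (q ^ i * x) y) ≤ K ^ i * P x := by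
  intro i
  induction i with
  | zero => simp [min_eq_left hxy]
  | succ i ih =>
    have hi : 1 ≤ q ^ i := one_le_pow₀ hq.le
    have h0 : 0 < q ^ i * x := by positivity
    have h1 : x ≤ min (q ^ i * x) y := le_min (by nlinarith) hxy
    have h2 : min (q ^ i * x) y ≤ min (q ^ (i + 1) * x) y := by
      apply min_le_min_right
      rw [pow_succ]
      nlinarith
    have h3 : min (q ^ (i + 1) * x) y ≤ q * min (q ^ i * x) y := by
      rw [mul_min_of_nonneg _ _ (by linarith : 0 ≤ q)]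
      apply min_le_min
      · rw [pow_succ]; linarith [mul_comm (q ^ i) q]
      · nlinarith
    have h4 := h _ _ h1 h2 h3 (min_le_right _ _)
    calc P (min (q ^ (i + 1) * x) y) ≤ K * P (min (q ^ i * x) y) := h4
      _ ≤ K * (K ^ i * P x) := by gcongr
      _ = K ^ (i + 1) * P x := by ring

theorem chain_all {P : ℝ → ℝ} {q K x y : ℝ} (hq : 1 < q) (hx : 0 < x) (hxy : x ≤ y) (hK : 0 ≤ K)
    (h : ∀ x' y' : ℝ, x ≤ x' → x' ≤ y' → y' ≤ q * x' → y' ≤ y → P y' ≤ K * P x') {k : ℕ}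
    (hk : y ≤ q ^ k * x) : P y ≤ K ^ k * P x := by
  have h1 := chain hq hx hxy hK h k
  rwa [min_eq_right hk] at h1

/-- pairs at bounded distance are enough -/
theorem pair_all (hl : l ≤ atTop) [l.NeBot] {P : ℝ → ℝ} (hP : ∀ x, 0 < P x) {q K : ℝ} (hq : 1 < q)
    (h : PairW l q fun x y => P y ≤ K * P x) {C : ℝ} (hC : 1 < C) {k : ℕ} (hk : C ^ 2 ≤ q ^ k) :
    ∀ᶠ X in l, ∀ x y : ℝ, X / C ≤ x → x ≤ y → y ≤ C * X → P y ≤ K ^ k * P x := by
  have hC0 : 0 < C := by linarith
  have hK : 1 ≤ K := by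
    obtain ⟨X, h1, h2⟩ := ((h C hC).and (hl (eventually_gt_atTop 0))).exists
    have h3 : X / C ≤ X := div_le_self h2.le hC.le
    have h4 := h1 X X h3 le_rfl (by nlinarith) (by nlinarith)
    have := hP X
    by_contra hcon
    push Not at hcon
    nlinarith
  filter_upwards [h C hC, hl (eventually_gt_atTop 0)] with X h1 h2 x y hx hxy hy
  have hx0 : 0 < x := (by positivity : 0 < X / C).trans_le hx
  refine chain_all hq hx0 hxy (by linarith) (fun x' y' k1 k2 k3 k4 => h1 x' y' (hx.trans k1) k2 k3 (k4.trans hy)) ?_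
  rw [div_le_iff₀ hC0] at hx
  calc y ≤ C * X := hy
    _ ≤ C * (x * C) := by gcongr
    _ = C ^ 2 * x := by ring
    _ ≤ q ^ k * x := by gcongr

/-! ### the law -/

theorem law_T (hΔ : 4 * a ^ 3 + 27 * b ^ 2 ≠ 0) (hF : IsLSeries a b F)
    (hrs : Tendsto (rsSum a b) atTop (𝓝 0)) {η C₀ : ℝ} {κ : ℕ} (hη : 0 < η)
    (hg : ∀ s : ℂ, 1 - η < s.re → ‖F s‖ ≤ C₀ * (1 + ‖s‖) ^ κ) {m : ℕ} (hm : analyticOrderAt F 1 = m)
    (hnz : NoZ F) :
    0 < Tc F m ∧ Tendsto (fun X => wm (dev a b (Tc F m) m) 0 X) atTop (𝓝 0) := by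
  obtain ⟨C₁, hC₁, hlead, ht⟩ := law hΔ hF hrs hη hg hm hnz
  have hfac : (0 : ℝ) < (m.factorial : ℝ) := by exact_mod_cast m.factorial_pos
  have h1 := congrArg (fun z : ℂ => ‖z‖) hlead
  simp only [norm_div, Complex.norm_natCast, Complex.norm_real, Real.norm_eq_abs] at h1
  rw [abs_of_pos (by positivity), div_eq_iff hfac.ne', abs_of_pos hC₁] at h1
  have h2 : Tc F m = C₁ := by
    unfold Tc
    rw [h1]
    field_simp
  rw [h2]
  exact ⟨hC₁, ht⟩

theorem Sr_eq {C₁ : ℝ} (hC₁ : 0 < C₁) {m : ℝ} : ∃ k : ℝ, ∀ u : ℝ, 4 ≤ u →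
    Sr a b u = dev a b C₁ m (Real.exp u) + (k + m * Real.log u) := by
  obtain ⟨c₀, h⟩ := logP_Sr a b
  refine ⟨Real.log C₁ - c₀, fun u hu => ?_⟩
  rw [dev_eq hC₁ (Real.exp_le_exp.2 (by linarith)), Real.log_exp, h u hu]
  ring

theorem dexp_int {C₁ : ℝ} (hC₁ : 0 < C₁) {m : ℝ} {A B : ℝ} (hA : 4 ≤ A) (hB : 4 ≤ B) :
    IntervalIntegrable (fun u => dev a b C₁ m (Real.exp u)) volume A B := by
  obtain ⟨k, hk⟩ := Sr_eq (a := a) (b := b) hC₁ (m := m)
  have hlogc : IntervalIntegrable (fun u => k + m * Real.log u) volume A B := by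
    apply ContinuousOn.intervalIntegrable
    intro x hx
    have hx4 : 4 ≤ x := (le_min hA hB).trans hx.1
    exact (continuousAt_const.add ((Real.continuousAt_log (by linarith)).const_mul _)).continuousWithinAt
  refine ((Sr_LI a b A B).sub hlogc).congr ?_
  intro u hu
  have hu4 : 4 ≤ u := by
    rw [Set.mem_uIoc] at hu
    rcases hu with h | h <;> linarith [h.1]
  simp only
  rw [hk u hu4]
  ring

theorem law_win (hΔ : 4 * a ^ 3 + 27 * b ^ 2 ≠ 0) (hF : IsLSeries a b F)
    (hrs : Tendsto (rsSum a b) atTop (𝓝 0)) {η C₀ : ℝ} {κ : ℕ} (hη : 0 < η)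
    (hg : ∀ s : ℂ, 1 - η < s.re → ‖F s‖ ≤ C₀ * (1 + ‖s‖) ^ κ) {m : ℕ} (hm : analyticOrderAt F 1 = m)
    (hnz : NoZ F) :
    0 < Tc F m ∧ ∀ R : ℝ, 0 ≤ R →
      Tendsto (fun U => ∫ u in U..(U + R), |dev a b (Tc F m) m (Real.exp u)|) atTop (𝓝 0) := by
  obtain ⟨hT, ht⟩ := law_T hΔ hF hrs hη hg hm hnz
  refine ⟨hT, fun R hR => ?_⟩
  have hwin : Tendsto (fun U => ∫ u in U..(U + 1 / 2), |dev a b (Tc F m) m (Real.exp u)|) atTop (𝓝 0) := by
    have h1 : Tendsto (fun U : ℝ => wm (dev a b (Tc F m) m) 0 (Real.exp U)) atTop (𝓝 0) :=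
      ht.comp Real.tendsto_exp_atTop
    refine squeeze_zero' ?_ ?_ h1
    · filter_upwards [] with U
      exact intervalIntegral.integral_nonneg (by linarith) fun u _ => abs_nonneg _
    · filter_upwards [eventually_ge_atTop (4 : ℝ)] with U hU
      have h2 := wm_lower (φ := dev a b (Tc F m) m) (κ := 0) (U := U) le_rfl (by linarith)
        (fun A B hA hB => dev_int hT hA hB) (by
          simp only [neg_zero, Real.rpow_zero]
          exact dexp_int hT hU (by linarith))
      simp only [neg_zero, Real.rpow_zero] at h2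
      exact h2
  exact win_all (fun A B hA hB => (dexp_int hT hA hB).abs) (fun u => abs_nonneg _) (by norm_num) hwin hR

end

end Pool.Agent.N739.EL
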