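import Pool.Agent.N739.EL.Slow2

/-!
# Slow variation: the criteria
-/

set_option autoImplicit false

open MeasureTheory Filter Topology Set Classical
open Pool.Agent.W263.BSD

namespace Pool.Agent.N739.EL

open Pool.Agent.N739.LW (Dens DD DD_int DD_log)
open Pool.Agent.N739.LL (Dr LI Dr_LI Dr_norm)

noncomputable section

variable {a b : ℤ} {F : ℂ → ℂ} {l : Filter ℝ}

/-- no real zeros to the right of the centre -/
def NoR (F : ℂ → ℂ) : Prop := ∀ s : ℝ, 1 < s → F s ≠ 0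

theorem NoZ.noR (h : NoZ F) : NoR F := fun s hs => h s (by simpa using hs)

theorem exp_big {e K : ℝ} (he : 0 < e) : ∀ᶠ X : ℝ in atTop, K < Real.exp (X ^ e) :=
  (Real.tendsto_exp_atTop.comp (tendsto_rpow_atTop he)).eventually_gt_atTop K

theorem exists_pow_ge {q M : ℝ} (hq : 1 < q) : ∃ k : ℕ, M ≤ q ^ k := by
  obtain ⟨k, hk⟩ := pow_unbounded_of_one_lt M hq
  exact ⟨k, hk.le⟩

theorem lev (hl : l ≤ atTop) {p : ℝ → Prop} (h : ∀ᶠ X in atTop, p X) : ∀ᶠ X in l, p X := hl h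

/-- all the facts used about the curve -/
structure Facts (a b : ℤ) (F : ℂ → ℂ) (m : ℕ) : Prop where
  order : analyticOrderAt F 1 = m
  up : ∀ s₀ : ℂ, F s₀ = 0 → 1 < s₀.re → ∃ C : ℝ, 1 < C ∧ ∀ ε : ℝ, 0 < ε → ∀ᶠ X : ℝ in atTop,
    ∃ x y : ℝ, X ≤ x ∧ x ≤ y ∧ y ≤ C * X ∧
      Real.exp (X ^ (s₀.re - 1 - ε)) * bsdProduct a b x ≤ bsdProduct a b y
  dn : NoR F → ∀ s₀ : ℂ, F s₀ = 0 → 1 < s₀.re → ∃ C : ℝ, 1 < C ∧ ∀ ε : ℝ, 0 < ε → ∀ᶠ X : ℝ in atTop,
    ∃ x y : ℝ, X ≤ x ∧ x ≤ y ∧ y ≤ C * X ∧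
      Real.exp (X ^ (s₀.re - 1 - ε)) * bsdProduct a b y ≤ bsdProduct a b x
  law : NoZ F → 0 < Tc F m ∧ ∀ R : ℝ, 0 ≤ R →
      Tendsto (fun U => ∫ u in U..(U + R), |dev a b (Tc F m) m (Real.exp u)|) atTop (𝓝 0)

theorem facts (hΔ : 4 * a ^ 3 + 27 * b ^ 2 ≠ 0) (hF : IsLSeries a b F)
    (hgr : ∃ C : ℝ, ∀ s : ℂ, 0 < s.re → ‖PhiF a b F s‖ ≤ C * (1 + ‖s‖) * (1 + 1 / s.re) ^ 2)
    (hdens : Dens (PhiF a b F))
    (hrs : Tendsto (rsSum a b) atTop (𝓝 0)) {η C₀ : ℝ} {κ₀ : ℕ} (hη : 0 < η)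
    (hg : ∀ s : ℂ, 1 - η < s.re → ‖F s‖ ≤ C₀ * (1 + ‖s‖) ^ κ₀) {m : ℕ} (hm : analyticOrderAt F 1 = m) :
    Facts a b F m where
  order := hm
  up := fun _ hz hs => incrP hF hgr hdens hz hs
  dn := fun hR _ hz hs => decrP hF hgr hdens hR hz hs
  law := fun h => law_win hΔ hF hrs hη hg hm h

variable {m : ℕ}

theorem noz_up (H : Facts a b F m) (hl : l ≤ atTop) [l.NeBot] {q K : ℝ} (hq : 1 < q)
    (h : PairW l q fun x y => bsdProduct a b y ≤ K * bsdProduct a b x) : NoZ F := by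
  by_contra hcon
  unfold NoZ at hcon
  push Not at hcon
  obtain ⟨s, hs, hz⟩ := hcon
  obtain ⟨C, hC, h1⟩ := H.up s hz hs
  obtain ⟨k, hk⟩ := exists_pow_ge (M := C ^ 2) hq
  have h2 := pair_all hl (fun x => bsdProduct_pos (a := a) (b := b) x) hq h hC hk
  have h3 := lev hl (h1 ((s.re - 1) / 2) (by linarith))
  have h4 := lev hl (exp_big (e := s.re - 1 - (s.re - 1) / 2) (K := K ^ k) (by linarith))
  obtain ⟨X, k1, k2, k3, k4⟩ := (h2.and (h3.and (h4.and (lev hl (eventually_gt_atTop 0))))).exists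
  obtain ⟨x, y, j1, j2, j3, j4⟩ := k2
  have j5 := k1 x y ((div_le_self k4.le hC.le).trans j1) j2 j3
  have hP := bsdProduct_pos (a := a) (b := b) x
  have : K ^ k * bsdProduct a b x < Real.exp (X ^ (s.re - 1 - (s.re - 1) / 2)) * bsdProduct a b x := by
    gcongr
  linarith

theorem noz_dn (H : Facts a b F m) (hR : NoR F) (hl : l ≤ atTop) [l.NeBot] {q K : ℝ} (hq : 1 < q)
    (h : PairW l q fun x y => bsdProduct a b x ≤ K * bsdProduct a b y) : NoZ F := by
  by_contra hcon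
  unfold NoZ at hcon
  push Not at hcon
  obtain ⟨s, hs, hz⟩ := hcon
  obtain ⟨C, hC, h1⟩ := H.dn hR s hz hs
  obtain ⟨k, hk⟩ := exists_pow_ge (M := C ^ 2) hq
  have hPi : ∀ x, 0 < (fun x => (bsdProduct a b x)⁻¹) x := fun x => inv_pos.2 (bsdProduct_pos x)
  have h' : PairW l q fun x y => (fun x => (bsdProduct a b x)⁻¹) y ≤ K * (fun x => (bsdProduct a b x)⁻¹) x := by
    intro C hC
    filter_upwards [h C hC] with X h1 x y a1 a2 a3 a4
    have h2 := h1 x y a1 a2 a3 a4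
    have p1 := bsdProduct_pos (a := a) (b := b) x
    have p2 := bsdProduct_pos (a := a) (b := b) y
    rw [← div_eq_mul_inv, le_div_iff₀ p1, inv_mul_le_iff₀ p2]
    linarith [mul_comm K (bsdProduct a b y)]
  have h2 := pair_all hl hPi hq h' hC hk
  have h3 := lev hl (h1 ((s.re - 1) / 2) (by linarith))
  have h4 := lev hl (exp_big (e := s.re - 1 - (s.re - 1) / 2) (K := K ^ k) (by linarith))
  obtain ⟨X, k1, k2, k3, k4⟩ := (h2.and (h3.and (h4.and (lev hl (eventually_gt_atTop 0))))).exists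
  obtain ⟨x, y, j1, j2, j3, j4⟩ := k2
  have j5 := k1 x y ((div_le_self k4.le hC.le).trans j1) j2 j3
  have p1 := bsdProduct_pos (a := a) (b := b) x
  have p2 := bsdProduct_pos (a := a) (b := b) y
  rw [← div_eq_mul_inv, le_div_iff₀ p1, inv_mul_le_iff₀ p2] at j5
  have : K ^ k * bsdProduct a b y < Real.exp (X ^ (s.re - 1 - (s.re - 1) / 2)) * bsdProduct a b y := by
    gcongr
  linarith [mul_comm (K ^ k) (bsdProduct a b y)]

theorem K_ge_one {P : ℝ → ℝ} (hP : ∀ x, 0 < P x) (hl : l ≤ atTop) [l.NeBot] {q K : ℝ} (hq : 1 < q)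
    (h : PairW l q fun x _ => P x ≤ K * P x) : 1 ≤ K := by
  obtain ⟨X, h1, h2⟩ := ((h 2 (by norm_num)).and (lev hl (eventually_gt_atTop 0))).exists
  have h4 := h1 X X (by linarith) le_rfl (by nlinarith) (by linarith)
  have := hP X
  by_contra hcon
  push Not at hcon
  nlinarith

theorem quant_up (H : Facts a b F m) (hl : l ≤ atTop) [l.NeBot] {q K : ℝ} (hq : 1 < q)
    (h : PairW l q fun x y => bsdProduct a b y ≤ K * bsdProduct a b x) :
    NoZ F ∧ 0 < Tc F m ∧ ∀ K' : ℝ, K < K' → NearW l (dev a b (Tc F m) m) (Real.log K') := by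
  have hnz := noz_up H hl hq h
  obtain ⟨hT, hlaw⟩ := H.law hnz
  refine ⟨hnz, hT, fun K' hK' => ?_⟩
  have hK : 1 ≤ K := by
    obtain ⟨X, h1, h2⟩ := ((h 2 (by norm_num)).and (lev hl (eventually_gt_atTop 0))).exists
    have h4 := h1 X X (by linarith) le_rfl (by nlinarith) (by linarith)
    have := bsdProduct_pos (a := a) (b := b) X
    by_contra hcon
    push Not at hcon
    nlinarith
  have hd : 0 < Real.log K' - Real.log K := by
    have := Real.log_lt_log (by linarith) hK'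
    linarith
  have key := near_abs (φ := dev a b (Tc F m) m) (fun A B hA hB => dexp_int hT hA hB) hq
    (hlaw _ (Real.log_nonneg hq.le)) hl (B := Real.log K) ?_ hd
  · rwa [add_sub_cancel] at key
  · intro C hC
    filter_upwards [h C hC, hl (loglog hC one_pos)] with X h1 h2 x y a1 a2 a3 a4
    obtain ⟨b1, b2, -⟩ := h2 x y a1 a2 a4
    have b3 := dev_incr (a := a) (b := b) (ρ := m) hT b1 (b1.trans a2)
    have b4 := h1 x y a1 a2 a3 a4
    have p1 := bsdProduct_pos (a := a) (b := b) x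
    have p2 := bsdProduct_pos (a := a) (b := b) y
    have b5 : Real.log (bsdProduct a b y) ≤ Real.log K + Real.log (bsdProduct a b x) := by
      rw [← Real.log_mul (by linarith) p1.ne']
      exact Real.log_le_log p2 b4
    have b6 : 0 ≤ (m : ℝ) * (Real.log (Real.log y) - Real.log (Real.log x)) := by positivity
    linarith

theorem quant_dn (H : Facts a b F m) (hR : NoR F) (hl : l ≤ atTop) [l.NeBot] {q K : ℝ} (hq : 1 < q)
    (h : PairW l q fun x y => bsdProduct a b x ≤ K * bsdProduct a b y) :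
    NoZ F ∧ 0 < Tc F m ∧ ∀ K' : ℝ, K < K' → NearW l (dev a b (Tc F m) m) (Real.log K') := by
  have hnz := noz_dn H hR hl hq h
  obtain ⟨hT, hlaw⟩ := H.law hnz
  refine ⟨hnz, hT, fun K' hK' => ?_⟩
  have hK : 1 ≤ K := by
    obtain ⟨X, h1, h2⟩ := ((h 2 (by norm_num)).and (lev hl (eventually_gt_atTop 0))).exists
    have h4 := h1 X X (by linarith) le_rfl (by nlinarith) (by linarith)
    have := bsdProduct_pos (a := a) (b := b) X
    by_contra hcon
    push Not at hcon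
    nlinarith
  set d : ℝ := (Real.log K' - Real.log K) / 2 with hd'
  have hd : 0 < d := by
    have := Real.log_lt_log (by linarith) hK'
    linarith
  have hlaw' : Tendsto (fun U => ∫ u in U..(U + Real.log q), |(fun x => -dev a b (Tc F m) m x) (Real.exp u)|)
      atTop (𝓝 0) := by
    simpa only [abs_neg] using hlaw _ (Real.log_nonneg hq.le)
  have key := near_abs (φ := fun x => -dev a b (Tc F m) m x)
    (fun A B hA hB => (dexp_int hT hA hB).neg) hq hlaw' hl (B := Real.log K + d) ?_ hd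
  · have e : Real.log K + d + d = Real.log K' := by rw [hd']; ring
    rw [e] at key
    intro C hC
    filter_upwards [key C hC] with X h1 x a1 a2
    have := h1 x a1 a2
    rwa [abs_neg] at this
  · intro C hC
    have hδ : 0 < d / ((m : ℝ) + 1) := by positivity
    filter_upwards [h C hC, hl (loglog hC hδ)] with X h1 h2 x y a1 a2 a3 a4
    obtain ⟨b1, b2, b2'⟩ := h2 x y a1 a2 a4
    have b3 := dev_incr (a := a) (b := b) (ρ := m) hT b1 (b1.trans a2)
    have b4 := h1 x y a1 a2 a3 a4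
    have p1 := bsdProduct_pos (a := a) (b := b) x
    have p2 := bsdProduct_pos (a := a) (b := b) y
    have b5 : Real.log (bsdProduct a b x) ≤ Real.log K + Real.log (bsdProduct a b y) := by
      rw [← Real.log_mul (by linarith) p2.ne']
      exact Real.log_le_log p1 b4
    have b6 : (m : ℝ) * (Real.log (Real.log y) - Real.log (Real.log x)) ≤ d := by
      rw [le_div_iff₀ (by positivity)] at b2'
      nlinarith
    linarith

/-- the exponent and the constant are determined -/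
theorem ident (hl : l ≤ atTop) [l.NeBot] {A A' ρ ρ' B B' : ℝ} (hA : 0 < A) (hA' : 0 < A')
    (h : NearW l (dev a b A ρ) B) (h' : NearW l (dev a b A' ρ') B') :
    ρ = ρ' ∧ |Real.log A - Real.log A'| ≤ B + B' := by
  have key : ∀ᶠ X in l, |(ρ' - ρ) * Real.log (Real.log X) + (Real.log A' - Real.log A)| ≤ B + B' := by
    filter_upwards [h 2 (by norm_num), h' 2 (by norm_num), lev hl (eventually_ge_atTop (Real.exp 1))] with X h1 h2 h3
    have hX := e_pos h3
    have k1 := abs_le.1 (h1 X (by linarith) (by linarith))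
    have k2 := abs_le.1 (h2 X (by linarith) (by linarith))
    rw [dev_eq hA h3] at k1
    rw [dev_eq hA' h3] at k2
    rw [abs_le]
    constructor <;> linarith
  have hρ : ρ = ρ' := by
    by_contra hcon
    have h1 : 0 < |ρ' - ρ| := abs_pos.2 (sub_ne_zero.2 fun h => hcon h.symm)
    have h2 : ∀ᶠ X : ℝ in atTop, (B + B' + |Real.log A' - Real.log A| + 1) / |ρ' - ρ| ≤ Real.log (Real.log X) :=
      (Real.tendsto_log_atTop.comp Real.tendsto_log_atTop).eventually_ge_atTop _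
    obtain ⟨X, h3, h4, h5⟩ := (key.and ((lev hl h2).and (lev hl (eventually_ge_atTop (Real.exp 1))))).exists
    rw [div_le_iff₀ h1] at h4
    have h6 : 0 ≤ Real.log (Real.log X) := by
      have : 1 ≤ Real.log X := by rwa [Real.le_log_iff_exp_le (e_pos h5)]
      exact Real.log_nonneg this
    have h7 : |(ρ' - ρ) * Real.log (Real.log X)| ≤ |(ρ' - ρ) * Real.log (Real.log X) + (Real.log A' - Real.log A)| +
        |Real.log A' - Real.log A| := by
      have := abs_sub ((ρ' - ρ) * Real.log (Real.log X) + (Real.log A' - Real.log A)) (Real.log A' - Real.log A)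
      rwa [add_sub_cancel_right] at this
    rw [abs_mul, abs_of_nonneg h6] at h7
    linarith
  refine ⟨hρ, ?_⟩
  obtain ⟨X, h3⟩ := key.exists
  rw [hρ, sub_self, zero_mul, zero_add, abs_sub_comm] at h3
  exact h3

/-- **asymptotic form** -/
theorem critA (H : Facts a b F m) (hl : l ≤ atTop) [l.NeBot] {q : ℝ} (hq : 1 < q) (ρ : ℝ) :
    List.TFAE [
      NoZ F ∧ ρ = m ∧ 0 < Tc F m ∧ ∀ ε : ℝ, 0 < ε → NearW l (dev a b (Tc F m) m) ε,
      ∃ A : ℝ, 0 < A ∧ ∀ ε : ℝ, 0 < ε → NearW l (dev a b A ρ) ε,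
      ρ = m ∧ ∀ ε : ℝ, 0 < ε → PairW l q fun x y => bsdProduct a b y ≤ (1 + ε) * bsdProduct a b x,
      ρ = m ∧ NoR F ∧ ∀ ε : ℝ, 0 < ε → PairW l q fun x y => bsdProduct a b x ≤ (1 + ε) * bsdProduct a b y] := by
  have hup : (∀ ε : ℝ, 0 < ε → PairW l q fun x y => bsdProduct a b y ≤ (1 + ε) * bsdProduct a b x) →
      NoZ F ∧ 0 < Tc F m ∧ ∀ ε : ℝ, 0 < ε → NearW l (dev a b (Tc F m) m) ε := by
    intro h
    obtain ⟨h1, h2, -⟩ := quant_up H hl hq (h 1 one_pos)
    refine ⟨h1, h2, fun ε hε => ?_⟩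
    have h3 : 0 < Real.exp ε - 1 := by
      have := Real.one_lt_exp_iff.2 hε
      linarith
    have h4 := (quant_up H hl hq (h _ (half_pos h3))).2.2 (Real.exp ε) (by linarith)
    rwa [Real.log_exp] at h4
  have hdn : NoR F → (∀ ε : ℝ, 0 < ε → PairW l q fun x y => bsdProduct a b x ≤ (1 + ε) * bsdProduct a b y) →
      NoZ F ∧ 0 < Tc F m ∧ ∀ ε : ℝ, 0 < ε → NearW l (dev a b (Tc F m) m) ε := by
    intro hR h
    obtain ⟨h1, h2, -⟩ := quant_dn H hR hl hq (h 1 one_pos)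
    refine ⟨h1, h2, fun ε hε => ?_⟩
    have h3 : 0 < Real.exp ε - 1 := by
      have := Real.one_lt_exp_iff.2 hε
      linarith
    have h4 := (quant_dn H hR hl hq (h _ (half_pos h3))).2.2 (Real.exp ε) (by linarith)
    rwa [Real.log_exp] at h4
  have hcomm : ∀ {A : ℝ}, 0 < A → (∀ ε : ℝ, 0 < ε → NearW l (dev a b A ρ) ε) → ∀ ε : ℝ, 0 < ε →
      PairW l q (fun x y => bsdProduct a b y ≤ (1 + ε) * bsdProduct a b x ∧
        bsdProduct a b x ≤ (1 + ε) * bsdProduct a b y) := by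
    intro A hA h ε hε
    have h1 : 0 < Real.log (1 + ε) := Real.log_pos (by linarith)
    refine pair_dev hl hA (h (Real.log (1 + ε) / 4) (by positivity)) q ?_
    calc Real.exp (2 * (Real.log (1 + ε) / 4)) < Real.exp (Real.log (1 + ε)) := Real.exp_lt_exp.2 (by linarith)
      _ = 1 + ε := Real.exp_log (by linarith)
  tfae_have 1 → 2 := by
    rintro ⟨-, h1, h2, h3⟩
    exact ⟨Tc F m, h2, by rw [h1]; exact h3⟩
  tfae_have 2 → 3 := by
    rintro ⟨A, hA, h⟩
    have h1 : ∀ ε : ℝ, 0 < ε → PairW l q fun x y => bsdProduct a b y ≤ (1 + ε) * bsdProduct a b x := by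
      intro ε hε C hC
      filter_upwards [hcomm hA h ε hε C hC] with X h1 x y a1 a2 a3 a4
      exact (h1 x y a1 a2 a3 a4).1
    obtain ⟨-, h2, h3⟩ := hup h1
    exact ⟨(ident hl hA h2 (h 1 one_pos) (h3 1 one_pos)).1, h1⟩
  tfae_have 3 → 1 := by
    rintro ⟨h1, h2⟩
    obtain ⟨h3, h4, h5⟩ := hup h2
    exact ⟨h3, h1, h4, h5⟩
  tfae_have 4 → 1 := by
    rintro ⟨h1, h2, h3⟩
    obtain ⟨h4, h5, h6⟩ := hdn h2 h3
    exact ⟨h4, h1, h5, h6⟩
  tfae_have 1 → 4 := by
    rintro ⟨h1, h2, h3, h4⟩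
    refine ⟨h2, h1.noR, fun ε hε C hC => ?_⟩
    filter_upwards [hcomm h3 (by rw [h2]; exact h4) ε hε C hC] with X h5 x y a1 a2 a3 a4
    exact (h5 x y a1 a2 a3 a4).2
  tfae_finish

/-- **order of magnitude** -/
theorem critB (H : Facts a b F m) (hl : l ≤ atTop) [l.NeBot] {q : ℝ} (hq : 1 < q) (ρ : ℝ) :
    List.TFAE [
      NoZ F ∧ ρ = m ∧ ∃ B : ℝ, NearW l (dev a b 1 m) B,
      ∃ B : ℝ, NearW l (dev a b 1 ρ) B,
      ρ = m ∧ ∃ K : ℝ, PairW l q fun x y => bsdProduct a b y ≤ K * bsdProduct a b x,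
      ρ = m ∧ NoR F ∧ ∃ K : ℝ, PairW l q fun x y => bsdProduct a b x ≤ K * bsdProduct a b y] := by
  have hshift : ∀ {A B : ℝ}, 0 < A → NearW l (dev a b A m) B → NearW l (dev a b 1 m) (B + |Real.log A|) := by
    intro A B hA h C hC
    filter_upwards [h C hC, hl (loglog hC one_pos)] with X h1 h2 x a1 a2
    obtain ⟨h3, -⟩ := h2 x x a1 le_rfl a2
    have h4 := h1 x a1 a2
    rw [dev_eq one_pos h3, Real.log_one]
    rw [dev_eq hA h3] at h4
    have e : Real.log (bsdProduct a b x) - (0 + m * Real.log (Real.log x)) =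
        (Real.log (bsdProduct a b x) - (Real.log A + m * Real.log (Real.log x))) + Real.log A := by ring
    rw [e]
    exact (abs_add_le _ _).trans (by linarith)
  tfae_have 1 → 2 := by
    rintro ⟨-, h1, h2⟩
    rw [h1]
    exact h2
  tfae_have 2 → 3 := by
    rintro ⟨B, h⟩
    have h1 := pair_dev hl one_pos h q (K := Real.exp (2 * B) + 1) (by linarith)
    have h2 : PairW l q fun x y => bsdProduct a b y ≤ (Real.exp (2 * B) + 1) * bsdProduct a b x := by
      intro C hC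
      filter_upwards [h1 C hC] with X h1 x y a1 a2 a3 a4
      exact (h1 x y a1 a2 a3 a4).1
    obtain ⟨-, h3, h4⟩ := quant_up H hl hq h2
    exact ⟨(ident hl one_pos h3 h (h4 _ (lt_add_one _))).1, _, h2⟩
  tfae_have 3 → 1 := by
    rintro ⟨h1, K, h2⟩
    obtain ⟨h3, h4, h5⟩ := quant_up H hl hq h2
    exact ⟨h3, h1, _, hshift h4 (h5 _ (lt_add_one _))⟩
  tfae_have 4 → 1 := by
    rintro ⟨h1, hR, K, h2⟩
    obtain ⟨h3, h4, h5⟩ := quant_dn H hR hl hq h2
    exact ⟨h3, h1, _, hshift h4 (h5 _ (lt_add_one _))⟩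
  tfae_have 1 → 4 := by
    rintro ⟨h1, h2, B, h3⟩
    have h4 := pair_dev hl one_pos h3 q (K := Real.exp (2 * B) + 1) (by linarith)
    refine ⟨h2, h1.noR, Real.exp (2 * B) + 1, fun C hC => ?_⟩
    filter_upwards [h4 C hC] with X h1 x y a1 a2 a3 a4
    exact (h1 x y a1 a2 a3 a4).2
  tfae_finish

end

end Pool.Agent.N739.EL
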