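import Pool.Agent.N739.EL.Slow3

/-!
# Slow variation: translation
-/

set_option autoImplicit false

open MeasureTheory Filter Topology Set Classical
open Pool.Agent.W263.BSD

namespace Pool.Agent.N739.EL

open Pool.Agent.N739.LW (Dens DD DD_int DD_log)
open Pool.Agent.N739.LL (Dr LI Dr_LI Dr_norm)

noncomputable section

variable {a b : ℤ} {F : ℂ → ℂ} {l : Filter ℝ} {m : ℕ}

/-- `P(x) ∼ A (log x)^ρ`, uniformly on the windows `[X/C, C X]` -/
def AsympW (a b : ℤ) (l : Filter ℝ) (ρ A : ℝ) : Prop :=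
  ∀ C : ℝ, 1 < C → ∀ ε : ℝ, 0 < ε → ∀ᶠ X in l, ∀ x : ℝ, X / C ≤ x → x ≤ C * X →
    |bsdProduct a b x / (A * Real.log x ^ ρ) - 1| ≤ ε

/-- `A (log x)^ρ / K ≤ P(x) ≤ K A (log x)^ρ` on the windows `[X/C, C X]` -/
def MagW (a b : ℤ) (l : Filter ℝ) (ρ A K : ℝ) : Prop :=
  ∀ C : ℝ, 1 < C → ∀ᶠ X in l, ∀ x : ℝ, X / C ≤ x → x ≤ C * X →
    A * Real.log x ^ ρ ≤ K * bsdProduct a b x ∧ bsdProduct a b x ≤ K * (A * Real.log x ^ ρ)

theorem ev_ge (hl : l ≤ atTop) {C : ℝ} (hC : 1 < C) (M : ℝ) :
    ∀ᶠ X in l, ∀ x : ℝ, X / C ≤ x → M ≤ x := by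
  have hC0 : 0 < C := by linarith
  filter_upwards [lev hl (eventually_ge_atTop (C * M))] with X h x hx
  refine le_trans ?_ hx
  rwa [le_div_iff₀ hC0, mul_comm]

theorem g_pos {A ρ x : ℝ} (hA : 0 < A) (hx : Real.exp 1 ≤ x) : 0 < bsdProduct a b x / (A * Real.log x ^ ρ) := by
  have h1 : 1 ≤ Real.log x := by rwa [Real.le_log_iff_exp_le (e_pos hx)]
  have := bsdProduct_pos (a := a) (b := b) x
  positivity

theorem asymp_near (hl : l ≤ atTop) {ρ A : ℝ} (hA : 0 < A) :
    AsympW a b l ρ A ↔ ∀ ε : ℝ, 0 < ε → NearW l (dev a b A ρ) ε := by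
  constructor
  · intro h ε hε C hC
    have h0 : 0 < 1 - Real.exp (-ε) := by
      have := Real.exp_lt_exp.2 (by linarith : -ε < 0)
      rw [Real.exp_zero] at this
      linarith
    filter_upwards [h C hC (1 - Real.exp (-ε)) h0, ev_ge hl hC (Real.exp 1)] with X h1 h2 x a1 a2
    have h3 := abs_le.1 (h1 x a1 a2)
    have h4 := g_pos (a := a) (b := b) (ρ := ρ) hA (h2 x a1)
    have h5 : Real.exp ε * Real.exp (-ε) = 1 := by rw [← Real.exp_add]; simp
    have h6 : 2 - Real.exp (-ε) ≤ Real.exp ε := by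
      have h7 := Real.exp_pos ε
      have h8 := Real.exp_pos (-ε)
      nlinarith [sq_nonneg (Real.exp ε - 1), sq_nonneg (Real.exp ε - Real.exp (-ε))]
    unfold dev
    rw [abs_le]
    constructor
    · rw [Real.le_log_iff_exp_le h4]
      linarith
    · rw [Real.log_le_iff_le_exp h4]
      linarith
  · intro h C hC ε hε
    have hmin : 0 < min ε (1 / 2) := by positivity
    have h0 : 0 < Real.log (1 + min ε (1 / 2)) := Real.log_pos (by linarith)
    filter_upwards [h _ h0 C hC, ev_ge hl hC (Real.exp 1)] with X h1 h2 x a1 a2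
    have h3 := abs_le.1 (h1 x a1 a2)
    have h4 := g_pos (a := a) (b := b) (ρ := ρ) hA (h2 x a1)
    unfold dev at h3
    set g : ℝ := bsdProduct a b x / (A * Real.log x ^ ρ) with hg
    have e1 : 0 < 1 + min ε (1 / 2) := by linarith
    have e2 : g ≤ 1 + min ε (1 / 2) := by
      have := h3.2
      rw [Real.log_le_log_iff h4 e1] at this
      exact this
    have e3 : (1 + min ε (1 / 2))⁻¹ ≤ g := by
      have := h3.1
      rw [← Real.log_inv, Real.log_le_log_iff (by positivity) h4] at this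
      exact this
    have e4 : 1 - min ε (1 / 2) ≤ (1 + min ε (1 / 2))⁻¹ := by
      rw [le_inv_comm₀ (by linarith [min_le_right ε (1 / 2)]) e1, ← one_div,
        le_div_iff₀ (by linarith [min_le_right ε (1 / 2)])]
      nlinarith
    have e5 := min_le_left ε (1 / 2)
    rw [abs_le]
    constructor <;> linarith

theorem mag_near (hl : l ≤ atTop) {ρ A K : ℝ} (hA : 0 < A) (hK : 0 < K) :
    MagW a b l ρ A K ↔ NearW l (dev a b A ρ) (Real.log K) := by
  have key : ∀ x : ℝ, Real.exp 1 ≤ x → ((A * Real.log x ^ ρ ≤ K * bsdProduct a b x ∧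
      bsdProduct a b x ≤ K * (A * Real.log x ^ ρ)) ↔ |dev a b A ρ x| ≤ Real.log K) := by
    intro x hx
    have h4 := g_pos (a := a) (b := b) (ρ := ρ) hA hx
    have h1 : 1 ≤ Real.log x := by rwa [Real.le_log_iff_exp_le (e_pos hx)]
    have h5 : 0 < A * Real.log x ^ ρ := by positivity
    unfold dev
    rw [abs_le, ← Real.log_inv, Real.log_le_log_iff (by positivity) h4, Real.log_le_log_iff h4 hK,
      div_le_iff₀ h5, le_div_iff₀ h5, inv_mul_le_iff₀ hK]
  constructor
  · intro h C hC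
    filter_upwards [h C hC, ev_ge hl hC (Real.exp 1)] with X h1 h2 x a1 a2
    exact (key x (h2 x a1)).1 (h1 x a1 a2)
  · intro h C hC
    filter_upwards [h C hC, ev_ge hl hC (Real.exp 1)] with X h1 h2 x a1 a2
    exact (key x (h2 x a1)).2 (h1 x a1 a2)

theorem mag_ex (hl : l ≤ atTop) [l.NeBot] {ρ A : ℝ} (hA : 0 < A) :
    (∃ K : ℝ, MagW a b l ρ A K) ↔ ∃ B : ℝ, NearW l (dev a b A ρ) B := by
  constructor
  · rintro ⟨K, h⟩
    have hK : 0 < K := by
      obtain ⟨X, h1, h2⟩ := ((h 2 (by norm_num)).and (lev hl (eventually_ge_atTop (Real.exp 1)))).exists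
      have hX := e_pos h2
      have h3 := (h1 X (by linarith) (by linarith)).1
      have h4 : 1 ≤ Real.log X := by rwa [Real.le_log_iff_exp_le hX]
      have h5 : 0 < A * Real.log X ^ ρ := by positivity
      have h6 := bsdProduct_pos (a := a) (b := b) X
      by_contra hcon
      push Not at hcon
      nlinarith
    exact ⟨_, (mag_near hl hA hK).1 h⟩
  · rintro ⟨B, h⟩
    refine ⟨Real.exp B, (mag_near hl hA (Real.exp_pos B)).2 ?_⟩
    rwa [Real.log_exp]

/-! ### all `x` -/

theorem pair_top {q : ℝ} (hq : 1 < q) {Q : ℝ → ℝ → Prop} :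
    PairW atTop q Q ↔ ∀ᶠ x : ℝ in atTop, ∀ y : ℝ, x ≤ y → y ≤ q * x → Q x y := by
  constructor
  · intro h
    filter_upwards [h q hq, eventually_gt_atTop (0 : ℝ)] with x h1 h2 y a1 a2
    exact h1 x y (div_le_self h2.le hq.le) a1 a2 a2
  · intro h C hC
    obtain ⟨x₀, hx₀⟩ := h.exists_forall_of_atTop
    filter_upwards [ev_ge le_rfl hC x₀] with X h1 x y a1 a2 a3 _
    exact hx₀ x (h1 x a1) y a2 a3

theorem near_top {φ : ℝ → ℝ} {B : ℝ} : NearW atTop φ B ↔ ∀ᶠ x : ℝ in atTop, |φ x| ≤ B := by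
  constructor
  · intro h
    filter_upwards [h 2 (by norm_num), eventually_gt_atTop (0 : ℝ)] with x h1 h2
    exact h1 x (by linarith) (by linarith)
  · intro h C hC
    obtain ⟨x₀, hx₀⟩ := h.exists_forall_of_atTop
    filter_upwards [ev_ge le_rfl hC x₀] with X h1 x a1 _
    exact hx₀ x (h1 x a1)

theorem asymp_top {ρ A : ℝ} (hA : 0 < A) : AsympW a b atTop ρ A ↔
    Tendsto (fun x : ℝ => bsdProduct a b x / Real.log x ^ ρ) atTop (𝓝 A) := by
  have h0 : ∀ᶠ x : ℝ in atTop, bsdProduct a b x / Real.log x ^ ρ = A * (bsdProduct a b x / (A * Real.log x ^ ρ)) := by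
    filter_upwards [eventually_ge_atTop (Real.exp 1)] with x hx
    have h1 : 1 ≤ Real.log x := by rwa [Real.le_log_iff_exp_le (e_pos hx)]
    have h5 : 0 < Real.log x ^ ρ := by positivity
    field_simp
  have h1 : AsympW a b atTop ρ A ↔ Tendsto (fun x : ℝ => bsdProduct a b x / (A * Real.log x ^ ρ)) atTop (𝓝 1) := by
    rw [Metric.tendsto_atTop]
    constructor
    · intro h ε hε
      have h2 := h 2 (by norm_num) (ε / 2) (half_pos hε)
      obtain ⟨x₀, hx₀⟩ := (h2.and (eventually_gt_atTop (0 : ℝ))).exists_forall_of_atTop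
      refine ⟨x₀, fun x hx => ?_⟩
      obtain ⟨h3, h4⟩ := hx₀ x hx
      rw [Real.dist_eq]
      have := h3 x (by linarith) (by linarith)
      linarith
    · intro h C hC ε hε
      obtain ⟨x₀, hx₀⟩ := h ε hε
      filter_upwards [ev_ge le_rfl hC x₀] with X h1 x a1 _
      have := hx₀ x (h1 x a1)
      rw [Real.dist_eq] at this
      exact this.le
  rw [h1]
  constructor
  · intro h
    have h2 := h.const_mul A
    rw [mul_one] at h2
    refine h2.congr' ?_
    filter_upwards [h0] with x hx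
    exact hx.symm
  · intro h
    have h2 := h.const_mul A⁻¹
    rw [inv_mul_cancel₀ hA.ne'] at h2
    refine h2.congr' ?_
    filter_upwards [h0] with x hx
    rw [hx, ← mul_assoc, inv_mul_cancel₀ hA.ne', one_mul]

theorem P_meas (a b : ℤ) : Measurable (bsdProduct a b) := by
  have : bsdProduct a b = (fun n : ℕ => ∏ p ∈ (Finset.range (n + 1)).filter (GoodPrime a b),
      (((pointCount a b p : ℝ) + 1) / p)) ∘ (fun x : ℝ => ⌊x⌋₊) := by
    funext x
    rfl
  rw [this]
  exact (measurable_from_nat).comp Nat.measurable_floor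

/-- slow variation implies the one-sided condition -/
theorem sv_pair (h : ∀ t : ℝ, 0 < t → Tendsto (fun x : ℝ => bsdProduct a b (t * x) / bsdProduct a b x) atTop (𝓝 1))
    {q : ℝ} (hq : 1 < q) {ε : ℝ} (hε : 0 < ε) :
    PairW atTop q fun x y => bsdProduct a b y ≤ (1 + ε) * bsdProduct a b x := by
  set f : ℝ → ℝ := fun u => Real.log (bsdProduct a b (Real.exp u)) with hf
  have hfm : Measurable f := Real.measurable_log.comp ((P_meas a b).comp Real.measurable_exp)
  have hP := fun x => bsdProduct_pos (a := a) (b := b) x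
  have h1 : ∀ t, Tendsto (fun u => f (u + t) - f u) atTop (𝓝 0) := by
    intro t
    have h2 := (h (Real.exp t) (Real.exp_pos t)).comp Real.tendsto_exp_atTop
    have h3 := (Real.continuousAt_log one_ne_zero).tendsto.comp h2
    rw [Real.log_one] at h3
    refine h3.congr fun u => ?_
    simp only [Function.comp, hf]
    rw [Real.log_div (hP _).ne' (hP _).ne', ← Real.exp_add, add_comm]
  have h2 := uct hfm h1 (R := Real.log q) (Real.log_pos (by linarith : 1 < 1 + ε))
  rw [pair_top hq]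
  filter_upwards [Real.tendsto_log_atTop.eventually h2, eventually_gt_atTop (0 : ℝ)] with x h3 hx y hy1 hy2
  have hy0 : 0 < y := hx.trans_le hy1
  have h4 := h3 (Real.log y - Real.log x) ⟨by
    rw [sub_nonneg]; exact Real.log_le_log hx hy1, by
    rw [sub_le_iff_le_add, ← Real.log_mul (by linarith) hx.ne']
    exact Real.log_le_log hy0 hy2⟩
  have h5 := (abs_le.1 h4).2
  simp only [hf] at h5
  rw [add_sub_cancel, Real.exp_log hx, Real.exp_log hy0, sub_le_iff_le_add,
    ← Real.log_mul (by linarith) (hP _).ne', Real.log_le_log_iff (hP _) (by have := hP x; positivity)] at h5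
  exact h5

theorem asymp_sv {ρ A : ℝ} (hA : 0 < A)
    (h : Tendsto (fun x : ℝ => bsdProduct a b x / Real.log x ^ ρ) atTop (𝓝 A)) {t : ℝ} (ht : 0 < t) :
    Tendsto (fun x : ℝ => bsdProduct a b (t * x) / bsdProduct a b x) atTop (𝓝 1) := by
  have h1 : Tendsto (fun x : ℝ => t * x) atTop atTop := tendsto_id.const_mul_atTop ht
  have h2 := (h.comp h1).div h hA.ne'
  rw [div_self hA.ne'] at h2
  have h3 : Tendsto (fun x : ℝ => Real.log (t * x) / Real.log x) atTop (𝓝 1) := by
    have h4 : Tendsto (fun x : ℝ => Real.log t / Real.log x + 1) atTop (𝓝 (0 + 1)) :=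
      (Tendsto.div_atTop tendsto_const_nhds Real.tendsto_log_atTop).add_const 1
    rw [zero_add] at h4
    refine h4.congr' ?_
    filter_upwards [eventually_gt_atTop (1 : ℝ)] with x hx
    have : Real.log x ≠ 0 := (Real.log_pos hx).ne'
    rw [Real.log_mul ht.ne' (by linarith)]
    field_simp
  have h5 : Tendsto (fun x : ℝ => (Real.log (t * x) / Real.log x) ^ ρ) atTop (𝓝 1) := by
    have := h3.rpow_const (p := ρ) (Or.inl one_ne_zero)
    rwa [Real.one_rpow] at this
  have h6 := h2.mul h5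
  rw [one_mul] at h6
  refine h6.congr' ?_
  filter_upwards [eventually_gt_atTop (1 : ℝ), h1.eventually (eventually_gt_atTop (1 : ℝ))] with x hx hx'
  have l1 := Real.log_pos hx
  have l2 := Real.log_pos hx'
  simp only [Function.comp, Pi.div_apply]
  rw [Real.div_rpow l2.le l1.le]
  have p1 : 0 < Real.log x ^ ρ := by positivity
  have p2 : 0 < Real.log (t * x) ^ ρ := by positivity
  have p3 := bsdProduct_pos (a := a) (b := b) x
  field_simp

end

end Pool.Agent.N739.EL
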