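import Pool.Agent.N739.EL.Inst
import Pool.Agent.N739.LW.Conv
import Pool.Agent.W263.BSD.OrderFinal

/-!
# The product of Birch and Swinnerton-Dyer in short windows
-/

set_option autoImplicit false

open MeasureTheory Filter Topology Set
open Pool.Agent.W263.BSD

namespace Pool.Agent.N739.EL

open Pool.Agent.N739.LW (LG NZ Dens DD DD_int)

noncomputable section

open Classical

variable {a b : ℤ}

theorem cc_ap {p : ℕ} (hp : p.Prime) : cc (Ap a b) p = Real.log (((pointCount a b p : ℝ) + 1) / p) := by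
  have hp0 : (p : ℝ) ≠ 0 := by exact_mod_cast hp.ne_zero
  unfold cc tt Ap
  rw [dl_sq hp.one_le]
  congr 1
  field_simp
  ring

theorem log_prod (a b : ℤ) : ∃ c₀ : ℝ, ∀ u : ℝ, 4 ≤ u →
    ((Real.log (bsdProduct a b (Real.exp u)) : ℝ) : ℂ) = DD (fc (SS a b) (Ap a b)) u + (c₀ : ℂ) := by
  refine ⟨∑ p ∈ Finset.range 25, if GoodPrime a b p then
    Real.log (((pointCount a b p : ℝ) + 1) / p) else 0, fun u hu => ?_⟩
  have E := eData a b
  set M : ℕ := ⌊Real.exp u⌋₊ with hM
  have hM25 : 25 ≤ M := by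
    rw [hM, Nat.le_floor_iff (Real.exp_pos u).le]
    have h1 : Real.exp 4 ≤ Real.exp u := Real.exp_le_exp.2 hu
    have h2 : Real.exp 4 = Real.exp 1 ^ 4 := by rw [← Real.exp_nat_mul]; norm_num
    have h3 : (2.7 : ℝ) ≤ Real.exp 1 := by
      have := Real.exp_one_gt_d9
      linarith
    have h4 : (2.7 : ℝ) ^ 4 ≤ Real.exp 1 ^ 4 := pow_le_pow_left₀ (by norm_num) h3 4
    have h5 : (25 : ℝ) ≤ (2.7 : ℝ) ^ 4 := by norm_num
    rw [h2] at h1
    push_cast
    linarith
  have h1 : Real.log (bsdProduct a b (Real.exp u)) = ∑ p ∈ Finset.range (M + 1),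
      if GoodPrime a b p then Real.log (((pointCount a b p : ℝ) + 1) / p) else 0 := by
    rw [log_bsdProduct]
    unfold rieszMean
    rw [Finset.sum_filter]
    refine Finset.sum_congr rfl fun p _ => ?_
    split_ifs
    · rw [pow_zero, one_mul]
    · rfl
  have h2 : DD (fc (SS a b) (Ap a b)) u = ((∑ p ∈ Finset.range (M + 1),
      if p ∈ SS a b then cc (Ap a b) p else 0 : ℝ) : ℂ) := by
    unfold DD
    have e : Finset.range (M + 1) = insert 0 (Finset.Icc 1 M) := by
      ext x
      simp only [Finset.mem_range, Finset.mem_insert, Finset.mem_Icc]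
      omega
    rw [e, Finset.sum_insert (by simp), if_neg, zero_add]
    · push_cast
      refine Finset.sum_congr rfl fun p _ => ?_
      unfold fc
      split_ifs <;> simp
    · intro h
      have := E.big 0 h
      omega
  have h3 : (∑ p ∈ Finset.range 25, if GoodPrime a b p then
      Real.log (((pointCount a b p : ℝ) + 1) / p) else 0) =
      ∑ p ∈ Finset.range (M + 1), if p ∈ Finset.range 25 then (if GoodPrime a b p then
        Real.log (((pointCount a b p : ℝ) + 1) / p) else 0) else 0 := by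
    symm
    rw [← Finset.sum_filter]
    refine Finset.sum_congr ?_ fun _ _ => rfl
    ext x
    simp only [Finset.mem_range, Finset.mem_filter]
    omega
  rw [h1, h2, h3, ← Complex.ofReal_add, ← Finset.sum_add_distrib]
  congr 1
  refine Finset.sum_congr rfl fun p _ => ?_
  by_cases hg : GoodPrime a b p
  · by_cases h25 : 25 ≤ p
    · have hm : p ∉ Finset.range 25 := by rw [Finset.mem_range]; omega
      have hS : p ∈ SS a b := ⟨hg, h25⟩
      rw [if_pos hg, if_pos hS, if_neg hm, add_zero, cc_ap hg.1]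
    · have hm : p ∈ Finset.range 25 := by rw [Finset.mem_range]; omega
      have hS : p ∉ SS a b := fun h => h25 h.2
      rw [if_pos hg, if_neg hS, if_pos hm, zero_add]
  · have hS : p ∉ SS a b := fun h => hg h.1
    rw [if_neg hg, if_neg hS, zero_add]
    split_ifs <;> rfl

/-- the mean over a short interval -/
def wm (φ : ℝ → ℝ) (κ X : ℝ) : ℝ :=
  Real.log X ^ κ / X * ∫ x in X..(X + X / Real.log X ^ κ), |φ x|

theorem exp_image (a b : ℝ) : Real.exp '' Ioc a b = Ioc (Real.exp a) (Real.exp b) := by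
  ext x
  constructor
  · rintro ⟨u, ⟨h1, h2⟩, rfl⟩
    exact ⟨Real.exp_lt_exp.2 h1, Real.exp_le_exp.2 h2⟩
  · rintro ⟨h1, h2⟩
    have hx : 0 < x := (Real.exp_pos a).trans h1
    refine ⟨Real.log x, ⟨?_, ?_⟩, Real.exp_log hx⟩
    · rwa [Real.lt_log_iff_exp_lt hx]
    · rwa [Real.log_le_iff_le_exp hx]

theorem wm_lower {φ : ℝ → ℝ} {κ U : ℝ} (hκ : 0 ≤ κ) (hU : 1 ≤ U)
    (hφ : ∀ A B : ℝ, Real.exp 1 ≤ A → Real.exp 1 ≤ B → IntervalIntegrable φ volume A B)
    (hψ : IntervalIntegrable (fun u => φ (Real.exp u)) volume U (U + U ^ (-κ) / 2)) :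
    ∫ u in U..(U + U ^ (-κ) / 2), |φ (Real.exp u)| ≤ wm φ κ (Real.exp U) := by
  have hU0 : 0 < U := by linarith
  have hκ0 : 0 < U ^ (-κ) := Real.rpow_pos_of_pos hU0 _
  have hκ1 : U ^ (-κ) ≤ 1 := by
    rw [Real.rpow_neg hU0.le]
    exact inv_le_one_of_one_le₀ (Real.one_le_rpow hU hκ)
  have hUk : 1 ≤ U ^ κ := Real.one_le_rpow hU hκ
  set L : ℝ := U ^ (-κ) / 2 with hL
  have hL0 : 0 < L := by positivity
  have hexpL : Real.exp L ≤ 1 + 2 * L := by
    have hb := Real.abs_exp_sub_one_sub_id_le (x := L) (by rw [abs_of_pos hL0]; linarith)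
    have := (abs_le.1 hb).2
    nlinarith
  have hend : Real.exp (U + L) ≤ Real.exp U + Real.exp U / U ^ κ := by
    rw [Real.exp_add, div_eq_mul_inv, ← Real.rpow_neg hU0.le]
    have : 2 * L = U ^ (-κ) := by rw [hL]; ring
    have h1 := mul_le_mul_of_nonneg_left hexpL (Real.exp_pos U).le
    rw [this] at h1
    linarith
  have he1 : Real.exp 1 ≤ Real.exp U := Real.exp_le_exp.2 hU
  have he2 : Real.exp U ≤ Real.exp (U + L) := Real.exp_le_exp.2 (by linarith)
  have h1 : ∫ x in (Real.exp U)..(Real.exp (U + L)), |φ x| ≤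
      ∫ x in (Real.exp U)..(Real.exp U + Real.exp U / U ^ κ), |φ x| := by
    apply intervalIntegral.integral_mono_interval le_rfl he2 hend _ (hφ _ _ he1 (by linarith)).abs
    exact Eventually.of_forall fun u => abs_nonneg _
  have h2 : Real.exp U * ∫ u in U..(U + L), |φ (Real.exp u)| ≤
      ∫ x in (Real.exp U)..(Real.exp (U + L)), |φ x| := by
    rw [intervalIntegral.integral_of_le he2, ← exp_image,
      integral_image_eq_integral_abs_deriv_smul measurableSet_Ioc
        (fun x _ => (Real.hasDerivAt_exp x).hasDerivWithinAt) (Real.exp_injective.injOn),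
      ← intervalIntegral.integral_of_le (by linarith), ← intervalIntegral.integral_const_mul]
    apply intervalIntegral.integral_mono_on (by linarith)
    · exact hψ.abs.const_mul _
    · have hc : IntervalIntegrable (fun u => Real.exp u * |φ (Real.exp u)|) volume U (U + L) :=
        hψ.abs.continuousOn_mul Real.continuous_exp.continuousOn
      refine hc.congr ?_
      intro u _
      simp only [smul_eq_mul, abs_of_pos (Real.exp_pos u)]
    · intro u hu
      rw [smul_eq_mul, abs_of_pos (Real.exp_pos u)]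
      have : Real.exp U ≤ Real.exp u := Real.exp_le_exp.2 hu.1
      exact mul_le_mul_of_nonneg_right this (abs_nonneg _)
  unfold wm
  rw [Real.log_exp]
  have h3 := h2.trans h1
  have hJ : 0 ≤ ∫ u in U..(U + L), |φ (Real.exp u)| :=
    intervalIntegral.integral_nonneg (by linarith) fun u _ => abs_nonneg _
  calc ∫ u in U..(U + L), |φ (Real.exp u)|
      ≤ U ^ κ * ∫ u in U..(U + L), |φ (Real.exp u)| := le_mul_of_one_le_left hJ hUk
    _ = U ^ κ / Real.exp U * (Real.exp U * ∫ u in U..(U + L), |φ (Real.exp u)|) := by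
        have := (Real.exp_pos U).ne'
        field_simp
    _ ≤ _ := mul_le_mul_of_nonneg_left h3 (by positivity)

/-- `log (P(x) / (C (log x)^ρ))` -/
def dev (a b : ℤ) (C ρ x : ℝ) : ℝ := Real.log (bsdProduct a b x / (C * Real.log x ^ ρ))

theorem dev_eq {C ρ x : ℝ} (hC : 0 < C) (hx : Real.exp 1 ≤ x) :
    dev a b C ρ x = Real.log (bsdProduct a b x) - (Real.log C + ρ * Real.log (Real.log x)) := by
  have hx0 : 0 < x := (Real.exp_pos 1).trans_le hx
  have hl : 1 ≤ Real.log x := by rwa [Real.le_log_iff_exp_le hx0]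
  have hl0 : 0 < Real.log x := by linarith
  have hp : 0 < Real.log x ^ ρ := Real.rpow_pos_of_pos hl0 _
  unfold dev
  rw [Real.log_div (bsdProduct_pos x).ne' (by positivity), Real.log_mul hC.ne' hp.ne',
    Real.log_rpow hl0]

theorem logP_int (a b : ℤ) (A B : ℝ) :
    IntervalIntegrable (fun x => Real.log (bsdProduct a b x)) volume A B := by
  set Lp : ℕ → ℝ := fun n => Real.log (∏ p ∈ (Finset.range (n + 1)).filter (GoodPrime a b),
    (((pointCount a b p : ℝ) + 1) / p)) with hLp
  have e : (fun x => Real.log (bsdProduct a b x)) = fun x : ℝ => Lp ⌊x⌋₊ := by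
    funext x; rfl
  rw [e]
  have hm : Measurable fun x : ℝ => Lp ⌊x⌋₊ := (measurable_from_nat (f := Lp)).comp Nat.measurable_floor
  have hb : ∀ x : ℝ, x ≤ max A B → ‖Lp ⌊x⌋₊‖ ≤ ∑ k ∈ Finset.range (⌊max A B⌋₊ + 1), ‖Lp k‖ := by
    intro x hx
    refine Finset.single_le_sum (f := fun k => ‖Lp k‖) (fun k _ => norm_nonneg _) ?_
    rw [Finset.mem_range]
    exact Nat.lt_succ_of_le (Nat.floor_le_floor hx)
  have hg : IntervalIntegrable (fun _ : ℝ => ∑ k ∈ Finset.range (⌊max A B⌋₊ + 1), ‖Lp k‖) volume A B :=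
    intervalIntegrable_const
  refine hg.mono_fun hm.aestronglyMeasurable ?_
  refine (ae_restrict_iff' measurableSet_uIoc).2 (Eventually.of_forall fun x hx => ?_)
  rw [Set.mem_uIoc] at hx
  have h1 := hb x (by
    rcases hx with h | h
    · exact h.2.trans (le_max_right _ _)
    · exact h.2.trans (le_max_left _ _))
  exact h1.trans (le_abs_self _)

theorem dev_int {C ρ : ℝ} (hC : 0 < C) {A B : ℝ} (hA : Real.exp 1 ≤ A) (hB : Real.exp 1 ≤ B) :
    IntervalIntegrable (dev a b C ρ) volume A B := by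
  have hle : ∀ x ∈ uIcc A B, Real.exp 1 ≤ x := fun x hx => (le_min hA hB).trans hx.1
  have h1 : IntervalIntegrable (fun x => Real.log (bsdProduct a b x) -
      (Real.log C + ρ * Real.log (Real.log x))) volume A B := by
    refine (logP_int a b A B).sub ?_
    apply ContinuousOn.intervalIntegrable
    intro x hx
    have hx1 := hle x hx
    have hx0 : 0 < x := (Real.exp_pos 1).trans_le hx1
    have hl : 1 ≤ Real.log x := by rwa [Real.le_log_iff_exp_le hx0]
    refine ContinuousAt.continuousWithinAt ?_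
    refine continuousAt_const.add (ContinuousAt.const_mul ?_ ρ)
    exact (Real.continuousAt_log (by linarith)).comp (Real.continuousAt_log hx0.ne')
  refine h1.congr fun x hx => ?_
  exact (dev_eq hC (hle x (uIoc_subset_uIcc hx))).symm

variable {F : ℂ → ℂ}

/-- **Every short window sees every zero.** -/
theorem win_lower (hF : IsLSeries a b F)
    (hgr : ∃ C : ℝ, ∀ s : ℂ, 0 < s.re → ‖PhiF a b F s‖ ≤ C * (1 + ‖s‖) * (1 + 1 / s.re) ^ 2)
    (hdens : Dens (PhiF a b F)) {s₀ : ℂ} (hz : F s₀ = 0) (hs : 1 < s₀.re) {κ : ℝ} (hκ : 0 ≤ κ)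
    (hκs : κ * (2 - s₀.re) < s₀.re - 1) {C : ℝ} (hC : 0 < C) (ρ : ℝ) {ε : ℝ} (hε : 0 < ε) :
    ∀ᶠ X : ℝ in atTop, X ^ (s₀.re - 1 - ε) ≤ wm (dev a b C ρ) κ X := by
  have h := inst hF hgr
  set ρ₀ : ℂ := s₀ - 1 with hρ₀
  have hre : ρ₀.re = s₀.re - 1 := by rw [hρ₀]; simp
  have hG0 : PhiF a b F ρ₀ = 0 := by
    unfold PhiF
    rw [hρ₀, add_sub_cancel, hz, zero_mul]
  have hβ : 0 < ρ₀.re := by rw [hre]; linarith
  have hβ2 : ρ₀.re ≤ 1 / 2 := by
    by_contra hcon
    push Not at hcon
    rw [phi_exp hF hcon] at hG0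
    exact Complex.exp_ne_zero _ hG0
  obtain ⟨c₀, hc₀⟩ := log_prod a b
  have h1 := h.asym_real hdens hG0 hβ hβ2 hκ (by rw [hre]; linarith) (Real.log C - c₀) ρ hε
  have h2 := (Real.tendsto_log_atTop).eventually (h1.and (eventually_ge_atTop (4 : ℝ)))
  filter_upwards [h2, eventually_gt_atTop (0 : ℝ)] with X h3 hX
  obtain ⟨h4, h5⟩ := h3
  set U := Real.log X with hU
  have hU0 : 0 < U := by linarith
  have hU1 : 1 ≤ U := by linarith
  have hXU : Real.exp U = X := Real.exp_log hX
  have hk0 : 0 < U ^ (-κ) := Real.rpow_pos_of_pos hU0 _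
  have hdev : ∀ u : ℝ, 4 ≤ u → |dev a b C ρ (Real.exp u)| =
      ‖DD (fc (SS a b) (Ap a b)) u - ((Real.log C - c₀ + ρ * Real.log u : ℝ) : ℂ)‖ := by
    intro u hu
    rw [dev_eq hC (Real.exp_le_exp.2 (by linarith)), Real.log_exp, ← Real.norm_eq_abs,
      ← Complex.norm_real]
    congr 1
    rw [Complex.ofReal_sub, hc₀ u hu]
    push_cast
    ring
  have hψ : IntervalIntegrable (fun u => dev a b C ρ (Real.exp u)) volume U (U + U ^ (-κ) / 2) := by
    have e : ∀ u ∈ uIoc U (U + U ^ (-κ) / 2), (DD (fc (SS a b) (Ap a b)) u).re + c₀ -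
        (Real.log C + ρ * Real.log u) = dev a b C ρ (Real.exp u) := by
      intro u hu
      rw [uIoc_of_le (by linarith)] at hu
      have hu4 : 4 ≤ u := by linarith [hu.1]
      rw [dev_eq hC (Real.exp_le_exp.2 (by linarith)), Real.log_exp]
      have := congrArg Complex.re (hc₀ u hu4)
      rw [Complex.ofReal_re, Complex.add_re, Complex.ofReal_re] at this
      rw [this]
    refine IntervalIntegrable.congr e ?_
    have hD := DD_int (fc (SS a b) (Ap a b)) U (U + U ^ (-κ) / 2)
    have hD' : IntervalIntegrable (fun u => (DD (fc (SS a b) (Ap a b)) u).re) volume U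
        (U + U ^ (-κ) / 2) := by
      refine ⟨?_, ?_⟩
      · exact hD.1.re
      · exact hD.2.re
    refine (hD'.add intervalIntegrable_const).sub ?_
    apply ContinuousOn.intervalIntegrable
    rw [uIcc_of_le (by linarith)]
    intro u hu
    have hu0 : u ≠ 0 := by linarith [hu.1]
    exact (continuousAt_const.add ((Real.continuousAt_log hu0).const_mul _)).continuousWithinAt
  have h6 := wm_lower hκ hU1 (fun A B hA hB => dev_int hC hA hB) hψ
  rw [hXU] at h6
  refine le_trans ?_ h6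
  have e : X ^ (s₀.re - 1 - ε) = Real.exp ((ρ₀.re - ε) * U) := by
    rw [Real.rpow_def_of_pos hX, hre, mul_comm (Real.log X)]
  rw [e]
  refine h4.trans (le_of_eq ?_)
  apply intervalIntegral.integral_congr
  intro u hu
  rw [uIcc_of_le (by linarith)] at hu
  exact (hdev u (by linarith [hu.1])).symm

/-- **Every dyadic interval sees every zero**, with an arbitrary constant subtracted. -/
theorem osc_lower (hF : IsLSeries a b F)
    (hgr : ∃ C : ℝ, ∀ s : ℂ, 0 < s.re → ‖PhiF a b F s‖ ≤ C * (1 + ‖s‖) * (1 + 1 / s.re) ^ 2)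
    (hdens : Dens (PhiF a b F)) {s₀ : ℂ} (hz : F s₀ = 0) (hs : 1 < s₀.re) {κ : ℝ} (hκ : 0 ≤ κ)
    (hκs : κ * (2 - s₀.re) < s₀.re - 1) {ε : ℝ} (hε : 0 < ε) :
    ∀ᶠ X : ℝ in atTop, ∀ c : ℝ,
      X ^ (s₀.re - 1 - ε) ≤ wm (fun x => Real.log (bsdProduct a b x) - c) κ X := by
  have h := inst hF hgr
  set ρ₀ : ℂ := s₀ - 1 with hρ₀
  have hre : ρ₀.re = s₀.re - 1 := by rw [hρ₀]; simp
  have hG0 : PhiF a b F ρ₀ = 0 := by
    unfold PhiF
    rw [hρ₀, add_sub_cancel, hz, zero_mul]
  have hβ : 0 < ρ₀.re := by rw [hre]; linarith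
  have hβ2 : ρ₀.re ≤ 1 / 2 := by
    by_contra hcon
    push Not at hcon
    rw [phi_exp hF hcon] at hG0
    exact Complex.exp_ne_zero _ hG0
  obtain ⟨c₀, hc₀⟩ := log_prod a b
  have h1 := h.asym_log hdens hG0 hβ hβ2 hκ (by rw [hre]; linarith) hε
  have h2 := (Real.tendsto_log_atTop).eventually (h1.and (eventually_ge_atTop (4 : ℝ)))
  filter_upwards [h2, eventually_gt_atTop (0 : ℝ)] with X h3 hX c
  obtain ⟨h4, h5⟩ := h3
  set U := Real.log X with hU
  have hU0 : 0 < U := by linarith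
  have hU1 : 1 ≤ U := by linarith
  have hXU : Real.exp U = X := Real.exp_log hX
  have hk0 : 0 < U ^ (-κ) := Real.rpow_pos_of_pos hU0 _
  have hdev : ∀ u : ℝ, 4 ≤ u → |Real.log (bsdProduct a b (Real.exp u)) - c| =
      ‖DD (fc (SS a b) (Ap a b)) u - ((c - c₀ : ℝ) : ℂ)‖ := by
    intro u hu
    rw [← Real.norm_eq_abs, ← Complex.norm_real]
    congr 1
    rw [Complex.ofReal_sub, hc₀ u hu]
    push_cast
    ring
  have hψ : IntervalIntegrable (fun u => Real.log (bsdProduct a b (Real.exp u)) - c) volume U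
      (U + U ^ (-κ) / 2) := by
    have e : ∀ u ∈ uIoc U (U + U ^ (-κ) / 2), (DD (fc (SS a b) (Ap a b)) u).re + (c₀ - c) =
        Real.log (bsdProduct a b (Real.exp u)) - c := by
      intro u hu
      rw [uIoc_of_le (by linarith)] at hu
      have hu4 : 4 ≤ u := by linarith [hu.1]
      have := congrArg Complex.re (hc₀ u hu4)
      rw [Complex.ofReal_re, Complex.add_re, Complex.ofReal_re] at this
      rw [this]
      ring
    refine IntervalIntegrable.congr e ?_
    have hD := DD_int (fc (SS a b) (Ap a b)) U (U + U ^ (-κ) / 2)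
    have hD' : IntervalIntegrable (fun u => (DD (fc (SS a b) (Ap a b)) u).re) volume U
        (U + U ^ (-κ) / 2) := by
      refine ⟨?_, ?_⟩
      · exact hD.1.re
      · exact hD.2.re
    exact hD'.add intervalIntegrable_const
  have h6 := wm_lower hκ hU1 (φ := fun x => Real.log (bsdProduct a b x) - c)
    (fun A B hA hB => (logP_int a b A B).sub intervalIntegrable_const) hψ
  rw [hXU] at h6
  refine le_trans ?_ h6
  have e : X ^ (s₀.re - 1 - ε) = Real.exp ((ρ₀.re - ε) * U) := by
    rw [Real.rpow_def_of_pos hX, hre, mul_comm (Real.log X)]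
  rw [e]
  refine (h4 (((c - c₀ : ℝ)) : ℂ)).trans (le_of_eq ?_)
  apply intervalIntegral.integral_congr
  intro u hu
  rw [uIcc_of_le (by linarith)] at hu
  exact (hdev u (by linarith [hu.1])).symm

end

end Pool.Agent.N739.EL
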